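import Mathlib

set_option autoImplicit false

/-! Averages over sequences of vertices. -/

namespace Pool.Agent.H984R2.Col

open Finset

set_option linter.unusedSectionVars false

variable {V : Type} [Fintype V] [DecidableEq V]

/-- average of `φ` over all sequences of `t` vertices (most recent one first) -/
noncomputable def avg : ℕ → (List V → ℝ) → ℝ
  | 0, φ => φ []
  | (t + 1), φ => (∑ v : V, avg t (fun l => φ (v :: l))) / (Fintype.card V : ℝ)

theorem avg_succ (t : ℕ) (φ : List V → ℝ) :
    avg (t + 1) φ = (∑ v : V, avg t (fun l => φ (v :: l))) / (Fintype.card V : ℝ) := rfl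

theorem avg_mono (t : ℕ) : ∀ {φ ψ : List V → ℝ}, (∀ l, φ l ≤ ψ l) → avg t φ ≤ avg t ψ := by
  induction t with
  | zero => intro φ ψ h; exact h []
  | succ t ih =>
    intro φ ψ h
    rw [avg_succ, avg_succ]
    gcongr with v _
    exact ih fun l => h (v :: l)

theorem avg_congr (t : ℕ) {φ ψ : List V → ℝ} (h : ∀ l, φ l = ψ l) : avg t φ = avg t ψ := by
  rw [show φ = ψ from funext h]

theorem avg_add (t : ℕ) : ∀ φ ψ : List V → ℝ, avg t (fun l => φ l + ψ l) = avg t φ + avg t ψ := by
  induction t with
  | zero => intro φ ψ; rfl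
  | succ t ih =>
    intro φ ψ
    rw [avg_succ, avg_succ, avg_succ, ← add_div, ← Finset.sum_add_distrib]
    congr 1
    exact Finset.sum_congr rfl fun v _ => ih _ _

theorem avg_mul (t : ℕ) (k : ℝ) : ∀ φ : List V → ℝ, avg t (fun l => k * φ l) = k * avg t φ := by
  induction t with
  | zero => intro φ; rfl
  | succ t ih =>
    intro φ
    rw [avg_succ, avg_succ, ← mul_div_assoc, Finset.mul_sum]
    congr 1
    exact Finset.sum_congr rfl fun v _ => ih _

theorem avg_neg (t : ℕ) (φ : List V → ℝ) : avg t (fun l => - φ l) = - avg t φ := by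
  have := avg_mul t (-1) φ
  rw [neg_one_mul] at this
  rw [← this]
  exact avg_congr t fun l => by ring

theorem avg_sub (t : ℕ) (φ ψ : List V → ℝ) :
    avg t (fun l => φ l - ψ l) = avg t φ - avg t ψ := by
  simp_rw [sub_eq_add_neg]
  rw [avg_add, avg_neg]

theorem avg_sum (t : ℕ) {ι : Type} (s : Finset ι) (φ : ι → List V → ℝ) :
    avg t (fun l => ∑ i ∈ s, φ i l) = ∑ i ∈ s, avg t (φ i) := by
  classical
  induction s using Finset.induction_on with
  | empty =>
    simp only [Finset.sum_empty]
    have := avg_mul (V := V) t 0 (fun _ => 0)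
    simpa using this
  | insert a s ha ih =>
    simp_rw [Finset.sum_insert ha]
    rw [avg_add, ih]

theorem avg_const [Nonempty V] (t : ℕ) (k : ℝ) : avg (V := V) t (fun _ => k) = k := by
  induction t with
  | zero => rfl
  | succ t ih =>
    rw [avg_succ, ih, Finset.sum_const, Finset.card_univ, nsmul_eq_mul]
    have : (0 : ℝ) < Fintype.card V := by exact_mod_cast Fintype.card_pos
    field_simp

theorem avg_nonneg (t : ℕ) : ∀ {φ : List V → ℝ}, (∀ l, 0 ≤ φ l) → 0 ≤ avg t φ := by
  induction t with
  | zero => intro φ h; exact h []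
  | succ t ih =>
    intro φ h
    rw [avg_succ]
    exact div_nonneg (Finset.sum_nonneg fun v _ => ih fun l => h _) (Nat.cast_nonneg _)

theorem abs_avg_le (t : ℕ) (φ : List V → ℝ) : |avg t φ| ≤ avg t (fun l => |φ l|) := by
  rw [abs_le]
  constructor
  · rw [← avg_neg]
    exact avg_mono t fun l => neg_abs_le _
  · exact avg_mono t fun l => le_abs_self _

theorem avg_div (t : ℕ) (k : ℝ) (φ : List V → ℝ) : avg t (fun l => φ l / k) = avg t φ / k := by
  have := avg_mul t k⁻¹ φ
  rw [div_eq_inv_mul, ← this]
  exact avg_congr t fun l => by rw [div_eq_inv_mul]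

/-- the set of vertices which are not updated -/
def unsel (l : List V) : Finset V := Finset.univ.filter fun v => v ∉ l

theorem mem_unsel {l : List V} {v : V} : v ∈ unsel l ↔ v ∉ l := by
  simp [unsel]

theorem unsel_nil : unsel ([] : List V) = Finset.univ := by
  ext v; simp [mem_unsel]

theorem unsel_cons (v : V) (l : List V) : unsel (v :: l) = (unsel l).erase v := by
  ext w; simp [mem_unsel, not_or]

/-- probability that no vertex of `B` is updated -/
theorem avg_subset (t : ℕ) (B : Finset V) [Nonempty V] :
    avg t (fun l => if B ⊆ unsel l then (1 : ℝ) else 0) =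
      (1 - (B.card : ℝ) / Fintype.card V) ^ t := by
  have hn : (0 : ℝ) < Fintype.card V := by exact_mod_cast Fintype.card_pos
  induction t with
  | zero =>
    rw [pow_zero]
    change (if B ⊆ unsel [] then (1 : ℝ) else 0) = 1
    rw [unsel_nil, if_pos (Finset.subset_univ B)]
  | succ t ih =>
    rw [avg_succ]
    have h1 : ∀ v : V, avg t (fun l => if B ⊆ unsel (v :: l) then (1 : ℝ) else 0) =
        (if v ∈ B then 0 else 1) * (1 - (B.card : ℝ) / Fintype.card V) ^ t := by
      intro v
      rw [← ih, ← avg_mul]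
      refine avg_congr t fun l => ?_
      rw [unsel_cons]
      by_cases hv : v ∈ B
      · rw [if_pos hv, zero_mul, if_neg]
        intro h
        exact Finset.notMem_erase v _ (h hv)
      · rw [if_neg hv, one_mul]
        have : B ⊆ (unsel l).erase v ↔ B ⊆ unsel l := by
          rw [Finset.subset_erase]
          exact ⟨fun h => h.1, fun h => ⟨h, hv⟩⟩
        simp only [this]
    simp_rw [h1]
    rw [← Finset.sum_mul]
    have h2 : ∑ v : V, (if v ∈ B then (0 : ℝ) else 1) = Fintype.card V - B.card := by
      have : ∀ v : V, (if v ∈ B then (0 : ℝ) else 1) = 1 - (if v ∈ B then 1 else 0) := by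
        intro v; split_ifs <;> norm_num
      simp_rw [this]
      rw [Finset.sum_sub_distrib, Finset.sum_ite_mem, Finset.univ_inter, Finset.sum_const,
        Finset.sum_const, Finset.card_univ]
      simp
    rw [h2, pow_succ]
    field_simp

/-- the fraction of vertices which are not updated -/
noncomputable def th (V : Type) [Fintype V] (t : ℕ) : ℝ := (1 - 1 / (Fintype.card V : ℝ)) ^ t

theorem th_nonneg [Nonempty V] (t : ℕ) : 0 ≤ th V t := by
  have hn : (1 : ℝ) ≤ Fintype.card V := by exact_mod_cast Fintype.card_pos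
  unfold th
  apply pow_nonneg
  rw [sub_nonneg, div_le_one (by linarith)]
  exact hn

theorem avg_subset_le [Nonempty V] (t : ℕ) (B : Finset V) :
    avg t (fun l => if B ⊆ unsel l then (1 : ℝ) else 0) ≤ th V t ^ B.card := by
  have hn : (1 : ℝ) ≤ Fintype.card V := by exact_mod_cast Fintype.card_pos
  rw [avg_subset, th, ← pow_mul, mul_comm t, pow_mul]
  have h1 : (B.card : ℝ) ≤ Fintype.card V := by exact_mod_cast Finset.card_le_univ B
  apply pow_le_pow_left₀
  · rw [sub_nonneg, div_le_one (by linarith)]; exact h1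
  · have := one_add_mul_le_pow (a := -(1 / (Fintype.card V : ℝ))) (by
      have : 1 / (Fintype.card V : ℝ) ≤ 1 := by rw [div_le_one (by linarith)]; exact hn
      linarith) B.card
    calc 1 - (B.card : ℝ) / Fintype.card V = 1 + B.card * -(1 / (Fintype.card V : ℝ)) := by ring
      _ ≤ _ := this
      _ = _ := by rw [← sub_eq_add_neg]

/-- generating function bound -/
theorem avg_pow_le [Nonempty V] (t : ℕ) (A : Finset V) {y : ℝ} (hy : 1 ≤ y) :
    avg t (fun l => y ^ (A ∩ unsel l).card) ≤ (1 + (y - 1) * th V t) ^ A.card := by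
  have h1 : ∀ l : List V, y ^ (A ∩ unsel l).card =
      ∑ B ∈ A.powerset, (y - 1) ^ B.card * (if B ⊆ unsel l then (1 : ℝ) else 0) := by
    intro l
    have : ∀ B ∈ A.powerset, (y - 1) ^ B.card * (if B ⊆ unsel l then (1 : ℝ) else 0) =
        if B ∈ (A ∩ unsel l).powerset then (y - 1) ^ B.card else 0 := by
      intro B hB
      rw [Finset.mem_powerset] at hB
      by_cases h : B ⊆ unsel l
      · rw [if_pos h, if_pos (Finset.mem_powerset.mpr (Finset.subset_inter hB h)), mul_one]
      · rw [if_neg h, if_neg, mul_zero]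
        intro h'
        exact h ((Finset.mem_powerset.mp h').trans Finset.inter_subset_right)
    rw [Finset.sum_congr rfl this, ← Finset.sum_filter, Finset.filter_mem_eq_inter,
      Finset.inter_eq_right.mpr (Finset.powerset_mono.mpr Finset.inter_subset_left)]
    have h3 := Finset.prod_one_add (f := fun _ : V => y - 1) (A ∩ unsel l)
    rw [Finset.prod_const] at h3
    simp only [Finset.prod_const] at h3
    rw [← h3]
    congr 1
    ring
  simp_rw [h1]
  rw [avg_sum]
  have h2 : ∀ B ∈ A.powerset,
      avg t (fun l => (y - 1) ^ B.card * (if B ⊆ unsel l then (1 : ℝ) else 0)) ≤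
        ((y - 1) * th V t) ^ B.card := by
    intro B _
    rw [avg_mul, mul_pow]
    have := avg_subset_le (V := V) t B
    have h0 : 0 ≤ y - 1 := by linarith
    gcongr
  refine (Finset.sum_le_sum h2).trans (le_of_eq ?_)
  have h3 := Finset.prod_one_add (f := fun _ : V => (y - 1) * th V t) A
  simp only [Finset.prod_const] at h3
  exact h3.symm

/-- the mean number of vertices not updated -/
theorem avg_card [Nonempty V] (t : ℕ) :
    avg t (fun l : List V => ((unsel l).card : ℝ)) = Fintype.card V * th V t := by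
  have h1 : ∀ l : List V, ((unsel l).card : ℝ) =
      ∑ v : V, (if {v} ⊆ unsel l then (1 : ℝ) else 0) := by
    intro l
    simp only [Finset.singleton_subset_iff]
    rw [Finset.sum_ite_mem, Finset.univ_inter, Finset.sum_const, nsmul_eq_mul, mul_one]
  simp_rw [h1]
  rw [avg_sum]
  simp_rw [avg_subset, Finset.card_singleton]
  rw [Finset.sum_const, Finset.card_univ, nsmul_eq_mul]
  simp [th]

theorem avg_card_sq [Nonempty V] (t : ℕ) :
    avg t (fun l : List V => ((unsel l).card : ℝ) ^ 2) ≤
      Fintype.card V * th V t + (Fintype.card V * th V t) ^ 2 := by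
  have h1 : ∀ l : List V, ((unsel l).card : ℝ) ^ 2 =
      ∑ v : V, ∑ w : V, (if {v, w} ⊆ unsel l then (1 : ℝ) else 0) := by
    intro l
    have h0 : ((unsel l).card : ℝ) = ∑ v : V, (if v ∈ unsel l then (1 : ℝ) else 0) := by
      rw [Finset.sum_ite_mem, Finset.univ_inter, Finset.sum_const, nsmul_eq_mul, mul_one]
    rw [sq, h0, Finset.sum_mul_sum]
    refine Finset.sum_congr rfl fun v _ => Finset.sum_congr rfl fun w _ => ?_
    simp only [Finset.insert_subset_iff, Finset.singleton_subset_iff]
    by_cases hv : v ∈ unsel l <;> by_cases hw : w ∈ unsel l <;> simp [hv, hw]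
  simp_rw [h1]
  rw [avg_sum]
  simp_rw [avg_sum]
  have h2 : ∀ v w : V, avg t (fun l : List V => if {v, w} ⊆ unsel l then (1 : ℝ) else 0) ≤
      (if v = w then th V t else 0) + th V t ^ 2 := by
    intro v w
    refine (avg_subset_le t _).trans ?_
    by_cases h : v = w
    · subst h
      rw [if_pos rfl]
      have h0 := th_nonneg (V := V) t
      simp
      positivity
    · rw [if_neg h, zero_add, Finset.card_pair h]
  calc ∑ v : V, ∑ w : V, avg t (fun l : List V => if {v, w} ⊆ unsel l then (1 : ℝ) else 0)
      ≤ ∑ v : V, ∑ w : V, ((if v = w then th V t else 0) + th V t ^ 2) :=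
        Finset.sum_le_sum fun v _ => Finset.sum_le_sum fun w _ => h2 v w
    _ = _ := by
      simp only [Finset.sum_add_distrib, Finset.sum_ite_eq, Finset.mem_univ, if_true,
        Finset.sum_const, Finset.card_univ, nsmul_eq_mul]
      ring

/-- second moment: some vertex is not updated, with probability at least `1 - 1/λ` -/
theorem avg_nonempty [Nonempty V] (t : ℕ) (hpos : 0 < Fintype.card V * th V t) :
    1 - 1 / (Fintype.card V * th V t) ≤
      avg t (fun l : List V => if (unsel l).Nonempty then (1 : ℝ) else 0) := by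
  set m : ℝ := Fintype.card V * th V t with hm
  have h1 : ∀ l : List V, 1 - (((unsel l).card : ℝ) / m - 1) ^ 2 ≤
      (if (unsel l).Nonempty then (1 : ℝ) else 0) := by
    intro l
    split_ifs with h
    · nlinarith [sq_nonneg (((unsel l).card : ℝ) / m - 1)]
    · rw [Finset.not_nonempty_iff_eq_empty] at h
      rw [h]; simp
  refine le_trans ?_ (avg_mono t h1)
  have h2 : ∀ l : List V, 1 - (((unsel l).card : ℝ) / m - 1) ^ 2 =
      (2 / m) * ((unsel l).card : ℝ) - (1 / m ^ 2) * ((unsel l).card : ℝ) ^ 2 := by
    intro l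
    field_simp
    ring
  simp_rw [h2]
  rw [avg_sub, avg_mul, avg_mul, avg_card, ← hm]
  have h3 := avg_card_sq (V := V) t
  rw [← hm] at h3
  have h4 : (1 / m ^ 2) * avg t (fun l : List V => ((unsel l).card : ℝ) ^ 2) ≤
      (1 / m ^ 2) * (m + m ^ 2) := by gcongr
  have h5 : (1 / m ^ 2) * (m + m ^ 2) = 1 / m + 1 := by field_simp
  have h6 : 2 / m * m = 2 := by field_simp
  rw [h6]
  linarith

end Pool.Agent.H984R2.Col
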