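import Mathlib

set_option autoImplicit false

/-! Glauber dynamics for proper colourings: the definitions. -/

namespace Pool.Agent.H984R2.Col

open Finset

/-- `σ` is a proper colouring of `G`. -/
def IsProper {V : Type} (G : SimpleGraph V) {q : ℕ} (σ : V → Fin q) : Prop :=
  ∀ u w, G.Adj u w → σ u ≠ σ w

/-- The set `Ω_q` of proper `q`-colourings of `G`. -/
abbrev PCol {V : Type} (G : SimpleGraph V) (q : ℕ) : Type := {σ : V → Fin q // IsProper G σ}

variable {V : Type} [Fintype V] [DecidableEq V]

noncomputable instance (G : SimpleGraph V) (q : ℕ) : Fintype (PCol G q) := Fintype.ofFinite _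

open Classical in
/-- Recolour the vertex `v` with the colour `c` if this gives a proper colouring; otherwise leave
the colouring as it is. -/
noncomputable def recolour (G : SimpleGraph V) (q : ℕ) (v : V) (c : Fin q) (σ : PCol G q) :
    PCol G q :=
  if h : IsProper G (Function.update σ.1 v c) then ⟨Function.update σ.1 v c, h⟩ else σ

open Classical in
/-- The transition matrix of Glauber dynamics: a uniformly random vertex `v` is recoloured with a
uniformly random colour `c` (if that gives a proper colouring). -/
noncomputable def P (G : SimpleGraph V) (q : ℕ) : Matrix (PCol G q) (PCol G q) ℝ :=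
  Matrix.of fun σ τ =>
    ((Finset.univ.filter fun p : V × Fin q => recolour G q p.1 p.2 σ = τ).card : ℝ) /
      ((Fintype.card V : ℝ) * (q : ℝ))

/-- The uniform distribution on `Ω_q`. -/
noncomputable def unif (G : SimpleGraph V) (q : ℕ) : PCol G q → ℝ :=
  fun _ => 1 / (Fintype.card (PCol G q) : ℝ)

/-- Total variation distance: the largest value of `|μ(A) - ν(A)|` over all sets `A`. -/
noncomputable def tvDist {Ω : Type} [Fintype Ω] (μ ν : Ω → ℝ) : ℝ :=
  ⨆ A : Finset Ω, |∑ a ∈ A, μ a - ∑ a ∈ A, ν a|

/-- The mixing time `t_G(q)`: the least `t` such that `‖P^t(σ, ·) - π_q‖ ≤ 1/e` for every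
`σ ∈ Ω_q`. -/
noncomputable def tmix (G : SimpleGraph V) (q : ℕ) : ℕ :=
  sInf {t : ℕ | ∀ σ : PCol G q, tvDist ((P G q ^ t) σ) (unif G q) ≤ 1 / Real.exp 1}

end Pool.Agent.H984R2.Col
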