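import Mathlib
import Pool.Agent.H984R2.ColA
import Pool.Agent.H984R2.ColDefs

set_option autoImplicit false
set_option linter.unusedSectionVars false

/-! The dynamics acting on functions, and the coupling bound. -/

namespace Pool.Agent.H984R2.Col

open Finset

/-! ### generic random maps -/

section Generic

variable {V X : Type} {q : ℕ}

/-- one update at `v` acting on functions -/
noncomputable def T (f : V → Fin q → X → X) (v : V) (φ : X → ℝ) : X → ℝ :=
  fun x => (∑ c : Fin q, φ (f v c x)) / (q : ℝ)

/-- updates along a list (most recent first) acting on functions -/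
noncomputable def act (f : V → Fin q → X → X) : List V → (X → ℝ) → X → ℝ
  | [], φ => φ
  | (v :: l), φ => act f l (T f v φ)

theorem T_mono (f : V → Fin q → X → X) (v : V) {φ ψ : X → ℝ} (h : ∀ x, φ x ≤ ψ x) (x : X) :
    T f v φ x ≤ T f v ψ x := by
  unfold T
  gcongr with c _
  exact h _

theorem act_mono (f : V → Fin q → X → X) (l : List V) :
    ∀ {φ ψ : X → ℝ}, (∀ x, φ x ≤ ψ x) → ∀ x, act f l φ x ≤ act f l ψ x := by
  induction l with
  | nil => intro φ ψ h x; exact h x
  | cons v l ih => intro φ ψ h x; exact ih (T_mono f v h) x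

theorem T_add (f : V → Fin q → X → X) (v : V) (φ ψ : X → ℝ) :
    T f v (fun x => φ x + ψ x) = fun x => T f v φ x + T f v ψ x := by
  funext x
  unfold T
  rw [Finset.sum_add_distrib, add_div]

theorem T_mul (f : V → Fin q → X → X) (v : V) (k : ℝ) (φ : X → ℝ) :
    T f v (fun x => k * φ x) = fun x => k * T f v φ x := by
  funext x
  unfold T
  rw [← Finset.mul_sum, mul_div_assoc]

theorem act_add (f : V → Fin q → X → X) (l : List V) :
    ∀ φ ψ : X → ℝ, act f l (fun x => φ x + ψ x) = fun x => act f l φ x + act f l ψ x := by
  induction l with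
  | nil => intro φ ψ; rfl
  | cons v l ih =>
    intro φ ψ
    change act f l (T f v fun x => φ x + ψ x) = fun x => act f l (T f v φ) x + act f l (T f v ψ) x
    rw [T_add, ih]

theorem act_mul (f : V → Fin q → X → X) (l : List V) (k : ℝ) :
    ∀ φ : X → ℝ, act f l (fun x => k * φ x) = fun x => k * act f l φ x := by
  induction l with
  | nil => intro φ; rfl
  | cons v l ih =>
    intro φ
    change act f l (T f v fun x => k * φ x) = fun x => k * act f l (T f v φ) x
    rw [T_mul, ih]

theorem act_neg (f : V → Fin q → X → X) (l : List V) (φ : X → ℝ) (x : X) :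
    act f l (fun x => -φ x) x = -act f l φ x := by
  have := congrFun (act_mul f l (-1) φ) x
  simp only [neg_one_mul] at this
  exact this

theorem act_sub (f : V → Fin q → X → X) (l : List V) (φ ψ : X → ℝ) (x : X) :
    act f l (fun x => φ x - ψ x) x = act f l φ x - act f l ψ x := by
  have h1 : (fun x => φ x - ψ x) = fun x => φ x + (fun y => -ψ y) x := by
    funext x; ring
  rw [h1, act_add f l φ (fun y => -ψ y)]
  simp only [act_neg]
  ring

theorem act_sum (f : V → Fin q → X → X) (l : List V) {ι : Type} (s : Finset ι)
    (φ : ι → X → ℝ) (x : X) :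
    act f l (fun x => ∑ i ∈ s, φ i x) x = ∑ i ∈ s, act f l (φ i) x := by
  classical
  induction s using Finset.induction_on with
  | empty =>
    have h := congrFun (act_mul f l 0 (fun _ => 0)) x
    simpa using h
  | insert a s ha ih =>
    have h : (fun x => ∑ i ∈ insert a s, φ i x) =
        fun x => φ a x + (fun y => ∑ i ∈ s, φ i y) x := by
      funext x; rw [Finset.sum_insert ha]
    rw [h, act_add, Finset.sum_insert ha]
    simp only
    rw [ih]

theorem T_const (hq : 0 < q) (f : V → Fin q → X → X) (v : V) (k : ℝ) :
    T f v (fun _ => k) = fun _ => k := by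
  funext x
  unfold T
  rw [Finset.sum_const, Finset.card_univ, Fintype.card_fin, nsmul_eq_mul]
  have : (0 : ℝ) < q := by exact_mod_cast hq
  field_simp

theorem act_const (hq : 0 < q) (f : V → Fin q → X → X) (l : List V) (k : ℝ) :
    act f l (fun _ => k) = fun _ => k := by
  induction l with
  | nil => rfl
  | cons v l ih =>
    change act f l (T f v fun _ => k) = _
    rw [T_const hq, ih]

theorem act_abs (f : V → Fin q → X → X) (l : List V) (φ : X → ℝ) (x : X) :
    |act f l φ x| ≤ act f l (fun y => |φ y|) x := by
  rw [abs_le]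
  constructor
  · rw [← act_neg]
    exact act_mono f l (fun y => neg_abs_le _) x
  · exact act_mono f l (fun y => le_abs_self _) x

/-- functions which are invariant under the updates of the list are preserved -/
theorem act_inv (hq : 0 < q) (f : V → Fin q → X → X) (l : List V) (φ : X → ℝ)
    (h : ∀ v ∈ l, ∀ c x, φ (f v c x) = φ x) : act f l φ = φ := by
  induction l with
  | nil => rfl
  | cons v l ih =>
    change act f l (T f v φ) = _
    have : T f v φ = φ := by
      funext x
      unfold T
      simp_rw [h v (List.mem_cons_self) _ x]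
      rw [Finset.sum_const, Finset.card_univ, Fintype.card_fin, nsmul_eq_mul]
      have : (0 : ℝ) < q := by exact_mod_cast hq
      field_simp
    rw [this]
    exact ih fun w hw => h w (List.mem_cons_of_mem _ hw)

/-- intertwining -/
theorem act_comp {Y : Type} (f : V → Fin q → X → X) (g : V → Fin q → Y → Y) (p : Y → X)
    (h : ∀ v c y, p (g v c y) = f v c (p y)) (l : List V) :
    ∀ φ : X → ℝ, act g l (fun y => φ (p y)) = fun y => act f l φ (p y) := by
  induction l with
  | nil => intro φ; rfl
  | cons v l ih =>
    intro φ
    change act g l (T g v fun y => φ (p y)) = fun y => act f l (T f v φ) (p y)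
    rw [← ih]
    congr 1
    funext y
    unfold T
    simp_rw [h]

end Generic

/-! ### colourings -/

variable {V : Type} [Fintype V] [DecidableEq V] {G : SimpleGraph V} {q : ℕ}

theorem recolour_ne (v : V) (c : Fin q) (σ : PCol G q) {w : V} (h : w ≠ v) :
    (recolour G q v c σ).1 w = σ.1 w := by
  unfold recolour
  split_ifs
  · exact Function.update_of_ne h _ _
  · rfl

theorem isProper_update (v : V) (c : Fin q) (σ : PCol G q) :
    IsProper G (Function.update σ.1 v c) ↔ ∀ u, G.Adj v u → σ.1 u ≠ c := by
  constructor
  · intro h u hu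
    have := h v u hu
    rw [Function.update_self, Function.update_of_ne hu.ne'] at this
    exact this.symm
  · intro h u w huw
    by_cases hu : u = v
    · subst hu
      rw [Function.update_self, Function.update_of_ne huw.ne']
      exact (h w huw).symm
    · rw [Function.update_of_ne hu]
      by_cases hw : w = v
      · subst hw
        rw [Function.update_self]
        exact h u huw.symm
      · rw [Function.update_of_ne hw]
        exact σ.2 u w huw

theorem recolour_acc (v : V) (c : Fin q) (σ : PCol G q) (h : ∀ u, G.Adj v u → σ.1 u ≠ c) :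
    (recolour G q v c σ).1 v = c := by
  unfold recolour
  rw [dif_pos ((isProper_update v c σ).mpr h)]
  exact Function.update_self _ _ _

theorem recolour_rej (v : V) (c : Fin q) (σ : PCol G q) (h : ¬ ∀ u, G.Adj v u → σ.1 u ≠ c) :
    recolour G q v c σ = σ := by
  unfold recolour
  rw [dif_neg (fun h' => h ((isProper_update v c σ).mp h'))]

/-- `P^t φ` as an average over vertex sequences -/
theorem pow_apply (t : ℕ) : ∀ (φ : PCol G q → ℝ) (σ : PCol G q),
    ∑ τ, (P G q ^ t) σ τ * φ τ = avg t (fun l => act (recolour G q) l φ σ) := by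
  classical
  induction t with
  | zero =>
    intro φ σ
    rw [pow_zero]
    change _ = φ σ
    simp [Matrix.one_apply]
  | succ t ih =>
    intro φ σ
    rw [pow_succ, avg_succ]
    have h1 : ∑ τ, (P G q ^ t * P G q) σ τ * φ τ =
        ∑ ρ, (P G q ^ t) σ ρ * ∑ τ, P G q ρ τ * φ τ := by
      simp_rw [Matrix.mul_apply, Finset.sum_mul, Finset.mul_sum]
      rw [Finset.sum_comm]
      refine Finset.sum_congr rfl fun ρ _ => Finset.sum_congr rfl fun τ _ => ?_
      ring
    have h2 : ∀ ρ, ∑ τ, P G q ρ τ * φ τ =
        (∑ v : V, T (recolour G q) v φ ρ) / (Fintype.card V : ℝ) := by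
      intro ρ
      have h3 : ∀ τ, P G q ρ τ * φ τ = (∑ p : V × Fin q,
          if recolour G q p.1 p.2 ρ = τ then φ (recolour G q p.1 p.2 ρ) else 0) /
            ((Fintype.card V : ℝ) * (q : ℝ)) := by
        intro τ
        unfold P
        rw [Matrix.of_apply, Finset.card_filter]
        push_cast
        rw [div_mul_eq_mul_div, Finset.sum_mul]
        congr 1
        refine Finset.sum_congr rfl fun p _ => ?_
        split_ifs with h
        · rw [h, one_mul]
        · rw [zero_mul]
      simp_rw [h3]
      rw [← Finset.sum_div, Finset.sum_comm]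
      simp only [Finset.sum_ite_eq, Finset.mem_univ, if_true]
      rw [Fintype.sum_prod_type]
      unfold T
      rw [← Finset.sum_div, div_div, mul_comm (q : ℝ)]
    rw [h1]
    simp_rw [h2]
    rw [show (∑ ρ, (P G q ^ t) σ ρ * ((∑ v : V, T (recolour G q) v φ ρ) / (Fintype.card V : ℝ))) =
      (∑ v : V, ∑ ρ, (P G q ^ t) σ ρ * T (recolour G q) v φ ρ) / (Fintype.card V : ℝ) from ?_]
    · congr 1
      exact Finset.sum_congr rfl fun v _ => ih _ _
    · rw [Finset.sum_comm, Finset.sum_div]
      refine Finset.sum_congr rfl fun ρ _ => ?_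
      rw [← Finset.mul_sum, mul_div_assoc]

end Pool.Agent.H984R2.Col
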