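import Mathlib
import Pool.Agent.H984R2.ColB

set_option autoImplicit false
set_option linter.unusedSectionVars false

/-! The coupling bound. -/

namespace Pool.Agent.H984R2.Col

open Finset

variable {V : Type} [Fintype V] [DecidableEq V] {G : SimpleGraph V} {q : ℕ}

open Classical in
/-- neighbours -/
noncomputable def nb (G : SimpleGraph V) (v : V) : Finset V := Finset.univ.filter fun u => G.Adj v u

theorem mem_nb {v u : V} : u ∈ nb G v ↔ G.Adj v u := by simp [nb]

/-- both copies use the same vertex and the same colour -/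
noncomputable def pairMap (G : SimpleGraph V) (q : ℕ) (v : V) (c : Fin q)
    (p : PCol G q × PCol G q) : PCol G q × PCol G q :=
  (recolour G q v c p.1, recolour G q v c p.2)

/-- disagreement at `w` -/
noncomputable def dis (w : V) (p : PCol G q × PCol G q) : ℝ := if p.1.1 w = p.2.1 w then 0 else 1

theorem dis_nonneg (w : V) (p : PCol G q × PCol G q) : 0 ≤ dis w p := by
  unfold dis; split_ifs <;> norm_num

theorem dis_le_one (w : V) (p : PCol G q × PCol G q) : dis w p ≤ 1 := by
  unfold dis; split_ifs <;> norm_num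

theorem dis_pair (v : V) (c : Fin q) (p : PCol G q × PCol G q) :
    dis v (pairMap G q v c p) ≤
      ∑ u ∈ nb G v, ((if p.1.1 u = c then 1 else 0) + (if p.2.1 u = c then 1 else 0)) * dis u p +
        (∑ u ∈ nb G v, (if p.1.1 u = c then (1 : ℝ) else 0)) * dis v p := by
  have hnn : ∀ u ∈ nb G v,
      0 ≤ ((if p.1.1 u = c then (1 : ℝ) else 0) + (if p.2.1 u = c then 1 else 0)) * dis u p :=
    fun u _ => mul_nonneg (by split_ifs <;> norm_num) (dis_nonneg u p)
  have hnn2 : ∀ u ∈ nb G v, (0 : ℝ) ≤ (if p.1.1 u = c then (1 : ℝ) else 0) :=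
    fun u _ => by split_ifs <;> norm_num
  have hA := Finset.sum_nonneg hnn
  have hB := Finset.sum_nonneg hnn2
  have hC := mul_nonneg hB (dis_nonneg v p)
  have hbig : ∀ u ∈ nb G v, (p.1.1 u = c ∨ p.2.1 u = c) → p.1.1 u ≠ p.2.1 u →
      (1 : ℝ) ≤ ∑ u ∈ nb G v,
        ((if p.1.1 u = c then 1 else 0) + (if p.2.1 u = c then 1 else 0)) * dis u p := by
    intro u hu h1 h2
    refine le_trans ?_ (Finset.single_le_sum hnn hu)
    unfold dis
    rw [if_neg h2, mul_one]
    rcases h1 with h1 | h1
    · rw [if_pos h1]; split_ifs <;> norm_num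
    · rw [if_pos h1]; split_ifs <;> norm_num
  by_cases h1 : ∀ u, G.Adj v u → p.1.1 u ≠ c
  · by_cases h2 : ∀ u, G.Adj v u → p.2.1 u ≠ c
    · have : dis v (pairMap G q v c p) = 0 := by
        unfold dis pairMap
        rw [if_pos]
        simp only
        rw [recolour_acc v c p.1 h1, recolour_acc v c p.2 h2]
      rw [this]
      linarith
    · push Not at h2
      obtain ⟨u, hu, h3⟩ := h2
      have := hbig u (mem_nb.mpr hu) (Or.inr h3) (by rw [h3]; exact h1 u hu)
      linarith [dis_le_one v (pairMap G q v c p)]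
  · by_cases h2 : ∀ u, G.Adj v u → p.2.1 u ≠ c
    · push Not at h1
      obtain ⟨u, hu, h3⟩ := h1
      have := hbig u (mem_nb.mpr hu) (Or.inl h3) (by rw [h3]; exact (h2 u hu).symm)
      linarith [dis_le_one v (pairMap G q v c p)]
    · have e1 : dis v (pairMap G q v c p) = dis v p := by
        unfold dis pairMap
        rw [recolour_rej v c p.1 h1, recolour_rej v c p.2 h2]
      rw [e1]
      push Not at h1
      obtain ⟨u, hu, h3⟩ := h1
      have h4 : (1 : ℝ) ≤ ∑ u ∈ nb G v, (if p.1.1 u = c then (1 : ℝ) else 0) := by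
        refine le_trans ?_ (Finset.single_le_sum hnn2 (mem_nb.mpr hu))
        rw [if_pos h3]
      have h5 : 1 * dis v p ≤ (∑ u ∈ nb G v, (if p.1.1 u = c then (1 : ℝ) else 0)) * dis v p :=
        mul_le_mul_of_nonneg_right h4 (dis_nonneg v p)
      linarith

theorem T_dis {D : ℕ} (hD : ∀ v, (nb G v).card ≤ D) (v : V) (p : PCol G q × PCol G q) :
    T (pairMap G q) v (dis v) p ≤ (2 / q) * ∑ u ∈ nb G v, dis u p + (D / q) * dis v p := by
  unfold T
  have h1 := Finset.sum_le_sum fun c (_ : c ∈ (Finset.univ : Finset (Fin q))) => dis_pair v c p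
  rw [Finset.sum_add_distrib] at h1
  have e1 : ∑ c : Fin q, ∑ u ∈ nb G v, ((if p.1.1 u = c then (1 : ℝ) else 0) +
      (if p.2.1 u = c then 1 else 0)) * dis u p = 2 * ∑ u ∈ nb G v, dis u p := by
    rw [Finset.sum_comm, Finset.mul_sum]
    refine Finset.sum_congr rfl fun u _ => ?_
    rw [← Finset.sum_mul, Finset.sum_add_distrib, Finset.sum_ite_eq, Finset.sum_ite_eq,
      if_pos (Finset.mem_univ _), if_pos (Finset.mem_univ _)]
    ring
  have e2 : ∑ c : Fin q, (∑ u ∈ nb G v, (if p.1.1 u = c then (1 : ℝ) else 0)) * dis v p =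
      ((nb G v).card : ℝ) * dis v p := by
    rw [← Finset.sum_mul, Finset.sum_comm]
    congr 1
    have : ∀ u ∈ nb G v, ∑ c : Fin q, (if p.1.1 u = c then (1 : ℝ) else 0) = 1 := by
      intro u _
      rw [Finset.sum_ite_eq, if_pos (Finset.mem_univ _)]
    rw [Finset.sum_congr rfl this, Finset.sum_const, nsmul_eq_mul, mul_one]
  rw [e1, e2] at h1
  have h2 : ((nb G v).card : ℝ) * dis v p ≤ D * dis v p := by
    apply mul_le_mul_of_nonneg_right _ (dis_nonneg v p)
    exact_mod_cast hD v
  calc _ ≤ (2 * ∑ u ∈ nb G v, dis u p + D * dis v p) / (q : ℝ) := by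
        gcongr
        linarith
    _ = _ := by ring

/-- deterministic bound for the disagreement probabilities -/
noncomputable def R (G : SimpleGraph V) (q D : ℕ) : List V → V → ℝ
  | [] => fun _ => 1
  | (v :: l) => fun w => if w = v then (2 / (q : ℝ)) * ∑ u ∈ nb G v, R G q D l u +
      ((D : ℝ) / q) * R G q D l v else R G q D l w

theorem R_cons (D : ℕ) (v : V) (l : List V) (w : V) :
    R G q D (v :: l) w = if w = v then (2 / (q : ℝ)) * ∑ u ∈ nb G v, R G q D l u +
      ((D : ℝ) / q) * R G q D l v else R G q D l w := rfl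

theorem R_nonneg (D : ℕ) (l : List V) : ∀ w, 0 ≤ R G q D l w := by
  induction l with
  | nil => intro w; exact zero_le_one
  | cons v l ih =>
    intro w
    rw [R_cons]
    split_ifs
    · have h1 := Finset.sum_nonneg fun u (_ : u ∈ nb G v) => ih u
      have h2 := ih v
      positivity
    · exact ih w

theorem R_notMem (D : ℕ) (l : List V) : ∀ w, w ∉ l → R G q D l w = 1 := by
  induction l with
  | nil => intro w _; rfl
  | cons v l ih =>
    intro w hw
    rw [List.mem_cons, not_or] at hw
    rw [R_cons, if_neg hw.1]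
    exact ih w hw.2

theorem T_dis_ne (hq : 0 < q) {v w : V} (h : w ≠ v) :
    T (pairMap G q) v (dis w) = dis w := by
  have := act_inv hq (pairMap G q) [v] (dis w) (by
    intro u hu c p
    rw [List.mem_singleton] at hu
    subst hu
    unfold dis pairMap
    simp only
    rw [recolour_ne _ _ _ h, recolour_ne _ _ _ h])
  exact this

theorem coup_le {D : ℕ} (hD : ∀ v, (nb G v).card ≤ D) (hq : 0 < q) (l : List V) :
    ∀ (w : V) (p : PCol G q × PCol G q), act (pairMap G q) l (dis w) p ≤ R G q D l w := by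
  induction l with
  | nil => intro w p; exact dis_le_one w p
  | cons v l ih =>
    intro w p
    change act (pairMap G q) l (T (pairMap G q) v (dis w)) p ≤ _
    rw [R_cons]
    by_cases h : w = v
    · subst h
      rw [if_pos rfl]
      refine (act_mono (pairMap G q) l (T_dis hD w) p).trans ?_
      have h1 : act (pairMap G q) l
          (fun x => 2 / (q : ℝ) * ∑ u ∈ nb G w, dis u x + (D : ℝ) / q * dis w x) p =
          2 / (q : ℝ) * ∑ u ∈ nb G w, act (pairMap G q) l (dis u) p +
            (D : ℝ) / q * act (pairMap G q) l (dis w) p := by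
        rw [act_add (pairMap G q) l (fun x => 2 / (q : ℝ) * ∑ u ∈ nb G w, dis u x)
          (fun x => (D : ℝ) / q * dis w x)]
        simp only
        rw [act_mul (pairMap G q) l _ (fun x => ∑ u ∈ nb G w, dis u x),
          act_mul (pairMap G q) l _ (dis w)]
        simp only
        rw [act_sum]
      rw [h1]
      have h2 := ih w p
      have h3 : ∑ u ∈ nb G w, act (pairMap G q) l (dis u) p ≤ ∑ u ∈ nb G w, R G q D l u :=
        Finset.sum_le_sum fun u _ => ih u p
      gcongr
    · rw [if_neg h, T_dis_ne hq h]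
      exact ih w p

/-- the accumulated error of a sequence of updates -/
noncomputable def err (G : SimpleGraph V) (q D : ℕ) (l : List V) : ℝ :=
  ∑ w, R G q D l w - (unsel l).card

theorem err_eq (D : ℕ) (l : List V) :
    err G q D l = ∑ w ∈ (unsel l)ᶜ, R G q D l w := by
  unfold err
  rw [← Finset.sum_add_sum_compl (unsel l), Finset.sum_congr rfl (fun w hw =>
    R_notMem D l w (mem_unsel.mp hw)), Finset.sum_const, nsmul_eq_mul, mul_one]
  ring

theorem act_diff {D : ℕ} (hD : ∀ v, (nb G v).card ≤ D) (hq : 0 < q) (l : List V)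
    {φ : PCol G q → ℝ} (hφ : ∀ σ τ, |φ σ - φ τ| ≤ 1) (σ τ : PCol G q)
    (h : ∀ w ∈ unsel l, σ.1 w = τ.1 w) :
    |act (recolour G q) l φ σ - act (recolour G q) l φ τ| ≤ err G q D l := by
  have h1 : act (recolour G q) l φ σ - act (recolour G q) l φ τ =
      act (pairMap G q) l (fun p => φ p.1 - φ p.2) (σ, τ) := by
    rw [act_sub, act_comp (recolour G q) (pairMap G q) Prod.fst (fun v c y => rfl) l φ,
      act_comp (recolour G q) (pairMap G q) Prod.snd (fun v c y => rfl) l φ]
  rw [h1]
  refine (act_abs _ l _ _).trans ?_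
  have h2 : ∀ p : PCol G q × PCol G q, |φ p.1 - φ p.2| ≤ ∑ w, dis w p := by
    intro p
    by_cases hp : p.1 = p.2
    · rw [hp, sub_self, abs_zero]
      exact Finset.sum_nonneg fun w _ => dis_nonneg w p
    · refine (hφ _ _).trans ?_
      have : ∃ w, p.1.1 w ≠ p.2.1 w := by
        by_contra hcon
        push Not at hcon
        exact hp (Subtype.ext (funext hcon))
      obtain ⟨w, hw⟩ := this
      refine le_trans ?_ (Finset.single_le_sum (fun w _ => dis_nonneg w p) (Finset.mem_univ w))
      unfold dis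
      rw [if_neg hw]
  refine (act_mono _ l h2 _).trans ?_
  rw [act_sum, err_eq, ← Finset.sum_add_sum_compl (unsel l)]
  have h3 : ∑ w ∈ unsel l, act (pairMap G q) l (dis w) (σ, τ) = 0 := by
    refine Finset.sum_eq_zero fun w hw => ?_
    rw [act_inv hq (pairMap G q) l (dis w)]
    · unfold dis
      rw [if_pos (h w hw)]
    · intro v hv c p
      have hwv : w ≠ v := fun hwv => (mem_unsel.mp hw) (hwv ▸ hv)
      unfold dis pairMap
      simp only
      rw [recolour_ne _ _ _ hwv, recolour_ne _ _ _ hwv]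
  rw [h3, zero_add]
  exact Finset.sum_le_sum fun w _ => coup_le hD hq l w _

/-! ### conditional measures -/

open Classical in
/-- proper colourings agreeing with `x` on `U` -/
noncomputable def cyl (x : PCol G q) (U : Finset V) : Finset (PCol G q) :=
  Finset.univ.filter fun τ => ∀ w ∈ U, τ.1 w = x.1 w

theorem mem_cyl {x τ : PCol G q} {U : Finset V} : τ ∈ cyl x U ↔ ∀ w ∈ U, τ.1 w = x.1 w := by
  simp [cyl]

theorem self_mem_cyl (x : PCol G q) (U : Finset V) : x ∈ cyl x U :=
  mem_cyl.mpr fun _ _ => rfl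

theorem cyl_pos (x : PCol G q) (U : Finset V) : (0 : ℝ) < (cyl x U).card := by
  exact_mod_cast Finset.card_pos.mpr ⟨x, self_mem_cyl x U⟩

/-- mean over the colourings agreeing with `x` on `U` -/
noncomputable def cond (x : PCol G q) (U : Finset V) (φ : PCol G q → ℝ) : ℝ :=
  (∑ τ ∈ cyl x U, φ τ) / (cyl x U).card

theorem recolour_invol (v : V) (c : Fin q) (σ : PCol G q) (h : ∀ u, G.Adj v u → σ.1 u ≠ c) :
    recolour G q v (σ.1 v) (recolour G q v c σ) = σ := by
  apply Subtype.ext
  funext w
  have h2 : ∀ u, G.Adj v u → (recolour G q v c σ).1 u ≠ σ.1 v := by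
    intro u hu
    rw [recolour_ne v c σ hu.ne']
    exact σ.2 u v hu.symm
  by_cases hw : w = v
  · subst hw
    rw [recolour_acc _ _ _ h2]
  · rw [recolour_ne _ _ _ hw, recolour_ne _ _ _ hw]

theorem sum_T (hq : 0 < q) (x : PCol G q) (U : Finset V) {v : V} (hv : v ∉ U)
    (φ : PCol G q → ℝ) :
    ∑ τ ∈ cyl x U, T (recolour G q) v φ τ = ∑ τ ∈ cyl x U, φ τ := by
  classical
  unfold T
  rw [← Finset.sum_div, ← Finset.sum_product' (cyl x U) Finset.univ
    (fun τ c => φ (recolour G q v c τ))]
  have hq' : (0 : ℝ) < q := by exact_mod_cast hq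
  rw [div_eq_iff hq'.ne']
  have h1 : (∑ τ ∈ cyl x U, φ τ) * (q : ℝ) = ∑ p ∈ cyl x U ×ˢ (Finset.univ : Finset (Fin q)),
      φ p.1 := by
    rw [Finset.sum_product, Finset.sum_mul]
    refine Finset.sum_congr rfl fun τ _ => ?_
    simp only
    rw [Finset.sum_const, Finset.card_univ, Fintype.card_fin, nsmul_eq_mul, mul_comm]
  rw [h1]
  have hmem : ∀ (τ : PCol G q) (c : Fin q), recolour G q v c τ ∈ cyl x U ↔ τ ∈ cyl x U := by
    intro τ c
    rw [mem_cyl, mem_cyl]
    refine forall_congr' fun w => forall_congr' fun hw => ?_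
    rw [recolour_ne v c τ (fun h => hv (h ▸ hw))]
  let F : PCol G q × Fin q → PCol G q × Fin q := fun p =>
    if (∀ u, G.Adj v u → p.1.1 u ≠ p.2) then (recolour G q v p.2 p.1, p.1.1 v) else p
  have hF : ∀ p, F (F p) = p := by
    intro p
    by_cases h : ∀ u, G.Adj v u → p.1.1 u ≠ p.2
    · have e1 : F p = (recolour G q v p.2 p.1, p.1.1 v) := if_pos h
      rw [e1]
      have h2 : ∀ u, G.Adj v u → (recolour G q v p.2 p.1).1 u ≠ p.1.1 v := by
        intro u hu
        rw [recolour_ne v p.2 p.1 hu.ne']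
        exact p.1.2 u v hu.symm
      have e2 : F (recolour G q v p.2 p.1, p.1.1 v) =
        (recolour G q v (p.1.1 v) (recolour G q v p.2 p.1), (recolour G q v p.2 p.1).1 v) :=
        if_pos h2
      rw [e2, recolour_invol _ _ _ h, recolour_acc _ _ _ h]
    · have e1 : F p = p := if_neg h
      rw [e1, e1]
  have hFm : ∀ p ∈ cyl x U ×ˢ (Finset.univ : Finset (Fin q)),
      F p ∈ cyl x U ×ˢ (Finset.univ : Finset (Fin q)) := by
    intro p hp
    rw [Finset.mem_product] at hp ⊢
    refine ⟨?_, Finset.mem_univ _⟩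
    by_cases h : ∀ u, G.Adj v u → p.1.1 u ≠ p.2
    · have e1 : F p = (recolour G q v p.2 p.1, p.1.1 v) := if_pos h
      rw [e1]
      exact (hmem _ _).mpr hp.1
    · have e1 : F p = p := if_neg h
      rw [e1]; exact hp.1
  have hFv : ∀ p, φ (recolour G q v p.2 p.1) = φ (F p).1 := by
    intro p
    by_cases h : ∀ u, G.Adj v u → p.1.1 u ≠ p.2
    · have e1 : F p = (recolour G q v p.2 p.1, p.1.1 v) := if_pos h
      rw [e1]
    · have e1 : F p = p := if_neg h
      rw [e1, recolour_rej _ _ _ h]
  exact Finset.sum_nbij' F F hFm hFm (fun p _ => hF p) (fun p _ => hF p) (fun p _ => hFv p)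

theorem sum_act (hq : 0 < q) (x : PCol G q) (U : Finset V) (l : List V)
    (hl : ∀ v ∈ l, v ∉ U) : ∀ φ : PCol G q → ℝ,
    ∑ τ ∈ cyl x U, act (recolour G q) l φ τ = ∑ τ ∈ cyl x U, φ τ := by
  induction l with
  | nil => intro φ; rfl
  | cons v l ih =>
    intro φ
    change ∑ τ ∈ cyl x U, act (recolour G q) l (T (recolour G q) v φ) τ = _
    rw [ih (fun w hw => hl w (List.mem_cons_of_mem _ hw)),
      sum_T hq x U (hl v (List.mem_cons_self))]

theorem act_cond {D : ℕ} (hD : ∀ v, (nb G v).card ≤ D) (hq : 0 < q) (l : List V)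
    {φ : PCol G q → ℝ} (hφ : ∀ σ τ, |φ σ - φ τ| ≤ 1) (x : PCol G q) :
    |act (recolour G q) l φ x - cond x (unsel l) φ| ≤ err G q D l := by
  have hc := cyl_pos x (unsel l)
  have h1 : act (recolour G q) l φ x - cond x (unsel l) φ =
      (∑ τ ∈ cyl x (unsel l), (act (recolour G q) l φ x - act (recolour G q) l φ τ)) /
        (cyl x (unsel l)).card := by
    rw [Finset.sum_sub_distrib, sum_act hq x (unsel l) l
      (fun v hv hU => (mem_unsel.mp hU) hv), Finset.sum_const, nsmul_eq_mul, sub_div,
      mul_div_cancel_left₀ _ hc.ne']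
    rfl
  rw [h1, abs_div, abs_of_pos hc, div_le_iff₀ hc]
  refine (Finset.abs_sum_le_sum_abs _ _).trans ?_
  refine (Finset.sum_le_sum fun τ hτ => act_diff hD hq l hφ x τ fun w hw =>
    ((mem_cyl.mp hτ) w hw).symm).trans ?_
  rw [Finset.sum_const, nsmul_eq_mul, mul_comm]

/-- mean of the recursion -/
theorem avg_R [Nonempty V] {D : ℕ} (hD : ∀ v, (nb G v).card ≤ D) (hq : 0 < q) (t : ℕ) :
    avg t (fun l => ∑ w, R G q D l w) ≤ (Fintype.card V : ℝ) *
      (1 - 1 / (Fintype.card V : ℝ) + 3 * D / ((Fintype.card V : ℝ) * q)) ^ t := by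
  have hn : (1 : ℝ) ≤ Fintype.card V := by exact_mod_cast Fintype.card_pos
  have hq' : (0 : ℝ) < q := by exact_mod_cast hq
  set n : ℝ := (Fintype.card V : ℝ) with hnn
  set κ : ℝ := 1 - 1 / n + 3 * D / (n * q) with hκ
  have hκ0 : 0 ≤ κ := by
    have : 1 / n ≤ 1 := by rw [div_le_one (by linarith)]; exact hn
    have : 0 ≤ 3 * (D : ℝ) / (n * q) := by positivity
    linarith
  induction t with
  | zero =>
    change ∑ w, (1 : ℝ) ≤ _
    simp [hnn]
  | succ t ih =>
    rw [avg_succ]
    have h1 : (∑ v : V, avg t (fun l => ∑ w, R G q D (v :: l) w)) / n =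
        avg t (fun l => (∑ v : V, ∑ w, R G q D (v :: l) w) / n) := by
      rw [avg_div, avg_sum]
    rw [h1]
    have h2 : ∀ l : List V, (∑ v : V, ∑ w, R G q D (v :: l) w) / n ≤
        κ * ∑ w, R G q D l w := by
      intro l
      have h3 : ∀ v : V, ∑ w, R G q D (v :: l) w = ∑ w, R G q D l w - R G q D l v +
          ((2 / (q : ℝ)) * ∑ u ∈ nb G v, R G q D l u + ((D : ℝ) / q) * R G q D l v) := by
        intro v
        rw [← Finset.add_sum_erase _ _ (Finset.mem_univ v),
          ← Finset.add_sum_erase _ (fun w => R G q D l w) (Finset.mem_univ v)]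
        have : ∑ w ∈ Finset.univ.erase v, R G q D (v :: l) w =
            ∑ w ∈ Finset.univ.erase v, R G q D l w :=
          Finset.sum_congr rfl fun w hw => by rw [R_cons, if_neg (Finset.ne_of_mem_erase hw)]
        rw [this, R_cons, if_pos rfl]
        ring
      have h4 : ∑ v : V, ∑ u ∈ nb G v, R G q D l u ≤ D * ∑ w, R G q D l w := by
        have : ∀ v : V, ∑ u ∈ nb G v, R G q D l u =
            ∑ u : V, if u ∈ nb G v then R G q D l u else 0 := by
          intro v
          rw [Finset.sum_ite_mem, Finset.univ_inter]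
        simp_rw [this]
        rw [Finset.sum_comm, Finset.mul_sum]
        refine Finset.sum_le_sum fun u _ => ?_
        have h5 : ∀ v : V, (if u ∈ nb G v then R G q D l u else 0) =
            if v ∈ nb G u then R G q D l u else 0 := by
          intro v
          have h6 : u ∈ nb G v ↔ v ∈ nb G u := by rw [mem_nb, mem_nb, G.adj_comm]
          by_cases h : v ∈ nb G u
          · rw [if_pos h, if_pos (h6.mpr h)]
          · rw [if_neg h, if_neg (fun h' => h (h6.mp h'))]
        simp_rw [h5]
        rw [Finset.sum_ite_mem, Finset.univ_inter, Finset.sum_const, nsmul_eq_mul]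
        apply mul_le_mul_of_nonneg_right _ (R_nonneg D l u)
        exact_mod_cast hD u
      have h0 := Finset.sum_nonneg fun w (_ : w ∈ (Finset.univ : Finset V)) =>
        R_nonneg (G := G) (q := q) D l w
      rw [div_le_iff₀ (by linarith)]
      simp_rw [h3]
      rw [Finset.sum_add_distrib, Finset.sum_sub_distrib, Finset.sum_add_distrib,
        ← Finset.mul_sum, ← Finset.mul_sum, Finset.sum_const, Finset.card_univ, nsmul_eq_mul]
      have h6 : (2 / (q : ℝ)) * ∑ v : V, ∑ u ∈ nb G v, R G q D l u ≤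
          (2 / (q : ℝ)) * (D * ∑ w, R G q D l w) := by gcongr
      have h7 : κ * (∑ w, R G q D l w) * n =
          n * (∑ w, R G q D l w) - (∑ w, R G q D l w) +
            (3 * D / q) * ∑ w, R G q D l w := by
        rw [hκ]; field_simp
      rw [h7]
      have h8 : (2 / (q : ℝ)) * (D * ∑ w, R G q D l w) + D / q * ∑ w, R G q D l w =
          (3 * D / q) * ∑ w, R G q D l w := by ring
      linarith
    refine (avg_mono t h2).trans ?_
    rw [avg_mul, pow_succ]
    calc κ * avg t (fun l => ∑ w, R G q D l w) ≤ κ * (n * κ ^ t) := by gcongr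
      _ = _ := by ring

end Pool.Agent.H984R2.Col
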