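import Mathlib
import Pool.Agent.H984R2.ColC

set_option autoImplicit false
set_option linter.unusedSectionVars false

/-! Cylinder counts and the second-moment (chi-square) bound. -/

namespace Pool.Agent.H984R2.Col

open Finset

variable {V : Type} [Fintype V] [DecidableEq V] {G : SimpleGraph V} {q : ℕ}

open Classical in
/-- colours available at `v` -/
noncomputable def avail (v : V) (τ : PCol G q) : Finset (Fin q) :=
  Finset.univ.filter fun c => ∀ u, G.Adj v u → τ.1 u ≠ c

theorem mem_avail {v : V} {τ : PCol G q} {c : Fin q} :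
    c ∈ avail v τ ↔ ∀ u, G.Adj v u → τ.1 u ≠ c := by simp [avail]

theorem avail_card {D : ℕ} (hD : ∀ v, (nb G v).card ≤ D) (v : V) (τ : PCol G q) :
    (q : ℝ) - D ≤ (avail v τ).card := by
  have h1 : (avail v τ)ᶜ ⊆ (nb G v).image τ.1 := by
    intro c hc
    rw [Finset.mem_compl, mem_avail] at hc
    push Not at hc
    obtain ⟨u, hu, h⟩ := hc
    exact Finset.mem_image.mpr ⟨u, mem_nb.mpr hu, h⟩
  have h2 := (Finset.card_le_card h1).trans (Finset.card_image_le.trans (hD v))
  have h3 := Finset.card_add_card_compl (avail v τ)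
  rw [Fintype.card_fin] at h3
  have h4 : (q : ℝ) = (avail v τ).card + ((avail v τ)ᶜ.card : ℝ) := by exact_mod_cast h3.symm
  have h5 : ((avail v τ)ᶜ.card : ℝ) ≤ D := by exact_mod_cast h2
  linarith

theorem avail_card_le (v : V) (τ : PCol G q) : ((avail v τ).card : ℝ) ≤ q := by
  have := Finset.card_le_univ (avail v τ)
  rw [Fintype.card_fin] at this
  exact_mod_cast this

/-- indicator that `τ v = c` -/
noncomputable def ic (v : V) (c : Fin q) (τ : PCol G q) : ℝ := if τ.1 v = c then 1 else 0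

theorem ic_nonneg (v : V) (c : Fin q) (τ : PCol G q) : 0 ≤ ic v c τ := by
  unfold ic; split_ifs <;> norm_num

theorem T_ic (hq : 0 < q) (v : V) (c : Fin q) (τ : PCol G q) :
    T (recolour G q) v (ic v c) τ = ((if c ∈ avail v τ then 1 else 0) +
      ((q : ℝ) - (avail v τ).card) * ic v c τ) / q := by
  unfold T
  congr 1
  rw [← Finset.sum_add_sum_compl (avail v τ)]
  congr 1
  · have : ∀ d ∈ avail v τ, ic v c (recolour G q v d τ) = if d = c then (1 : ℝ) else 0 := by
      intro d hd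
      unfold ic
      rw [recolour_acc v d τ (mem_avail.mp hd)]
    rw [Finset.sum_congr rfl this, Finset.sum_ite_eq']
  · have : ∀ d ∈ (avail v τ)ᶜ, ic v c (recolour G q v d τ) = ic v c τ := by
      intro d hd
      rw [Finset.mem_compl, mem_avail] at hd
      rw [recolour_rej v d τ hd]
    rw [Finset.sum_congr rfl this, Finset.sum_const, nsmul_eq_mul]
    congr 1
    have h3 := Finset.card_add_card_compl (avail v τ)
    rw [Fintype.card_fin] at h3
    have h4 : (q : ℝ) = (avail v τ).card + ((avail v τ)ᶜ.card : ℝ) := by exact_mod_cast h3.symm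
    linarith

/-- the key identity -/
theorem avail_sum (hq : 0 < q) (x : PCol G q) (U : Finset V) {v : V} (hv : v ∉ U) (c : Fin q) :
    ∑ τ ∈ cyl x U, ((avail v τ).card : ℝ) * ic v c τ =
      ∑ τ ∈ cyl x U, (if c ∈ avail v τ then (1 : ℝ) else 0) := by
  have hq' : (0 : ℝ) < q := by exact_mod_cast hq
  have h := sum_T hq x U hv (ic v c)
  simp_rw [T_ic hq] at h
  rw [← Finset.sum_div, Finset.sum_add_distrib, div_eq_iff hq'.ne'] at h
  have h2 : ∑ τ ∈ cyl x U, ((q : ℝ) - (avail v τ).card) * ic v c τ =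
      (∑ τ ∈ cyl x U, ic v c τ) * q - ∑ τ ∈ cyl x U, ((avail v τ).card : ℝ) * ic v c τ := by
    rw [Finset.sum_mul, ← Finset.sum_sub_distrib]
    exact Finset.sum_congr rfl fun τ _ => by ring
  rw [h2] at h
  linarith

theorem ic_upper {D : ℕ} (hD : ∀ v, (nb G v).card ≤ D) (hq : 0 < q) (x : PCol G q)
    (U : Finset V) {v : V} (hv : v ∉ U) (c : Fin q) :
    ((q : ℝ) - D) * ∑ τ ∈ cyl x U, ic v c τ ≤ (cyl x U).card := by
  rw [Finset.mul_sum]
  calc ∑ τ ∈ cyl x U, ((q : ℝ) - D) * ic v c τ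
      ≤ ∑ τ ∈ cyl x U, ((avail v τ).card : ℝ) * ic v c τ :=
        Finset.sum_le_sum fun τ _ => mul_le_mul_of_nonneg_right (avail_card hD v τ)
          (ic_nonneg v c τ)
    _ = ∑ τ ∈ cyl x U, (if c ∈ avail v τ then (1 : ℝ) else 0) := avail_sum hq x U hv c
    _ ≤ ∑ _τ ∈ cyl x U, (1 : ℝ) := Finset.sum_le_sum fun τ _ => by split_ifs <;> norm_num
    _ = _ := by rw [Finset.sum_const, nsmul_eq_mul, mul_one]

theorem cyl_insert (x : PCol G q) (U : Finset V) (v : V) :
    ((cyl x (insert v U)).card : ℝ) = ∑ τ ∈ cyl x U, ic v (x.1 v) τ := by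
  classical
  have h : cyl x (insert v U) = (cyl x U).filter fun τ => τ.1 v = x.1 v := by
    ext τ
    rw [Finset.mem_filter, mem_cyl, mem_cyl]
    constructor
    · intro h
      exact ⟨fun w hw => h w (Finset.mem_insert_of_mem hw), h v (Finset.mem_insert_self _ _)⟩
    · rintro ⟨h1, h2⟩ w hw
      rcases Finset.mem_insert.mp hw with rfl | hw
      · exact h2
      · exact h1 w hw
  rw [h, Finset.card_filter]
  push_cast
  rfl

theorem step_upper {D : ℕ} (hD : ∀ v, (nb G v).card ≤ D) (hq : 0 < q) (x : PCol G q)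
    (U : Finset V) {v : V} (hv : v ∉ U) :
    ((q : ℝ) - D) * (cyl x (insert v U)).card ≤ (cyl x U).card := by
  rw [cyl_insert]
  exact ic_upper hD hq x U hv _

theorem step_lower {D : ℕ} (hD : ∀ v, (nb G v).card ≤ D) (hq : 0 < q) (hDq : (D : ℝ) < q)
    (x : PCol G q) (U : Finset V) {v : V} (hv : v ∉ U) :
    ((q : ℝ) - 2 * D) * (cyl x U).card ≤ (q * ((q : ℝ) - D)) * (cyl x (insert v U)).card := by
  have h1 : ∑ τ ∈ cyl x U, (if x.1 v ∈ avail v τ then (1 : ℝ) else 0) ≤
      q * (cyl x (insert v U)).card := by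
    rw [cyl_insert, ← avail_sum hq x U hv, Finset.mul_sum]
    exact Finset.sum_le_sum fun τ _ => mul_le_mul_of_nonneg_right (avail_card_le v τ)
      (ic_nonneg v _ τ)
  have h2 : ∀ τ : PCol G q, 1 - ∑ u ∈ nb G v, ic u (x.1 v) τ ≤
      (if x.1 v ∈ avail v τ then (1 : ℝ) else 0) := by
    intro τ
    have hnn := Finset.sum_nonneg fun u (_ : u ∈ nb G v) => ic_nonneg u (x.1 v) τ
    split_ifs with h
    · linarith
    · rw [mem_avail] at h
      push Not at h
      obtain ⟨u, hu, h⟩ := h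
      have := Finset.single_le_sum (f := fun u => ic u (x.1 v) τ)
        (fun u _ => ic_nonneg u (x.1 v) τ) (mem_nb.mpr hu)
      simp only [ic, if_pos h] at this
      unfold ic
      linarith
  have h3 : ((q : ℝ) - D) * ∑ τ ∈ cyl x U, ∑ u ∈ nb G v, ic u (x.1 v) τ ≤
      D * (cyl x U).card := by
    rw [Finset.sum_comm, Finset.mul_sum]
    calc ∑ u ∈ nb G v, ((q : ℝ) - D) * ∑ τ ∈ cyl x U, ic u (x.1 v) τ
        ≤ ∑ _u ∈ nb G v, ((cyl x U).card : ℝ) := by
          refine Finset.sum_le_sum fun u hu => ?_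
          by_cases huU : u ∈ U
          · have : ∑ τ ∈ cyl x U, ic u (x.1 v) τ = 0 := by
              refine Finset.sum_eq_zero fun τ hτ => ?_
              unfold ic
              rw [if_neg]
              rw [(mem_cyl.mp hτ) u huU]
              exact (x.2 v u (mem_nb.mp hu)).symm
            rw [this, mul_zero]
            positivity
          · exact ic_upper hD hq x U huU _
      _ = (nb G v).card * ((cyl x U).card : ℝ) := by rw [Finset.sum_const, nsmul_eq_mul]
      _ ≤ _ := by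
          have : ((nb G v).card : ℝ) ≤ D := by exact_mod_cast hD v
          gcongr
  have h4 : ((cyl x U).card : ℝ) - ∑ τ ∈ cyl x U, ∑ u ∈ nb G v, ic u (x.1 v) τ ≤
      q * (cyl x (insert v U)).card := by
    refine le_trans (le_of_eq ?_) ((Finset.sum_le_sum fun τ _ => h2 τ).trans h1)
    rw [Finset.sum_sub_distrib, Finset.sum_const, nsmul_eq_mul, mul_one]
  have h5 : 0 < (q : ℝ) - D := by linarith
  nlinarith [mul_le_mul_of_nonneg_left h4 h5.le]

theorem multi_upper {D : ℕ} (hD : ∀ v, (nb G v).card ≤ D) (hq : 0 < q) (hDq : (D : ℝ) < q)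
    (x : PCol G q) (U W : Finset V) :
    ((q : ℝ) - D) ^ (W \ U).card * (cyl x (U ∪ W)).card ≤ (cyl x U).card := by
  induction W using Finset.induction_on with
  | empty => simp
  | insert w W hw ih =>
    by_cases hU : w ∈ U
    · have e1 : U ∪ insert w W = U ∪ W := by
        rw [Finset.union_insert, Finset.insert_eq_self.mpr (Finset.mem_union_left _ hU)]
      have e2 : insert w W \ U = W \ U := by
        rw [Finset.insert_sdiff_of_mem _ hU]
      rw [e1, e2]
      exact ih
    · have e1 : U ∪ insert w W = insert w (U ∪ W) := Finset.union_insert _ _ _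
      have e2 : (insert w W \ U).card = (W \ U).card + 1 := by
        rw [Finset.insert_sdiff_of_notMem _ hU, Finset.card_insert_of_notMem]
        intro h; exact hw (Finset.mem_sdiff.mp h).1
      rw [e1, e2, pow_succ, mul_assoc]
      refine le_trans ?_ ih
      have h0 : 0 < (q : ℝ) - D := by linarith
      apply mul_le_mul_of_nonneg_left _ (by positivity)
      apply step_upper hD hq
      rw [Finset.mem_union, not_or]
      exact ⟨hU, hw⟩

theorem multi_lower {D : ℕ} (hD : ∀ v, (nb G v).card ≤ D) (hq : 0 < q) (hDq : (D : ℝ) < q)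
    (hDq2 : 2 * (D : ℝ) < q) (x : PCol G q) (W : Finset V) :
    ((q : ℝ) - 2 * D) ^ W.card * Fintype.card (PCol G q) ≤
      (q * ((q : ℝ) - D)) ^ W.card * (cyl x W).card := by
  induction W using Finset.induction_on with
  | empty =>
    have : cyl x ∅ = Finset.univ := by
      ext τ; simp [mem_cyl]
    rw [this]
    simp
  | insert w W hw ih =>
    rw [Finset.card_insert_of_notMem hw, pow_succ, pow_succ]
    have h1 := step_lower hD hq hDq x W hw
    have h0 : 0 < (q : ℝ) - D := by linarith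
    have h2 : 0 < (q : ℝ) - 2 * D := by linarith
    have hq' : (0 : ℝ) < q := by exact_mod_cast hq
    calc ((q : ℝ) - 2 * D) ^ W.card * ((q : ℝ) - 2 * D) * Fintype.card (PCol G q)
        = ((q : ℝ) - 2 * D) * (((q : ℝ) - 2 * D) ^ W.card * Fintype.card (PCol G q)) := by ring
      _ ≤ ((q : ℝ) - 2 * D) * ((q * ((q : ℝ) - D)) ^ W.card * (cyl x W).card) := by gcongr
      _ = (q * ((q : ℝ) - D)) ^ W.card * (((q : ℝ) - 2 * D) * (cyl x W).card) := by ring
      _ ≤ (q * ((q : ℝ) - D)) ^ W.card * ((q * ((q : ℝ) - D)) * (cyl x (insert w W)).card) := by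
          gcongr
      _ = _ := by ring

/-- the overlap bound -/
theorem overlap {D : ℕ} (hD : ∀ v, (nb G v).card ≤ D) (hq : 0 < q) (hDq2 : 2 * (D : ℝ) < q)
    (x : PCol G q) (U W : Finset V) :
    (Fintype.card (PCol G q) : ℝ) * (cyl x (U ∪ W)).card / ((cyl x U).card * (cyl x W).card) ≤
      ((q : ℝ) / (q - 2 * D)) ^ W.card * (q : ℝ) ^ (W ∩ U).card := by
  have hD0 : (0 : ℝ) ≤ D := Nat.cast_nonneg D
  have hDq : (D : ℝ) < q := by linarith
  have hU := cyl_pos x U
  have hW := cyl_pos x W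
  have h1 := multi_upper hD hq hDq x U W
  have h2 := multi_lower hD hq hDq hDq2 x W
  have h0 : 0 < (q : ℝ) - D := by linarith
  have h3 : 0 < (q : ℝ) - 2 * D := by linarith
  have hq' : (0 : ℝ) < q := by exact_mod_cast hq
  set M : ℝ := (Fintype.card (PCol G q) : ℝ) with hM
  set a : ℝ := ((cyl x U).card : ℝ)
  set b : ℝ := ((cyl x W).card : ℝ)
  set c : ℝ := ((cyl x (U ∪ W)).card : ℝ)
  have hc : 0 ≤ c := Nat.cast_nonneg _
  have hM0 : 0 ≤ M := Nat.cast_nonneg _
  have hcard : W.card = (W \ U).card + (W ∩ U).card := by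
    rw [Finset.card_sdiff_add_card_inter]
  rw [div_le_iff₀ (by positivity)]
  -- `M ≤ (q (q-D)/(q-2D))^|W| b` and `c ≤ a / (q-D)^|W \ U|`
  have h4 : M ≤ (q * ((q : ℝ) - D) / (q - 2 * D)) ^ W.card * b := by
    rw [div_pow, div_mul_eq_mul_div, le_div_iff₀ (by positivity)]
    linarith
  have h5 : c ≤ a / ((q : ℝ) - D) ^ (W \ U).card := by
    rw [le_div_iff₀ (by positivity)]
    linarith
  calc M * c ≤ ((q * ((q : ℝ) - D) / (q - 2 * D)) ^ W.card * b) *
        (a / ((q : ℝ) - D) ^ (W \ U).card) := by gcongr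
    _ = ((q : ℝ) / (q - 2 * D)) ^ W.card * ((q : ℝ) - D) ^ (W ∩ U).card * (a * b) := by
        have e1 : (q * ((q : ℝ) - D) / (q - 2 * D)) ^ W.card =
            ((q : ℝ) / (q - 2 * D)) ^ W.card *
              (((q : ℝ) - D) ^ (W \ U).card * ((q : ℝ) - D) ^ (W ∩ U).card) := by
          rw [← pow_add, ← hcard, ← mul_pow]
          congr 1
          ring
        rw [e1]
        field_simp
    _ ≤ ((q : ℝ) / (q - 2 * D)) ^ W.card * (q : ℝ) ^ (W ∩ U).card * (a * b) := by
        gcongr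
        linarith

/-- the mixture density -/
noncomputable def rho (x : PCol G q) (t : ℕ) (σ : PCol G q) : ℝ :=
  avg t (fun l => (if ∀ w ∈ unsel l, σ.1 w = x.1 w then (1 : ℝ) else 0) / (cyl x (unsel l)).card)

theorem cond_eq (x : PCol G q) (U : Finset V) (φ : PCol G q → ℝ) :
    cond x U φ = ∑ σ, φ σ * ((if ∀ w ∈ U, σ.1 w = x.1 w then (1 : ℝ) else 0) / (cyl x U).card) := by
  classical
  unfold cond cyl
  rw [Finset.sum_filter, Finset.sum_div]
  refine Finset.sum_congr rfl fun σ _ => ?_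
  by_cases h : ∀ w ∈ U, σ.1 w = x.1 w
  · rw [if_pos h, if_pos h]; ring
  · rw [if_neg h, if_neg h]; simp

theorem avg_cond (x : PCol G q) (t : ℕ) (φ : PCol G q → ℝ) :
    avg t (fun l => cond x (unsel l) φ) = ∑ σ, φ σ * rho x t σ := by
  simp_rw [cond_eq]
  rw [avg_sum]
  refine Finset.sum_congr rfl fun σ _ => ?_
  rw [avg_mul]
  rfl

theorem rho_sum [Nonempty V] (x : PCol G q) (t : ℕ) : ∑ σ, rho x t σ = 1 := by
  have h := avg_cond x t (fun _ => 1)
  simp only [one_mul] at h
  rw [← h]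
  have : ∀ l : List V, cond x (unsel l) (fun _ => (1 : ℝ)) = 1 := by
    intro l
    unfold cond
    rw [Finset.sum_const, nsmul_eq_mul, mul_one, div_self (cyl_pos x _).ne']
  simp_rw [this]
  exact avg_const t 1

theorem rho_sq {D : ℕ} [Nonempty V] (hD : ∀ v, (nb G v).card ≤ D) (hq : 0 < q)
    (hDq2 : 2 * (D : ℝ) < q) (x : PCol G q) (t : ℕ) :
    (Fintype.card (PCol G q) : ℝ) * ∑ σ, rho x t σ ^ 2 ≤
      (1 + ((q : ℝ) / (q - 2 * D) * (1 + ((q : ℝ) - 1) * th V t) - 1) * th V t) ^
        Fintype.card V := by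
  classical
  have hD0 : (0 : ℝ) ≤ D := Nat.cast_nonneg D
  have hq1 : (1 : ℝ) ≤ q := by exact_mod_cast hq
  have h3 : 0 < (q : ℝ) - 2 * D := by linarith
  have hth := th_nonneg (V := V) t
  set K : ℝ := (q : ℝ) / (q - 2 * D) with hK
  have hK1 : 1 ≤ K := by rw [hK, le_div_iff₀ h3]; linarith
  set g : List V → PCol G q → ℝ := fun l σ =>
    (if ∀ w ∈ unsel l, σ.1 w = x.1 w then (1 : ℝ) else 0) / (cyl x (unsel l)).card with hg
  have h1 : ∑ σ, rho x t σ ^ 2 = avg t (fun l => avg t (fun l' => ∑ σ, g l σ * g l' σ)) := by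
    have e1 : ∀ σ, rho x t σ ^ 2 = avg t (fun l => avg t (fun l' => g l σ * g l' σ)) := by
      intro σ
      have e2 : ∀ l, avg t (fun l' => g l σ * g l' σ) = rho x t σ * g l σ := by
        intro l
        rw [avg_mul]
        unfold rho
        rw [mul_comm]
      simp_rw [e2]
      rw [avg_mul, sq]
      rfl
    simp_rw [e1]
    rw [← avg_sum]
    refine avg_congr t fun l => ?_
    rw [← avg_sum]
  have h2 : ∀ l l' : List V, (Fintype.card (PCol G q) : ℝ) * ∑ σ, g l σ * g l' σ ≤
      K ^ (unsel l').card * (q : ℝ) ^ (unsel l' ∩ unsel l).card := by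
    intro l l'
    refine le_trans (le_of_eq ?_) (overlap hD hq hDq2 x (unsel l) (unsel l'))
    rw [mul_div_assoc]
    congr 1
    have e1 : ∀ σ, g l σ * g l' σ =
        (if σ ∈ cyl x (unsel l ∪ unsel l') then (1 : ℝ) else 0) /
          ((cyl x (unsel l)).card * (cyl x (unsel l')).card) := by
      intro σ
      simp only [hg]
      rw [div_mul_div_comm]
      congr 1
      have e2 : σ ∈ cyl x (unsel l ∪ unsel l') ↔
          (∀ w ∈ unsel l, σ.1 w = x.1 w) ∧ (∀ w ∈ unsel l', σ.1 w = x.1 w) := by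
        rw [mem_cyl]
        constructor
        · intro h
          exact ⟨fun w hw => h w (Finset.mem_union_left _ hw),
            fun w hw => h w (Finset.mem_union_right _ hw)⟩
        · rintro ⟨h1, h2⟩ w hw
          rcases Finset.mem_union.mp hw with hw | hw
          · exact h1 w hw
          · exact h2 w hw
      by_cases ha : ∀ w ∈ unsel l, σ.1 w = x.1 w
      · by_cases hb : ∀ w ∈ unsel l', σ.1 w = x.1 w
        · rw [if_pos ha, if_pos hb, if_pos (e2.mpr ⟨ha, hb⟩), mul_one]
        · rw [if_pos ha, if_neg hb, if_neg (fun h => hb (e2.mp h).2), mul_zero]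
      · rw [if_neg ha, if_neg (fun h => ha (e2.mp h).1), zero_mul]
    simp_rw [e1]
    rw [← Finset.sum_div, Finset.sum_ite_mem, Finset.univ_inter, Finset.sum_const, nsmul_eq_mul,
      mul_one]
  rw [h1, ← avg_mul]
  simp_rw [← avg_mul]
  have h4 : avg t (fun l : List V => avg t (fun l' : List V =>
      (Fintype.card (PCol G q) : ℝ) * ∑ σ, g l σ * g l' σ)) ≤
      avg t (fun l : List V => avg t (fun l' : List V =>
        K ^ (unsel l').card * (q : ℝ) ^ (unsel l' ∩ unsel l).card)) :=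
    avg_mono t fun l => avg_mono t fun l' => h2 l l'
  refine h4.trans ?_
  -- exchange the two averages
  have h5 : avg t (fun l : List V => avg t (fun l' : List V =>
        K ^ (unsel l').card * (q : ℝ) ^ (unsel l' ∩ unsel l).card)) =
      avg t (fun l' : List V => avg t (fun l : List V =>
        K ^ (unsel l').card * (q : ℝ) ^ (unsel l' ∩ unsel l).card)) := by
    have swap : ∀ (s r : ℕ) (f : List V → List V → ℝ),
        avg s (fun l => avg r (fun l' => f l l')) = avg r (fun l' => avg s (fun l => f l l')) := by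
      intro s
      induction s with
      | zero => intro r f; rfl
      | succ s ih =>
        intro r f
        rw [avg_succ]
        simp_rw [ih]
        rw [← avg_sum, ← avg_div]
        rfl
    exact swap t t _
  rw [h5]
  have h6 : ∀ l' : List V, avg t (fun l : List V =>
      K ^ (unsel l').card * (q : ℝ) ^ (unsel l' ∩ unsel l).card) ≤
      (K * (1 + ((q : ℝ) - 1) * th V t)) ^ (Finset.univ ∩ unsel l').card := by
    intro l'
    rw [avg_mul, Finset.univ_inter, mul_pow]
    have := avg_pow_le (V := V) t (unsel l') hq1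
    gcongr
  refine (avg_mono t h6).trans ?_
  have h7 : 1 ≤ K * (1 + ((q : ℝ) - 1) * th V t) := by
    have : 0 ≤ ((q : ℝ) - 1) * th V t := mul_nonneg (by linarith) hth
    nlinarith
  have := avg_pow_le (V := V) t Finset.univ h7
  rw [Finset.card_univ] at this
  exact this

/-- the mixture is close to uniform -/
theorem chi {D : ℕ} [Nonempty V] (hD : ∀ v, (nb G v).card ≤ D) (hq : 0 < q)
    (hDq2 : 2 * (D : ℝ) < q) (x : PCol G q) (t : ℕ) (φ : PCol G q → ℝ) (hφ : ∀ σ, |φ σ| ≤ 1) :
    (avg t (fun l => cond x (unsel l) φ) - (∑ σ, φ σ) / Fintype.card (PCol G q)) ^ 2 ≤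
      (1 + ((q : ℝ) / (q - 2 * D) * (1 + ((q : ℝ) - 1) * th V t) - 1) * th V t) ^
        Fintype.card V - 1 := by
  have hM : (0 : ℝ) < Fintype.card (PCol G q) := by
    exact_mod_cast Fintype.card_pos_iff.mpr ⟨x⟩
  set M : ℝ := (Fintype.card (PCol G q) : ℝ) with hMdef
  rw [avg_cond]
  have h1 : ∑ σ, φ σ * rho x t σ - (∑ σ, φ σ) / M = ∑ σ, φ σ * (rho x t σ - 1 / M) := by
    rw [Finset.sum_div, ← Finset.sum_sub_distrib]
    exact Finset.sum_congr rfl fun σ _ => by ring
  rw [h1]
  have h2 := Finset.sum_mul_sq_le_sq_mul_sq Finset.univ φ (fun σ => rho x t σ - 1 / M)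
  refine h2.trans ?_
  have h3 : ∑ σ, φ σ ^ 2 ≤ M := by
    calc ∑ σ, φ σ ^ 2 ≤ ∑ _σ : PCol G q, (1 : ℝ) := Finset.sum_le_sum fun σ _ => by
          rw [sq_le_one_iff_abs_le_one]; exact hφ σ
      _ = M := by rw [Finset.sum_const, Finset.card_univ, nsmul_eq_mul, mul_one]
  have h4 : ∑ σ, (rho x t σ - 1 / M) ^ 2 = ∑ σ, rho x t σ ^ 2 - 1 / M := by
    have : ∀ σ, (rho x t σ - 1 / M) ^ 2 = rho x t σ ^ 2 - (2 / M) * rho x t σ + 1 / M ^ 2 := by
      intro σ; ring
    simp_rw [this]
    rw [Finset.sum_add_distrib, Finset.sum_sub_distrib, ← Finset.mul_sum, rho_sum,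
      Finset.sum_const, Finset.card_univ, nsmul_eq_mul, ← hMdef]
    field_simp
    ring
  have h5 : 0 ≤ ∑ σ, (rho x t σ - 1 / M) ^ 2 := Finset.sum_nonneg fun σ _ => sq_nonneg _
  calc (∑ σ, φ σ ^ 2) * ∑ σ, (rho x t σ - 1 / M) ^ 2
      ≤ M * ∑ σ, (rho x t σ - 1 / M) ^ 2 := by gcongr
    _ = M * ∑ σ, rho x t σ ^ 2 - 1 := by rw [h4]; field_simp
    _ ≤ _ := by
        have := rho_sq hD hq hDq2 x t
        linarith

end Pool.Agent.H984R2.Col
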