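import Mathlib
import Pool.Agent.H984R2.ColD

set_option autoImplicit false
set_option linter.unusedSectionVars false

/-! Bounds on the distance to equilibrium and on the mixing time. -/

namespace Pool.Agent.H984R2.Col

open Finset

variable {V : Type} [Fintype V] [DecidableEq V] {G : SimpleGraph V} {q : ℕ}

theorem tv_bdd {Ω : Type} [Fintype Ω] (μ ν : Ω → ℝ) :
    BddAbove (Set.range fun A : Finset Ω => |∑ a ∈ A, μ a - ∑ a ∈ A, ν a|) := by
  classical
  exact (Set.finite_range _).bddAbove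

theorem le_tv {Ω : Type} [Fintype Ω] (μ ν : Ω → ℝ) (A : Finset Ω) :
    ∑ a ∈ A, μ a - ∑ a ∈ A, ν a ≤ tvDist μ ν :=
  (le_abs_self _).trans (le_ciSup (tv_bdd μ ν) A)

open Classical in
theorem sum_event (t : ℕ) (x : PCol G q) (A : Finset (PCol G q)) :
    ∑ a ∈ A, (P G q ^ t) x a =
      avg t (fun l => act (recolour G q) l (fun σ => if σ ∈ A then (1 : ℝ) else 0) x) := by
  rw [← pow_apply]
  simp only [mul_ite, mul_one, mul_zero]
  rw [Finset.sum_ite_mem, Finset.univ_inter]

theorem tv_upper {D : ℕ} [Nonempty V] (hD : ∀ v, (nb G v).card ≤ D) (hq : 0 < q)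
    (hDq2 : 2 * (D : ℝ) < q) (x : PCol G q) (t : ℕ) :
    tvDist ((P G q ^ t) x) (unif G q) ≤
      ((Fintype.card V : ℝ) *
        (1 - 1 / (Fintype.card V : ℝ) + 3 * D / ((Fintype.card V : ℝ) * q)) ^ t -
        Fintype.card V * th V t) +
      Real.sqrt ((1 + ((q : ℝ) / (q - 2 * D) * (1 + ((q : ℝ) - 1) * th V t) - 1) * th V t) ^
        Fintype.card V - 1) := by
  classical
  unfold tvDist
  apply ciSup_le
  intro A
  rw [sum_event]
  set φ : PCol G q → ℝ := fun σ => if σ ∈ A then (1 : ℝ) else 0 with hφ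
  have h1 : ∀ σ, |φ σ| ≤ 1 := by
    intro σ; simp only [hφ]; split_ifs <;> norm_num
  have h2 : ∀ σ τ, |φ σ - φ τ| ≤ 1 := by
    intro σ τ; simp only [hφ]; split_ifs <;> norm_num
  have h3 : ∑ a ∈ A, unif G q a = (∑ σ, φ σ) / Fintype.card (PCol G q) := by
    unfold unif
    simp only [hφ]
    rw [Finset.sum_ite_mem, Finset.univ_inter, Finset.sum_div]
  rw [h3]
  have h4 := chi hD hq hDq2 x t φ h1
  have h5 : |avg t (fun l => cond x (unsel l) φ) - (∑ σ, φ σ) / Fintype.card (PCol G q)| ≤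
      Real.sqrt ((1 + ((q : ℝ) / (q - 2 * D) * (1 + ((q : ℝ) - 1) * th V t) - 1) * th V t) ^
        Fintype.card V - 1) := Real.abs_le_sqrt h4
  have h6 : |avg t (fun l => act (recolour G q) l φ x) - avg t (fun l => cond x (unsel l) φ)| ≤
      (Fintype.card V : ℝ) *
        (1 - 1 / (Fintype.card V : ℝ) + 3 * D / ((Fintype.card V : ℝ) * q)) ^ t -
        Fintype.card V * th V t := by
    rw [← avg_sub]
    refine (abs_avg_le t _).trans ((avg_mono t fun l => act_cond hD hq l h2 x).trans ?_)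
    unfold err
    rw [avg_sub, avg_card]
    have := avg_R hD hq (G := G) t
    linarith
  calc _ ≤ |avg t (fun l => act (recolour G q) l φ x) - avg t (fun l => cond x (unsel l) φ)| +
        |avg t (fun l => cond x (unsel l) φ) - (∑ σ, φ σ) / Fintype.card (PCol G q)| :=
        abs_sub_le _ _ _
    _ ≤ _ := add_le_add h6 h5

theorem tv_lower {D : ℕ} [Nonempty V] (hD : ∀ v, (nb G v).card ≤ D) (hq : 0 < q)
    (hDq : (D : ℝ) < q) (x : PCol G q) (t : ℕ) (hpos : 0 < Fintype.card V * th V t) :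
    1 - 1 / (Fintype.card V * th V t) - Fintype.card V / ((q : ℝ) - D) ≤
      tvDist ((P G q ^ t) x) (unif G q) := by
  classical
  set A : Finset (PCol G q) := Finset.univ.filter fun σ => ∃ v, σ.1 v = x.1 v with hA
  refine le_trans ?_ (le_tv _ _ A)
  have h0 : 0 < (q : ℝ) - D := by linarith
  have hM : (0 : ℝ) < Fintype.card (PCol G q) := by
    exact_mod_cast Fintype.card_pos_iff.mpr ⟨x⟩
  have h1 : 1 - 1 / (Fintype.card V * th V t) ≤ ∑ a ∈ A, (P G q ^ t) x a := by
    rw [sum_event]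
    refine (avg_nonempty (V := V) t hpos).trans (avg_mono t fun l => ?_)
    split_ifs with h
    · obtain ⟨w, hw⟩ := h
      have e1 : act (recolour G q) l (ic w (x.1 w)) x = 1 := by
        rw [act_inv hq]
        · unfold ic; rw [if_pos rfl]
        · intro v hv c σ
          have hne : w ≠ v := fun h' => (mem_unsel.mp hw) (h' ▸ hv)
          unfold ic
          rw [recolour_ne _ _ _ hne]
      refine e1.symm.le.trans ?_
      refine act_mono _ l (fun σ => ?_) x
      by_cases h2 : σ.1 w = x.1 w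
      · rw [if_pos (by rw [hA, Finset.mem_filter]; exact ⟨Finset.mem_univ _, w, h2⟩)]
        unfold ic
        rw [if_pos h2]
      · unfold ic
        rw [if_neg h2]
        split_ifs <;> norm_num
    · have := act_mono (recolour G q) l (φ := fun _ => (0 : ℝ))
        (ψ := fun σ => if σ ∈ A then (1 : ℝ) else 0) (fun σ => by split_ifs <;> norm_num) x
      rwa [act_const hq] at this
  have h2 : ∑ a ∈ A, unif G q a ≤ Fintype.card V / ((q : ℝ) - D) := by
    unfold unif
    rw [Finset.sum_const, nsmul_eq_mul, mul_one_div, div_le_div_iff₀ hM h0]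
    have h3 : (A.card : ℝ) ≤ ∑ v : V, ∑ τ ∈ cyl x ∅, ic v (x.1 v) τ := by
      rw [Finset.sum_comm]
      have hc : cyl x ∅ = Finset.univ := by ext τ; simp [mem_cyl]
      rw [hc, hA, Finset.card_filter]
      push_cast
      refine Finset.sum_le_sum fun σ _ => ?_
      split_ifs with h
      · obtain ⟨v, hv⟩ := h
        refine le_trans ?_ (Finset.single_le_sum (fun v _ => ic_nonneg v (x.1 v) σ)
          (Finset.mem_univ v))
        unfold ic
        rw [if_pos hv]
      · exact Finset.sum_nonneg fun v _ => ic_nonneg v (x.1 v) σ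
    have h4 : ((q : ℝ) - D) * ∑ v : V, ∑ τ ∈ cyl x ∅, ic v (x.1 v) τ ≤
        Fintype.card V * Fintype.card (PCol G q) := by
      rw [Finset.mul_sum]
      calc ∑ v : V, ((q : ℝ) - D) * ∑ τ ∈ cyl x ∅, ic v (x.1 v) τ
          ≤ ∑ _v : V, ((cyl x ∅).card : ℝ) :=
            Finset.sum_le_sum fun v _ => ic_upper hD hq x ∅ (Finset.notMem_empty v) _
        _ ≤ ∑ _v : V, (Fintype.card (PCol G q) : ℝ) :=
            Finset.sum_le_sum fun v _ => by exact_mod_cast Finset.card_le_univ _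
        _ = _ := by rw [Finset.sum_const, Finset.card_univ, nsmul_eq_mul]
    calc (A.card : ℝ) * ((q : ℝ) - D) ≤
          (∑ v : V, ∑ τ ∈ cyl x ∅, ic v (x.1 v) τ) * ((q : ℝ) - D) := by gcongr
      _ = ((q : ℝ) - D) * ∑ v : V, ∑ τ ∈ cyl x ∅, ic v (x.1 v) τ := mul_comm _ _
      _ ≤ _ := h4
  linarith

/-- the chain mixes -/
theorem exists_mixed {D : ℕ} [Nonempty V] (hD : ∀ v, (nb G v).card ≤ D)
    (hDq3 : 3 * (D : ℝ) < q) :
    ∃ t : ℕ, ∀ x : PCol G q, tvDist ((P G q ^ t) x) (unif G q) ≤ 1 / Real.exp 1 := by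
  have hD0 : (0 : ℝ) ≤ D := Nat.cast_nonneg D
  have hq' : (0 : ℝ) < q := by linarith
  have hq : 0 < q := by exact_mod_cast hq'
  have hn : (1 : ℝ) ≤ Fintype.card V := by exact_mod_cast Fintype.card_pos
  set n : ℝ := (Fintype.card V : ℝ) with hnn
  set κ : ℝ := 1 - 1 / n + 3 * D / (n * q) with hκ
  have h1n : 1 / n ≤ 1 := by rw [div_le_one (by linarith)]; exact hn
  have hκ0 : 0 ≤ κ := by
    have : 0 ≤ 3 * (D : ℝ) / (n * q) := by positivity
    linarith
  have hκ1 : κ < 1 := by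
    have : 3 * (D : ℝ) / (n * q) < 1 / n := by
      rw [div_lt_div_iff₀ (by positivity) (by linarith)]
      nlinarith
    linarith
  have hθ0 : 0 ≤ 1 - 1 / n := by linarith
  have hθ1 : 1 - 1 / n < 1 := by
    have : 0 < 1 / n := by positivity
    linarith
  have t1 : Filter.Tendsto (fun t : ℕ => κ ^ t) Filter.atTop (nhds 0) :=
    tendsto_pow_atTop_nhds_zero_of_lt_one hκ0 hκ1
  have t2 : Filter.Tendsto (fun t : ℕ => th V t) Filter.atTop (nhds 0) :=
    tendsto_pow_atTop_nhds_zero_of_lt_one hθ0 hθ1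
  have t3 : Filter.Tendsto (fun t : ℕ => (n * κ ^ t - n * th V t) +
      Real.sqrt ((1 + ((q : ℝ) / (q - 2 * D) * (1 + ((q : ℝ) - 1) * th V t) - 1) * th V t) ^
        Fintype.card V - 1)) Filter.atTop (nhds ((n * 0 - n * 0) +
      Real.sqrt ((1 + ((q : ℝ) / (q - 2 * D) * (1 + ((q : ℝ) - 1) * 0) - 1) * 0) ^
        Fintype.card V - 1))) := by
    apply Filter.Tendsto.add
    · exact (t1.const_mul n).sub (t2.const_mul n)
    · apply (Real.continuous_sqrt.tendsto _).comp
      have := ((((t2.const_mul ((q : ℝ) - 1)).const_add 1).const_mul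
        ((q : ℝ) / (q - 2 * D))).sub_const 1).mul t2
      exact ((this.const_add 1).pow (Fintype.card V)).sub_const 1
  have h0 : (n * 0 - n * 0) +
      Real.sqrt ((1 + ((q : ℝ) / (q - 2 * D) * (1 + ((q : ℝ) - 1) * 0) - 1) * 0) ^
        Fintype.card V - 1) = 0 := by simp
  rw [h0] at t3
  have hev := t3.eventually (gt_mem_nhds (show (0 : ℝ) < 1 / Real.exp 1 by positivity))
  obtain ⟨t, ht⟩ := hev.exists
  exact ⟨t, fun x => (tv_upper hD hq (by linarith) x t).trans ht.le⟩

theorem tmix_le {t : ℕ} (h : ∀ x : PCol G q, tvDist ((P G q ^ t) x) (unif G q) ≤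
    1 / Real.exp 1) : tmix G q ≤ t := Nat.sInf_le h

theorem lt_tmix {D : ℕ} [Nonempty V] (hD : ∀ v, (nb G v).card ≤ D)
    (hDq3 : 3 * (D : ℝ) < q) {t : ℕ} (x : PCol G q)
    (h : ∀ s ≤ t, 1 / Real.exp 1 < tvDist ((P G q ^ s) x) (unif G q)) : t < tmix G q := by
  have hne : {t : ℕ | ∀ σ : PCol G q, tvDist ((P G q ^ t) σ) (unif G q) ≤
      1 / Real.exp 1}.Nonempty := exists_mixed hD hDq3
  have hmem := Nat.sInf_mem hne
  by_contra hcon
  push Not at hcon
  have h1 := h _ hcon
  have h2 : tvDist ((P G q ^ (tmix G q)) x) (unif G q) ≤ 1 / Real.exp 1 := hmem x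
  exact absurd h1 (not_lt.mpr h2)

end Pool.Agent.H984R2.Col
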