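import Mathlib

set_option autoImplicit false

/-! Numerical estimates. -/

namespace Pool.Agent.H984R2.Col

open Real

theorem exp_sub_one_le {z : ℝ} (h0 : 0 ≤ z) (h1 : z ≤ 1) : exp z - 1 ≤ 2 * z := by
  have := Real.abs_exp_sub_one_le (x := z) (by rw [abs_of_nonneg h0]; exact h1)
  rw [abs_of_nonneg h0] at this
  exact (le_abs_self _).trans this

theorem theta_upper {n : ℝ} (hn : 1 ≤ n) (t : ℕ) : (1 - 1 / n) ^ t ≤ exp (-(t / n)) := by
  have h1 : 0 ≤ 1 - 1 / n := by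
    rw [sub_nonneg, div_le_one (by linarith)]; exact hn
  have h2 : 1 - 1 / n ≤ exp (-(1 / n)) := by
    have := Real.add_one_le_exp (-(1 / n))
    linarith
  calc (1 - 1 / n) ^ t ≤ exp (-(1 / n)) ^ t := pow_le_pow_left₀ h1 h2 t
    _ = exp (-(t / n)) := by rw [← Real.exp_nat_mul]; congr 1; ring

theorem theta_lower {n : ℝ} (hn : 1 < n) (t : ℕ) : exp (-(t / (n - 1))) ≤ (1 - 1 / n) ^ t := by
  have h0 : 0 < n - 1 := by linarith
  have h2 : exp (-(1 / (n - 1))) ≤ 1 - 1 / n := by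
    have h3 := Real.add_one_le_exp (1 / (n - 1))
    have h4 : 1 - 1 / n = (1 / (n - 1) + 1)⁻¹ := by
      field_simp
      ring
    rw [Real.exp_neg, h4]
    exact inv_anti₀ (by positivity) h3
  calc exp (-(t / (n - 1))) = exp (-(1 / (n - 1))) ^ t := by
        rw [← Real.exp_nat_mul]; congr 1; ring
    _ ≤ _ := pow_le_pow_left₀ (exp_pos _).le h2 t

theorem part_A {t : ℕ} {D N L r m θ q : ℝ} (hD : 0 ≤ D) (hN : 3 ≤ N) (hL : 1 ≤ L) (hr : 0 < r)
    (hm : 0 < m) (hθ : 0 ≤ θ) (hq : r ≤ q) (hlam : N * θ ≤ r / m) (ht : (t : ℝ) ≤ 4 * N * L)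
    (E2 : 24 * D * L ≤ r) (E3 : 480 * D * L ≤ m) :
    N * (θ * (1 + 3 * D / (q * (N - 1))) ^ t) - N * θ ≤ 1 / 10 := by
  have hN0 : 0 < N := by linarith
  have hN1 : 0 < N - 1 := by linarith
  have hq0 : 0 < q := by linarith
  have hz0 : 0 ≤ 3 * D / (q * (N - 1)) := by positivity
  have c3 : t * (3 * D / (q * (N - 1))) ≤ 24 * D * L / r := by
    have d2 : N / 2 ≤ N - 1 := by linarith
    have d3 : 3 * D / (q * (N - 1)) ≤ 3 * D / (r * (N / 2)) := by
      apply div_le_div_of_nonneg_left (by positivity) (by positivity)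
      exact mul_le_mul hq d2 (by positivity) hq0.le
    calc (t : ℝ) * (3 * D / (q * (N - 1))) ≤ (4 * N * L) * (3 * D / (r * (N / 2))) :=
          mul_le_mul ht d3 hz0 (by positivity)
      _ = 24 * D * L / r := by field_simp; ring
  generalize 3 * D / (q * (N - 1)) = z at *
  have c2 : (1 + z) ^ t ≤ exp (t * z) := by
    calc (1 + z) ^ t ≤ exp z ^ t := by
          apply pow_le_pow_left₀ (by linarith)
          have := Real.add_one_le_exp z
          linarith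
      _ = exp (t * z) := by rw [← Real.exp_nat_mul]
  have c4 : 24 * D * L / r ≤ 1 := by rw [div_le_one hr]; exact E2
  have htz0 : 0 ≤ (t : ℝ) * z := by positivity
  have c5 := exp_sub_one_le htz0 (c3.trans c4)
  have c6 : N * (θ * (1 + z) ^ t) - N * θ = N * θ * ((1 + z) ^ t - 1) := by ring
  rw [c6]
  have c7 : 0 ≤ N * θ := by positivity
  calc N * θ * ((1 + z) ^ t - 1) ≤ N * θ * (2 * (t * z)) := by
        apply mul_le_mul_of_nonneg_left _ c7
        linarith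
    _ ≤ (r / m) * (2 * (24 * D * L / r)) := by
        apply mul_le_mul hlam _ (by positivity) (by positivity)
        linarith
    _ = 48 * D * L / m := by field_simp; ring
    _ ≤ 1 / 10 := by
        rw [div_le_div_iff₀ hm (by norm_num)]
        linarith

theorem part_B {n : ℕ} {D N r m θ q : ℝ} (hN' : N = n) (hD : 0 ≤ D) (hN : 3 ≤ N)
    (hr : 0 < r) (hr3 : r ^ 3 = N)
    (hm : 1 ≤ m) (hθ : 0 ≤ θ) (hq : r ≤ q) (hq2 : q ≤ r + 1) (hlam : N * θ ≤ r / m)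
    (E1 : 4 * D + 8 ≤ r) (E4 : 100 * (8 * D + 4) ≤ m) :
    Real.sqrt ((1 + (q / (q - 2 * D) * (1 + (q - 1) * θ) - 1) * θ) ^ n - 1) ≤ 1 / 10 := by
  have hN0 : 0 < N := by linarith
  have hm0 : 0 < m := by linarith
  have hq0 : 0 < q := by linarith
  have hq2D : r / 2 ≤ q - 2 * D := by linarith
  have hq2D0 : 0 < q - 2 * D := by linarith
  have hKe : q / (q - 2 * D) - 1 = 2 * D / (q - 2 * D) := by field_simp; ring
  have hK1 : q / (q - 2 * D) - 1 ≤ 4 * D / r := by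
    rw [hKe]
    calc 2 * D / (q - 2 * D) ≤ 2 * D / (r / 2) := by
          apply div_le_div_of_nonneg_left (by positivity) (by positivity) hq2D
      _ = 4 * D / r := by field_simp; ring
  have hK0 : 0 ≤ q / (q - 2 * D) - 1 := by rw [hKe]; positivity
  generalize q / (q - 2 * D) = K at *
  have hK2 : K ≤ 2 := by
    have : 4 * D / r ≤ 1 := by rw [div_le_one hr]; linarith
    linarith
  have hq1' : 0 ≤ q - 1 := by linarith
  have hY0 : 0 ≤ (K * (1 + (q - 1) * θ) - 1) * θ := by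
    apply mul_nonneg _ hθ
    have : 0 ≤ (q - 1) * θ := mul_nonneg hq1' hθ
    nlinarith
  have hYb : N * ((K * (1 + (q - 1) * θ) - 1) * θ) ≤ (4 * D + 2) / m := by
    have e1 : N * ((K * (1 + (q - 1) * θ) - 1) * θ) =
        (N * θ) * (K - 1) + K * (q - 1) * ((N * θ) ^ 2 / N) := by
      field_simp; ring
    rw [e1]
    have hNθ : 0 ≤ N * θ := by positivity
    have a1 : (N * θ) * (K - 1) ≤ (r / m) * (4 * D / r) :=
      mul_le_mul hlam hK1 hK0 (by positivity)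
    have a2 : K * (q - 1) * ((N * θ) ^ 2 / N) ≤ 2 * r * ((r / m) ^ 2 / N) := by
      apply mul_le_mul _ _ (by positivity) (by positivity)
      · exact mul_le_mul hK2 (by linarith) hq1' (by norm_num)
      · exact div_le_div_of_nonneg_right (pow_le_pow_left₀ hNθ hlam 2) hN0.le
    have a3 : (r / m) * (4 * D / r) = 4 * D / m := by field_simp
    have a4 : 2 * r * ((r / m) ^ 2 / N) = 2 / m ^ 2 := by
      rw [← hr3]; field_simp
    have a5 : 2 / m ^ 2 ≤ 2 / m := by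
      apply div_le_div_of_nonneg_left (by norm_num) hm0
      nlinarith
    calc _ ≤ 4 * D / m + 2 / m := by rw [a3] at a1; rw [a4] at a2; linarith
      _ = _ := by ring
  generalize (K * (1 + (q - 1) * θ) - 1) * θ = Y at *
  have hB : (1 + Y) ^ n - 1 ≤ 1 / 100 := by
    have b1 : (1 + Y) ^ n ≤ exp (N * Y) := by
      calc (1 + Y) ^ n ≤ exp Y ^ n := by
            apply pow_le_pow_left₀ (by linarith)
            have := Real.add_one_le_exp Y
            linarith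
        _ = exp (N * Y) := by rw [← Real.exp_nat_mul, hN']
    have hm100 : (4 * D + 2) / m ≤ 1 / 200 := by
      rw [div_le_div_iff₀ hm0 (by norm_num)]
      linarith
    have b2 := exp_sub_one_le (z := N * Y) (by positivity) (by linarith)
    linarith
  rw [show (1 / 10 : ℝ) = Real.sqrt (1 / 100) by
    rw [show (1 / 100 : ℝ) = (1 / 10) ^ 2 by norm_num, Real.sqrt_sq (by norm_num)]]
  exact Real.sqrt_le_sqrt hB

theorem lam_bound {t : ℕ} {N δ : ℝ} (hN : 3 ≤ N)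
    (ht1 : (2 / 3 + δ) * N * log N ≤ t) :
    N * (1 - 1 / N) ^ t ≤ N ^ (1 / 3 : ℝ) / N ^ δ := by
  have hn0 : 0 < N := by linarith
  have h1 := theta_upper (n := N) (by linarith) t
  have h2 : exp (-(t / N)) ≤ exp (-((2 / 3 + δ) * log N)) := by
    apply Real.exp_le_exp.mpr
    apply neg_le_neg
    rw [le_div_iff₀ hn0]
    calc (2 / 3 + δ) * log N * N = (2 / 3 + δ) * N * log N := by ring
      _ ≤ t := ht1
  have h3 : N * exp (-((2 / 3 + δ) * log N)) = N ^ (1 / 3 : ℝ) / N ^ δ := by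
    have e1 : N = exp (log N) := by rw [Real.exp_log hn0]
    have e2 : N ^ (1 / 3 : ℝ) = exp (log N * (1 / 3)) := Real.rpow_def_of_pos hn0 _
    have e3 : N ^ δ = exp (log N * δ) := Real.rpow_def_of_pos hn0 _
    rw [e2, e3, ← Real.exp_sub]
    calc N * exp (-((2 / 3 + δ) * log N)) =
        exp (log N) * exp (-((2 / 3 + δ) * log N)) := by rw [← e1]
      _ = _ := by rw [← Real.exp_add]; congr 1; ring
  rw [← h3]
  exact mul_le_mul_of_nonneg_left (h1.trans h2) hn0.le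

theorem upper_num {D t n : ℕ} {q δ : ℝ} (hδ : 0 < δ) (hδ1 : δ ≤ 1) (hn : 3 ≤ n)
    (hq1 : (n : ℝ) ^ (1 / 3 : ℝ) ≤ q) (hq2 : q ≤ (n : ℝ) ^ (1 / 3 : ℝ) + 1)
    (ht1 : (2 / 3 + δ) * n * log n ≤ t) (ht2 : (t : ℝ) ≤ (2 / 3 + δ) * n * log n + 1)
    (E1 : 4 * (D : ℝ) + 8 ≤ (n : ℝ) ^ (1 / 3 : ℝ))
    (E2 : 24 * (D : ℝ) * log n ≤ (n : ℝ) ^ (1 / 3 : ℝ))
    (E3 : 480 * (D : ℝ) * log n ≤ (n : ℝ) ^ δ)
    (E4 : 100 * (8 * (D : ℝ) + 4) ≤ (n : ℝ) ^ δ) :
    ((n : ℝ) * (1 - 1 / (n : ℝ) + 3 * D / ((n : ℝ) * q)) ^ t - n * (1 - 1 / (n : ℝ)) ^ t) +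
      Real.sqrt ((1 + (q / (q - 2 * D) * (1 + (q - 1) * (1 - 1 / (n : ℝ)) ^ t) - 1) *
        (1 - 1 / (n : ℝ)) ^ t) ^ n - 1) ≤ 1 / exp 1 := by
  have hD0 : (0 : ℝ) ≤ D := Nat.cast_nonneg D
  have hn3 : (3 : ℝ) ≤ n := by exact_mod_cast hn
  have hn0 : (0 : ℝ) < n := by linarith
  have hr0 : 0 < (n : ℝ) ^ (1 / 3 : ℝ) := by positivity
  have hm1 : 1 ≤ (n : ℝ) ^ δ := by linarith
  have hr3 : ((n : ℝ) ^ (1 / 3 : ℝ)) ^ 3 = n := by
    rw [← Real.rpow_natCast, ← Real.rpow_mul hn0.le]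
    norm_num
  have hL1 : 1 ≤ log n := by
    rw [Real.le_log_iff_exp_le hn0]
    have := Real.exp_one_lt_d9
    linarith
  have h1N : 0 ≤ 1 - 1 / (n : ℝ) := by
    rw [sub_nonneg, div_le_one (by linarith)]; linarith
  have hθ0 : 0 ≤ (1 - 1 / (n : ℝ)) ^ t := pow_nonneg h1N t
  have hlam := lam_bound (N := (n : ℝ)) (δ := δ) hn3 ht1
  have hq0 : 0 < q := by linarith
  have ht4 : (t : ℝ) ≤ 4 * n * log n := by
    have h1 : 1 ≤ (n : ℝ) * log n := by nlinarith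
    have h2 : (2 / 3 + δ) * n * log n ≤ 2 * n * log n := by
      have : 0 ≤ (n : ℝ) * log n := by positivity
      nlinarith
    linarith
  have hA := part_A (t := t) (θ := (1 - 1 / (n : ℝ)) ^ t) hD0 hn3 hL1 hr0
    (by linarith) hθ0 hq1 hlam ht4 E2 E3
  have hB := part_B (n := n) (θ := (1 - 1 / (n : ℝ)) ^ t) rfl hD0 hn3 hr0 hr3 hm1 hθ0 hq1 hq2
    hlam E1 E4
  have c1 : 1 - 1 / (n : ℝ) + 3 * D / (n * q) =
      (1 - 1 / (n : ℝ)) * (1 + 3 * D / (q * ((n : ℝ) - 1))) := by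
    have : (n : ℝ) - 1 ≠ 0 := by linarith
    field_simp
  rw [c1, mul_pow]
  have he : (2 / 10 : ℝ) ≤ 1 / exp 1 := by
    rw [div_le_div_iff₀ (by norm_num) (exp_pos 1)]
    have := Real.exp_one_lt_d9
    linarith
  linarith

theorem lower_num {n t : ℕ} {d : ℝ} (hn : 3 ≤ n) (ht : (t : ℝ) ≤ ((n : ℝ) - 1) * log (n / 2))
    (hd : 8 * (n : ℝ) ≤ d) :
    0 < (n : ℝ) * (1 - 1 / (n : ℝ)) ^ t ∧
    1 / exp 1 < 1 - 1 / ((n : ℝ) * (1 - 1 / (n : ℝ)) ^ t) - n / d := by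
  have hn3 : (3 : ℝ) ≤ n := by exact_mod_cast hn
  have hn0 : (0 : ℝ) < n := by linarith
  have h1 := theta_lower (n := (n : ℝ)) (by linarith) t
  have h2 : exp (-(log (n / 2))) ≤ exp (-(t / ((n : ℝ) - 1))) := by
    apply Real.exp_le_exp.mpr
    apply neg_le_neg
    rw [div_le_iff₀ (by linarith)]
    linarith
  have h3 : 2 ≤ (n : ℝ) * (1 - 1 / (n : ℝ)) ^ t := by
    have e1 : (n : ℝ) * exp (-(log (n / 2))) = 2 := by
      rw [Real.exp_neg, Real.exp_log (by positivity)]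
      field_simp
    rw [← e1]
    exact mul_le_mul_of_nonneg_left (h2.trans h1) hn0.le
  refine ⟨by linarith, ?_⟩
  have h4 : 1 / ((n : ℝ) * (1 - 1 / (n : ℝ)) ^ t) ≤ 1 / 2 :=
    one_div_le_one_div_of_le (by norm_num) h3
  have h5 : (n : ℝ) / d ≤ 1 / 8 := by
    rw [div_le_div_iff₀ (by linarith) (by norm_num)]
    linarith
  have h6 : 1 / exp 1 < 3 / 8 := by
    rw [div_lt_div_iff₀ (exp_pos 1) (by norm_num)]
    have := Real.exp_one_gt_d9
    linarith
  linarith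

end Pool.Agent.H984R2.Col
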