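import Mathlib

set_option autoImplicit false

/-! Explicit quantities for the five-vertex Potts example and their elementary bounds. -/

namespace Pool.Agent.H984R2.Potts

open Finset

variable {q : ℕ}

/-- pair interaction -/
noncomputable def e (x : ℝ) (a b : Fin q) : ℝ := if a = b then x else 1

theorem e_self (x : ℝ) (a : Fin q) : e x a a = x := if_pos rfl

theorem e_ne (x : ℝ) {a b : Fin q} (h : a ≠ b) : e x a b = 1 := if_neg h

theorem e_ne' (x : ℝ) {a b : Fin q} (h : a ≠ b) : e x b a = 1 := if_neg h.symm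

theorem e_comm (x : ℝ) (a b : Fin q) : e x a b = e x b a := by
  unfold e
  by_cases h : a = b
  · rw [h]
  · rw [if_neg h, if_neg (Ne.symm h)]

theorem e_pos {x : ℝ} (hx : 1 ≤ x) (a b : Fin q) : 0 < e x a b := by
  unfold e; split_ifs <;> linarith

theorem one_le_e {x : ℝ} (hx : 1 ≤ x) (a b : Fin q) : 1 ≤ e x a b := by
  unfold e; split_ifs <;> linarith

theorem e_le {x : ℝ} (hx : 1 ≤ x) (a b : Fin q) : e x a b ≤ x := by
  unfold e; split_ifs <;> linarith

noncomputable def Z2 (x : ℝ) (a b : Fin q) : ℝ := ∑ u, e x a u * e x b u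
noncomputable def Z3 (x : ℝ) (a b c : Fin q) : ℝ := ∑ u, e x a u * e x b u * e x c u
noncomputable def Z4 (x : ℝ) (a b c d : Fin q) : ℝ := ∑ u, e x a u * e x b u * e x c u * e x d u

/-! splitting sums over colours -/

theorem split1 (f : Fin q → ℝ) (g : Fin q) (k : ℝ) (h : ∀ u, u ≠ g → f u = k) :
    ∑ u, f u = f g + ((q : ℝ) - 1) * k := by
  rw [← Finset.add_sum_erase _ _ (Finset.mem_univ g)]
  congr 1
  rw [Finset.sum_congr rfl (fun u hu => h u (Finset.ne_of_mem_erase hu)), Finset.sum_const,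
    Finset.card_erase_of_mem (Finset.mem_univ g), Finset.card_univ, Fintype.card_fin, nsmul_eq_mul]
  have : 1 ≤ q := by have := g.2; omega
  push_cast [Nat.cast_sub this]
  ring

theorem split2 (f : Fin q → ℝ) (g r : Fin q) (hgr : r ≠ g) (k : ℝ)
    (h : ∀ u, u ≠ g → u ≠ r → f u = k) :
    ∑ u, f u = f g + f r + ((q : ℝ) - 2) * k := by
  have h1 := split1 (fun u => if u = r then k else f u) g k (by
    intro u hu
    by_cases hr : u = r
    · simp [hr]
    · simp [hr, h u hu hr])
  have h2 : ∑ u, f u = ∑ u, (if u = r then k else f u) + (f r - k) := by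
    rw [← Finset.add_sum_erase _ _ (Finset.mem_univ r),
      ← Finset.add_sum_erase _ (fun u => if u = r then k else f u) (Finset.mem_univ r)]
    have : ∑ u ∈ univ.erase r, f u = ∑ u ∈ univ.erase r, (if u = r then k else f u) :=
      Finset.sum_congr rfl fun u hu => by simp [Finset.ne_of_mem_erase hu]
    rw [this]
    simp
    ring
  rw [h2, h1]
  simp only [hgr.symm, if_false]
  ring

theorem split3 (f : Fin q → ℝ) (g r s : Fin q) (hgr : r ≠ g) (hgs : s ≠ g) (hrs : s ≠ r) (k : ℝ)
    (h : ∀ u, u ≠ g → u ≠ r → u ≠ s → f u = k) :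
    ∑ u, f u = f g + f r + f s + ((q : ℝ) - 3) * k := by
  have h1 := split2 (fun u => if u = s then k else f u) g r hgr k (by
    intro u hu hr
    by_cases hs : u = s
    · simp [hs]
    · simp [hs, h u hu hr hs])
  have h2 : ∑ u, f u = ∑ u, (if u = s then k else f u) + (f s - k) := by
    rw [← Finset.add_sum_erase _ _ (Finset.mem_univ s),
      ← Finset.add_sum_erase _ (fun u => if u = s then k else f u) (Finset.mem_univ s)]
    have : ∑ u ∈ univ.erase s, f u = ∑ u ∈ univ.erase s, (if u = s then k else f u) :=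
      Finset.sum_congr rfl fun u hu => by simp [Finset.ne_of_mem_erase hu]
    rw [this]
    simp
    ring
  rw [h2, h1]
  simp only [hgs.symm, hrs.symm, if_false]
  ring

/-! closed forms -/

theorem Z2_self (x : ℝ) (a : Fin q) : Z2 x a a = x ^ 2 + ((q : ℝ) - 1) := by
  unfold Z2
  rw [split1 _ a 1 (fun u hu => by rw [e_ne x hu.symm]; norm_num), e_self]
  ring

theorem Z2_ne (x : ℝ) {a b : Fin q} (h : b ≠ a) : Z2 x a b = 2 * x + ((q : ℝ) - 2) := by
  unfold Z2
  rw [split2 _ a b h 1 (fun u hu hv => by rw [e_ne x hu.symm, e_ne x hv.symm]; norm_num), e_self,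
    e_self, e_ne x h, e_ne x h.symm]
  ring

theorem Z3_self (x : ℝ) (a : Fin q) : Z3 x a a a = x ^ 3 + ((q : ℝ) - 1) := by
  unfold Z3
  rw [split1 _ a 1 (fun u hu => by rw [e_ne x hu.symm]; norm_num), e_self]
  ring

theorem Z3_two (x : ℝ) {a b : Fin q} (h : b ≠ a) : Z3 x a a b = x ^ 2 + x + ((q : ℝ) - 2) := by
  unfold Z3
  rw [split2 _ a b h 1 (fun u hu hv => by rw [e_ne x hu.symm, e_ne x hv.symm]; norm_num), e_self,
    e_self, e_ne x h, e_ne x h.symm]
  ring

theorem Z3_three (x : ℝ) {a b c : Fin q} (hab : b ≠ a) (hac : c ≠ a) (hbc : c ≠ b) :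
    Z3 x a b c = 3 * x + ((q : ℝ) - 3) := by
  unfold Z3
  rw [split3 _ a b c hab hac hbc 1 (fun u hu hv hw => by
    rw [e_ne x hu.symm, e_ne x hv.symm, e_ne x hw.symm]; norm_num), e_self, e_self, e_self,
    e_ne x hab, e_ne x hab.symm, e_ne x hac, e_ne x hac.symm, e_ne x hbc, e_ne x hbc.symm]
  ring

theorem Z3_rot (x : ℝ) (a b c : Fin q) : Z3 x a b c = Z3 x b c a := by
  unfold Z3; exact Finset.sum_congr rfl fun u _ => by ring

theorem Z3_swap (x : ℝ) (a b c : Fin q) : Z3 x a b c = Z3 x b a c := by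
  unfold Z3; exact Finset.sum_congr rfl fun u _ => by ring

end Pool.Agent.H984R2.Potts
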