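import Mathlib
import Pool.Agent.H984R2.PottsA

set_option autoImplicit false

namespace Pool.Agent.H984R2.Potts

open Finset

variable {q : ℕ}

noncomputable def P (x : ℝ) (g m : Fin q) : ℝ :=
  ∑ c, (e x g c * e x g c / Z2 x g g) * (e x g m * e x g m * e x c m / Z3 x g g c)
noncomputable def K3 (x : ℝ) (g m c : Fin q) : ℝ := e x g c * e x m c / Z2 x g m
noncomputable def K0 (x : ℝ) (g m c a : Fin q) : ℝ :=
  e x g a * e x m a * e x c a * e x g a / Z4 x g m c g
noncomputable def K1 (x : ℝ) (g a m b : Fin q) : ℝ := e x a b * e x m b * e x g b / Z3 x a m g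
noncomputable def nu (x : ℝ) (g a b c m : Fin q) : ℝ :=
  P x g m * K3 x g m c * K0 x g m c a * K1 x g a m b
noncomputable def S (x : ℝ) (g a b c : Fin q) : ℝ := ∑ m, nu x g a b c m
noncomputable def N (x : ℝ) (g a b m : Fin q) : ℝ := ∑ c, nu x g a b c m
noncomputable def F (x : ℝ) (g a b c : Fin q) : ℝ :=
  ∑ m, N x g a b m * (e x a c * e x m c / Z2 x a m)
noncomputable def W (x Z : ℝ) (g a b c : Fin q) : ℝ :=
  e x a b * e x a c * e x a g * e x b g * Z3 x a b c / Z

/-- Standing assumptions. -/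
structure Hyp (q : ℕ) (x : ℝ) : Prop where
  hq : 3 ≤ q
  hx : 1000 * (q : ℝ) ^ 3 ≤ x

namespace Hyp

variable {x : ℝ} (H : Hyp q x)
include H

theorem Q3 : (3 : ℝ) ≤ q := by exact_mod_cast H.hq

theorem x27 : (27000 : ℝ) ≤ x := by
  have h := H.Q3
  have h2 : (27 : ℝ) ≤ (q : ℝ) ^ 3 := by
    calc (27 : ℝ) = 3 ^ 3 := by norm_num
      _ ≤ (q : ℝ) ^ 3 := by gcongr
  linarith [H.hx]

theorem x1 : (1 : ℝ) ≤ x := by linarith [H.x27]

theorem x0 : (0 : ℝ) < x := by linarith [H.x27]

theorem qx : (q : ℝ) ≤ x / 9000 := by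
  have h := H.Q3
  have h2 : 9 * (q : ℝ) ≤ (q : ℝ) ^ 3 := by nlinarith [mul_self_nonneg ((q : ℝ)), h]
  have := H.hx
  linarith

theorem q2x : (q : ℝ) ^ 2 ≤ x / 3000 := by
  have h := H.Q3
  have h2 : 3 * (q : ℝ) ^ 2 ≤ (q : ℝ) ^ 3 := by nlinarith [sq_nonneg ((q : ℝ)), h]
  have := H.hx
  linarith

theorem e0 (a b : Fin q) : 0 < e x a b := e_pos H.x1 a b

theorem Z2_pos (a b : Fin q) : 0 < Z2 x a b := by
  have : Nonempty (Fin q) := ⟨a⟩
  exact Finset.sum_pos (fun u _ => mul_pos (H.e0 _ _) (H.e0 _ _)) Finset.univ_nonempty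

theorem Z3_pos (a b c : Fin q) : 0 < Z3 x a b c := by
  have : Nonempty (Fin q) := ⟨a⟩
  exact Finset.sum_pos (fun u _ => mul_pos (mul_pos (H.e0 _ _) (H.e0 _ _)) (H.e0 _ _))
    Finset.univ_nonempty

theorem Z4_pos (a b c d : Fin q) : 0 < Z4 x a b c d := by
  have : Nonempty (Fin q) := ⟨a⟩
  exact Finset.sum_pos (fun u _ => mul_pos (mul_pos (mul_pos (H.e0 _ _) (H.e0 _ _)) (H.e0 _ _))
    (H.e0 _ _)) Finset.univ_nonempty

theorem P_nonneg (g m : Fin q) : 0 ≤ P x g m :=
  Finset.sum_nonneg fun c _ => by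
    have := H.Z2_pos g g; have := H.Z3_pos g g c; have := H.e0 g c; have := H.e0 g m
    have := H.e0 c m
    positivity

theorem K3_pos (g m c : Fin q) : 0 < K3 x g m c := by
  have := H.Z2_pos g m; have := H.e0 g c; have := H.e0 m c
  unfold K3; positivity

theorem K0_pos (g m c a : Fin q) : 0 < K0 x g m c a := by
  have := H.Z4_pos g m c g; have := H.e0 g a; have := H.e0 m a; have := H.e0 c a
  unfold K0; positivity

theorem K1_pos (g a m b : Fin q) : 0 < K1 x g a m b := by
  have := H.Z3_pos a m g; have := H.e0 a b; have := H.e0 m b; have := H.e0 g b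
  unfold K1; positivity

theorem nu_nonneg (g a b c m : Fin q) : 0 ≤ nu x g a b c m := by
  have := H.P_nonneg g m; have := H.K3_pos g m c; have := H.K0_pos g m c a
  have := H.K1_pos g a m b
  unfold nu; positivity

theorem S_nonneg (g a b c : Fin q) : 0 ≤ S x g a b c :=
  Finset.sum_nonneg fun m _ => H.nu_nonneg g a b c m

theorem N_nonneg (g a b m : Fin q) : 0 ≤ N x g a b m :=
  Finset.sum_nonneg fun c _ => H.nu_nonneg g a b c m

/-! ### upper bounds -/

theorem Z2_ge (g m : Fin q) : x * e x g m ≤ Z2 x g m := by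
  have h : e x g g * e x m g ≤ Z2 x g m :=
    Finset.single_le_sum (f := fun u => e x g u * e x m u)
      (fun u _ => (mul_pos (H.e0 _ _) (H.e0 _ _)).le) (Finset.mem_univ g)
  rw [e_self, e_comm x m g] at h
  exact h

theorem Z4_ge (g m c : Fin q) : x ^ 2 * (e x g m * e x g c) ≤ Z4 x g m c g := by
  have h : e x g g * e x m g * e x c g * e x g g ≤ Z4 x g m c g :=
    Finset.single_le_sum (f := fun u => e x g u * e x m u * e x c u * e x g u)
      (fun u _ => (mul_pos (mul_pos (mul_pos (H.e0 _ _) (H.e0 _ _)) (H.e0 _ _)) (H.e0 _ _)).le)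
      (Finset.mem_univ g)
  rw [e_self, e_comm x m g, e_comm x c g] at h
  calc x ^ 2 * (e x g m * e x g c) = x * e x g m * e x g c * x := by ring
    _ ≤ _ := h

theorem Z3_ge_g (g a m : Fin q) : x * (e x g a * e x g m) ≤ Z3 x a m g := by
  have h : e x a g * e x m g * e x g g ≤ Z3 x a m g :=
    Finset.single_le_sum (f := fun u => e x a u * e x m u * e x g u)
      (fun u _ => (mul_pos (mul_pos (H.e0 _ _) (H.e0 _ _)) (H.e0 _ _)).le) (Finset.mem_univ g)
  rw [e_self, e_comm x m g, e_comm x a g] at h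
  calc x * (e x g a * e x g m) = e x g a * e x g m * x := by ring
    _ ≤ _ := h

theorem Z3_ge_a (g a m : Fin q) : x * (e x g a * e x a m) ≤ Z3 x a m g := by
  have h : e x a a * e x m a * e x g a ≤ Z3 x a m g :=
    Finset.single_le_sum (f := fun u => e x a u * e x m u * e x g u)
      (fun u _ => (mul_pos (mul_pos (H.e0 _ _) (H.e0 _ _)) (H.e0 _ _)).le) (Finset.mem_univ a)
  rw [e_self, e_comm x m a] at h
  calc x * (e x g a * e x a m) = x * e x a m * e x g a := by ring
    _ ≤ _ := h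

theorem K3_le (g m c : Fin q) : K3 x g m c ≤ e x g c * e x m c / (x * e x g m) := by
  have := H.e0 g c; have := H.e0 m c; have := H.e0 g m; have := H.x0
  unfold K3
  exact div_le_div_of_nonneg_left (by positivity) (by positivity) (H.Z2_ge g m)

theorem K0_le (g m c a : Fin q) :
    K0 x g m c a ≤ e x g a * e x m a * e x c a * e x g a / (x ^ 2 * (e x g m * e x g c)) := by
  have := H.e0 g a; have := H.e0 m a; have := H.e0 c a; have := H.e0 g m; have := H.e0 g c
  have := H.x0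
  unfold K0
  exact div_le_div_of_nonneg_left (by positivity) (by positivity) (H.Z4_ge g m c)

theorem K1_le_g (g a m b : Fin q) :
    K1 x g a m b ≤ e x a b * e x m b * e x g b / (x * (e x g a * e x g m)) := by
  have := H.e0 a b; have := H.e0 m b; have := H.e0 g b; have := H.e0 g m; have := H.e0 g a
  have := H.x0
  unfold K1
  exact div_le_div_of_nonneg_left (by positivity) (by positivity) (H.Z3_ge_g g a m)

theorem K1_le_a (g a m b : Fin q) :
    K1 x g a m b ≤ e x a b * e x m b * e x g b / (x * (e x g a * e x a m)) := by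
  have := H.e0 a b; have := H.e0 m b; have := H.e0 g b; have := H.e0 a m; have := H.e0 g a
  have := H.x0
  unfold K1
  exact div_le_div_of_nonneg_left (by positivity) (by positivity) (H.Z3_ge_a g a m)

theorem sum_kernel3 (a b c : Fin q) :
    ∑ m, e x a m * e x b m * e x c m / Z3 x a b c = 1 := by
  rw [← Finset.sum_div]
  exact div_self (H.Z3_pos a b c).ne'

theorem sum_kernel2 (a b : Fin q) : ∑ c, e x a c * e x b c / Z2 x a b = 1 := by
  rw [← Finset.sum_div]
  exact div_self (H.Z2_pos a b).ne'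

theorem P_sum (g : Fin q) : ∑ m, P x g m = 1 := by
  unfold P
  rw [Finset.sum_comm]
  simp_rw [← Finset.mul_sum]
  simp_rw [H.sum_kernel3 g g, mul_one]
  exact H.sum_kernel2 g g

theorem P_le_one (g m : Fin q) : P x g m ≤ 1 := by
  rw [← H.P_sum g]
  exact Finset.single_le_sum (f := fun m => P x g m) (fun u _ => H.P_nonneg g u)
    (Finset.mem_univ m)

theorem F_sum (g a b : Fin q) : ∑ c, F x g a b c = ∑ c, S x g a b c := by
  unfold F S
  rw [Finset.sum_comm, Finset.sum_comm (f := fun c m => nu x g a b c m)]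
  refine Finset.sum_congr rfl fun m _ => ?_
  rw [← Finset.mul_sum, H.sum_kernel2, mul_one]
  rfl

/-- closed form of `P` at a non-green colour -/
theorem P_ne {g m : Fin q} (h : m ≠ g) :
    P x g m = (x ^ 2 / (x ^ 2 + ((q : ℝ) - 1))) * (1 / (x ^ 3 + ((q : ℝ) - 1))) +
      (1 / (x ^ 2 + ((q : ℝ) - 1))) * (x / (x ^ 2 + x + ((q : ℝ) - 2))) +
      ((q : ℝ) - 2) * ((1 / (x ^ 2 + ((q : ℝ) - 1))) * (1 / (x ^ 2 + x + ((q : ℝ) - 2)))) := by
  unfold P
  rw [split2 _ g m h ((1 / (x ^ 2 + ((q : ℝ) - 1))) * (1 / (x ^ 2 + x + ((q : ℝ) - 2))))]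
  · rw [e_self, e_self, e_ne x h.symm, Z2_self, Z3_self, Z3_two x h]
    ring
  · intro u hu hm
    rw [e_ne x hu.symm, e_ne x h.symm, e_ne x hm, Z2_self, Z3_two x hu]
    ring

theorem P_ne_le {g m : Fin q} (h : m ≠ g) : P x g m ≤ 3 / x ^ 3 := by
  rw [H.P_ne h]
  have hx := H.x0
  have hq := H.Q3
  have hqx := H.qx
  have hA : 0 < (q : ℝ) - 1 := by linarith
  have hB : 0 < (q : ℝ) - 2 := by linarith
  have hBx : (q : ℝ) - 2 ≤ x := by linarith
  generalize (q : ℝ) - 1 = A at *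
  generalize (q : ℝ) - 2 = B at *
  have h1 : (x ^ 2 / (x ^ 2 + A)) * (1 / (x ^ 3 + A)) ≤ 1 / x ^ 3 := by
    calc _ ≤ 1 * (1 / x ^ 3) := by
          gcongr
          · rw [div_le_one (by positivity)]; linarith
          · linarith
      _ = _ := one_mul _
  have h2 : (1 / (x ^ 2 + A)) * (x / (x ^ 2 + x + B)) ≤ 1 / x ^ 3 := by
    calc _ ≤ (1 / x ^ 2) * (x / x ^ 2) := by
          gcongr
          · linarith
          · linarith
      _ = _ := by field_simp
  have h3 : B * ((1 / (x ^ 2 + A)) * (1 / (x ^ 2 + x + B))) ≤ 1 / x ^ 3 := by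
    calc _ ≤ x * ((1 / x ^ 2) * (1 / x ^ 2)) := by
          gcongr
          · linarith
          · linarith
      _ = _ := by field_simp
  calc _ ≤ 1 / x ^ 3 + 1 / x ^ 3 + 1 / x ^ 3 := by linarith
    _ = 3 / x ^ 3 := by ring

end Hyp

end Pool.Agent.H984R2.Potts
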