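import Mathlib
import Pool.Agent.H984R2.PottsB

set_option autoImplicit false

namespace Pool.Agent.H984R2.Potts

open Finset

variable {q : ℕ}

theorem inv_lb {X E : ℝ} (hX : 0 < X) (hE : 0 ≤ E) (h : E ≤ X / 1000) :
    999 / 1000 / X ≤ 1 / (X + E) := by
  rw [div_le_div_iff₀ hX (by positivity)]
  nlinarith

theorem Z4_gggg (x : ℝ) (g : Fin q) : Z4 x g g g g = x ^ 4 + ((q : ℝ) - 1) := by
  unfold Z4
  rw [split1 _ g 1 (fun u hu => by rw [e_ne x hu.symm]; norm_num), e_self]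
  ring

theorem Z4_ggrg (x : ℝ) {g r : Fin q} (h : r ≠ g) :
    Z4 x g g r g = x ^ 3 + x + ((q : ℝ) - 2) := by
  unfold Z4
  rw [split2 _ g r h 1 (fun u hu hv => by rw [e_ne x hu.symm, e_ne x hv.symm]; norm_num), e_self,
    e_self, e_ne x h, e_ne x h.symm]
  ring

theorem Z4_grgg (x : ℝ) {g r : Fin q} (h : r ≠ g) :
    Z4 x g r g g = x ^ 3 + x + ((q : ℝ) - 2) := by
  unfold Z4
  rw [split2 _ g r h 1 (fun u hu hv => by rw [e_ne x hu.symm, e_ne x hv.symm]; norm_num), e_self,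
    e_self, e_ne x h, e_ne x h.symm]
  ring

theorem Z4_grrg (x : ℝ) {g r : Fin q} (h : r ≠ g) :
    Z4 x g r r g = 2 * x ^ 2 + ((q : ℝ) - 2) := by
  unfold Z4
  rw [split2 _ g r h 1 (fun u hu hv => by rw [e_ne x hu.symm, e_ne x hv.symm]; norm_num), e_self,
    e_self, e_ne x h, e_ne x h.symm]
  ring

theorem Z4_grtg (x : ℝ) {g r t : Fin q} (hr : r ≠ g) (ht : t ≠ g) (htr : t ≠ r) :
    Z4 x g r t g = x ^ 2 + 2 * x + ((q : ℝ) - 3) := by
  unfold Z4
  rw [split3 _ g r t hr ht htr 1 (fun u hu hv hw => by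
    rw [e_ne x hu.symm, e_ne x hv.symm, e_ne x hw.symm]; norm_num), e_self, e_self, e_self,
    e_ne x hr, e_ne x hr.symm, e_ne x ht, e_ne x ht.symm, e_ne x htr, e_ne x htr.symm]
  ring

theorem Z3_aba (x : ℝ) {a b : Fin q} (h : b ≠ a) : Z3 x a b a = x ^ 2 + x + ((q : ℝ) - 2) := by
  rw [Z3_rot, Z3_rot, Z3_two x h]

theorem Z3_abb (x : ℝ) {a b : Fin q} (h : b ≠ a) : Z3 x a b b = x ^ 2 + x + ((q : ℝ) - 2) := by
  rw [Z3_rot, Z3_two x h.symm]

namespace Hyp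

variable {x : ℝ} (H : Hyp q x)
include H

/-! numerical facts -/

theorem A0 : 0 ≤ (q : ℝ) - 1 := by linarith [H.Q3]
theorem B0 : 0 ≤ (q : ℝ) - 2 := by linarith [H.Q3]
theorem C0 : 0 ≤ (q : ℝ) - 3 := by linarith [H.Q3]

theorem xk2 : 27000 * x ≤ x ^ 2 := by nlinarith [H.x27]
theorem xk3 : 27000 * x ^ 2 ≤ x ^ 3 := by
  have := H.x27
  calc 27000 * x ^ 2 ≤ x * x ^ 2 := by gcongr
    _ = x ^ 3 := by ring
theorem xk4 : 27000 * x ^ 3 ≤ x ^ 4 := by
  have := H.x27; have := H.x0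
  calc 27000 * x ^ 3 ≤ x * x ^ 3 := by gcongr
    _ = x ^ 4 := by ring

theorem i2A : 999 / 1000 / x ^ 2 ≤ 1 / (x ^ 2 + ((q : ℝ) - 1)) :=
  inv_lb (by have := H.x0; positivity) H.A0 (by linarith [H.xk2, H.qx, H.x27])
theorem i3A : 999 / 1000 / x ^ 3 ≤ 1 / (x ^ 3 + ((q : ℝ) - 1)) :=
  inv_lb (by have := H.x0; positivity) H.A0 (by linarith [H.xk2, H.xk3, H.qx, H.x27])
theorem i4A : 999 / 1000 / x ^ 4 ≤ 1 / (x ^ 4 + ((q : ℝ) - 1)) :=
  inv_lb (by have := H.x0; positivity) H.A0 (by linarith [H.xk2, H.xk3, H.xk4, H.qx, H.x27])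
theorem i21B : 999 / 1000 / x ^ 2 ≤ 1 / (x ^ 2 + x + ((q : ℝ) - 2)) := by
  rw [add_assoc]
  exact inv_lb (by have := H.x0; positivity) (by linarith [H.B0, H.x0])
    (by linarith [H.xk2, H.qx, H.x27])
theorem i31B : 999 / 1000 / x ^ 3 ≤ 1 / (x ^ 3 + x + ((q : ℝ) - 2)) := by
  rw [add_assoc]
  exact inv_lb (by have := H.x0; positivity) (by linarith [H.B0, H.x0])
    (by linarith [H.xk2, H.xk3, H.qx, H.x27])
theorem i22C : 999 / 1000 / x ^ 2 ≤ 1 / (x ^ 2 + 2 * x + ((q : ℝ) - 3)) := by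
  rw [add_assoc]
  exact inv_lb (by have := H.x0; positivity) (by linarith [H.C0, H.x0])
    (by linarith [H.xk2, H.qx, H.x27])
theorem i1B : 999 / 1000 / (2 * x) ≤ 1 / (2 * x + ((q : ℝ) - 2)) :=
  inv_lb (by have := H.x0; positivity) H.B0 (by linarith [H.qx, H.x27])
theorem i1C : 999 / 1000 / (3 * x) ≤ 1 / (3 * x + ((q : ℝ) - 3)) :=
  inv_lb (by have := H.x0; positivity) H.C0 (by linarith [H.qx, H.x27])
theorem i2B : 999 / 1000 / (2 * x ^ 2) ≤ 1 / (2 * x ^ 2 + ((q : ℝ) - 2)) :=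
  inv_lb (by have := H.x0; positivity) H.B0 (by linarith [H.xk2, H.qx, H.x27])

/-! lower bounds for the factors -/

theorem P_g_lb (g : Fin q) : 998 / 1000 ≤ P x g g := by
  have h : (e x g g * e x g g / Z2 x g g) * (e x g g * e x g g * e x g g / Z3 x g g g) ≤ P x g g := by
    unfold P
    refine Finset.single_le_sum (f := fun c => (e x g c * e x g c / Z2 x g g) *
      (e x g g * e x g g * e x c g / Z3 x g g c)) (fun c _ => ?_) (Finset.mem_univ g)
    have := H.Z2_pos g g; have := H.Z3_pos g g c; have := H.e0 g c; have := H.e0 g g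
    have := H.e0 c g
    positivity
  refine le_trans ?_ h
  rw [e_self, Z2_self, Z3_self]
  have hx := H.x0
  calc (998 / 1000 : ℝ) ≤ (x * x * (999 / 1000 / x ^ 2)) * (x * x * x * (999 / 1000 / x ^ 3)) := by
        have : (x * x * (999 / 1000 / x ^ 2)) * (x * x * x * (999 / 1000 / x ^ 3)) =
          (999 / 1000) ^ 2 := by field_simp
        rw [this]; norm_num
    _ ≤ (x * x * (1 / (x ^ 2 + ((q : ℝ) - 1)))) * (x * x * x * (1 / (x ^ 3 + ((q : ℝ) - 1)))) := by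
        have h1 := H.i2A
        have h2 := H.i3A
        have h0 : 0 ≤ x * x * (1 / (x ^ 2 + ((q : ℝ) - 1))) := by have := H.A0; positivity
        gcongr
    _ = _ := by ring

theorem P_ne_lb {g t : Fin q} (h : t ≠ g) : 199 / 100 / x ^ 3 ≤ P x g t := by
  rw [H.P_ne h]
  have hx := H.x0
  have h2A := H.i2A
  have h3A := H.i3A
  have h21 := H.i21B
  have hA : 0 < x ^ 2 + ((q : ℝ) - 1) := by have := H.A0; positivity
  have hB : 0 < x ^ 2 + x + ((q : ℝ) - 2) := by have := H.B0; positivity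
  have e1 : (999 / 1000) ^ 2 / x ^ 3 ≤
      (x ^ 2 / (x ^ 2 + ((q : ℝ) - 1))) * (1 / (x ^ 3 + ((q : ℝ) - 1))) := by
    calc (999 / 1000) ^ 2 / x ^ 3 = (x ^ 2 * (999 / 1000 / x ^ 2)) * (999 / 1000 / x ^ 3) := by
          field_simp
      _ ≤ (x ^ 2 * (1 / (x ^ 2 + ((q : ℝ) - 1)))) * (1 / (x ^ 3 + ((q : ℝ) - 1))) := by gcongr
      _ = _ := by ring
  have e2 : (999 / 1000) ^ 2 / x ^ 3 ≤
      (1 / (x ^ 2 + ((q : ℝ) - 1))) * (x / (x ^ 2 + x + ((q : ℝ) - 2))) := by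
    calc (999 / 1000) ^ 2 / x ^ 3 = (999 / 1000 / x ^ 2) * (x * (999 / 1000 / x ^ 2)) := by
          field_simp
      _ ≤ (1 / (x ^ 2 + ((q : ℝ) - 1))) * (x * (1 / (x ^ 2 + x + ((q : ℝ) - 2)))) := by gcongr
      _ = _ := by ring
  have e3 : 0 ≤ ((q : ℝ) - 2) *
      ((1 / (x ^ 2 + ((q : ℝ) - 1))) * (1 / (x ^ 2 + x + ((q : ℝ) - 2)))) := by
    have := H.B0; positivity
  have e4 : 199 / 100 / x ^ 3 ≤ (999 / 1000) ^ 2 / x ^ 3 + (999 / 1000) ^ 2 / x ^ 3 := by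
    rw [← add_div]; gcongr; norm_num
  linarith

theorem K3_ggg (g : Fin q) : 999 / 1000 ≤ K3 x g g g := by
  unfold K3
  rw [e_self, Z2_self]
  have hx := H.x0
  calc (999 / 1000 : ℝ) = x * x * (999 / 1000 / x ^ 2) := by field_simp
    _ ≤ x * x * (1 / (x ^ 2 + ((q : ℝ) - 1))) := by have := H.i2A; gcongr
    _ = _ := by ring

theorem K3_ggr {g r : Fin q} (h : r ≠ g) : 999 / 1000 / x ^ 2 ≤ K3 x g g r := by
  unfold K3
  rw [e_ne x h.symm, Z2_self, mul_one]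
  exact H.i2A

theorem K3_grr {g r : Fin q} (h : r ≠ g) : K3 x g r r = x / (2 * x + ((q : ℝ) - 2)) := by
  unfold K3
  rw [e_ne x h.symm, e_self, Z2_ne x h, one_mul]

theorem K3_grg {g r : Fin q} (h : r ≠ g) : K3 x g r g = x / (2 * x + ((q : ℝ) - 2)) := by
  unfold K3
  rw [e_ne x h, e_self, Z2_ne x h, mul_one]

theorem K3_grt {g r t : Fin q} (h : r ≠ g) (ht : t ≠ g) (htr : t ≠ r) :
    K3 x g r t = 1 / (2 * x + ((q : ℝ) - 2)) := by
  unfold K3
  rw [e_ne x ht.symm, e_ne x htr.symm, Z2_ne x h, mul_one]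

theorem half_lb : 499 / 1000 ≤ x / (2 * x + ((q : ℝ) - 2)) := by
  have hx := H.x0
  calc (499 / 1000 : ℝ) ≤ x * (999 / 1000 / (2 * x)) := by
        have : x * (999 / 1000 / (2 * x)) = 999 / 2000 := by field_simp; norm_num
        rw [this]; norm_num
    _ ≤ x * (1 / (2 * x + ((q : ℝ) - 2))) := by have := H.i1B; gcongr
    _ = _ := by ring

theorem half_lb' : 499 / 1000 / x ≤ 1 / (2 * x + ((q : ℝ) - 2)) := by
  have hx := H.x0
  refine le_trans ?_ H.i1B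
  have : 999 / 1000 / (2 * x) = 999 / 2000 / x := by field_simp; norm_num
  rw [this]
  exact div_le_div_of_nonneg_right (by norm_num) hx.le

theorem K0_gggg (g : Fin q) : 999 / 1000 ≤ K0 x g g g g := by
  unfold K0
  rw [e_self, Z4_gggg]
  have hx := H.x0
  calc (999 / 1000 : ℝ) = x * x * x * x * (999 / 1000 / x ^ 4) := by field_simp
    _ ≤ x * x * x * x * (1 / (x ^ 4 + ((q : ℝ) - 1))) := by have := H.i4A; gcongr
    _ = _ := by ring

theorem K0_ggrg {g r : Fin q} (h : r ≠ g) : 999 / 1000 ≤ K0 x g g r g := by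
  unfold K0
  rw [e_self, e_ne x h, Z4_ggrg x h]
  have hx := H.x0
  calc (999 / 1000 : ℝ) = x * x * 1 * x * (999 / 1000 / x ^ 3) := by field_simp
    _ ≤ x * x * 1 * x * (1 / (x ^ 3 + x + ((q : ℝ) - 2))) := by have := H.i31B; gcongr
    _ = _ := by ring

theorem K0_grrg {g r : Fin q} (h : r ≠ g) : 499 / 1000 ≤ K0 x g r r g := by
  unfold K0
  rw [e_self, e_ne x h, Z4_grrg x h]
  have hx := H.x0
  calc (499 / 1000 : ℝ) ≤ x * 1 * 1 * x * (999 / 1000 / (2 * x ^ 2)) := by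
        have : x * 1 * 1 * x * (999 / 1000 / (2 * x ^ 2)) = 999 / 2000 := by field_simp; norm_num
        rw [this]; norm_num
    _ ≤ x * 1 * 1 * x * (1 / (2 * x ^ 2 + ((q : ℝ) - 2))) := by have := H.i2B; gcongr
    _ = _ := by ring

theorem K0_grtg {g r t : Fin q} (h : r ≠ g) (ht : t ≠ g) (htr : t ≠ r) :
    999 / 1000 ≤ K0 x g r t g := by
  unfold K0
  rw [e_self, e_ne x h, e_ne x ht, Z4_grtg x h ht htr]
  have hx := H.x0
  calc (999 / 1000 : ℝ) = x * 1 * 1 * x * (999 / 1000 / x ^ 2) := by field_simp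
    _ ≤ x * 1 * 1 * x * (1 / (x ^ 2 + 2 * x + ((q : ℝ) - 3))) := by have := H.i22C; gcongr
    _ = _ := by ring

theorem K0_gggr {g r : Fin q} (h : r ≠ g) : 999 / 1000 / x ^ 4 ≤ K0 x g g g r := by
  unfold K0
  rw [e_ne x h.symm, Z4_gggg, mul_one, mul_one, mul_one]
  exact H.i4A

theorem K0_ggtr {g r t : Fin q} (h : r ≠ g) (ht : t ≠ g) (htr : t ≠ r) :
    999 / 1000 / x ^ 3 ≤ K0 x g g t r := by
  unfold K0
  rw [e_ne x h.symm, e_ne x htr, Z4_ggrg x ht, mul_one, mul_one, mul_one]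
  exact H.i31B

theorem K0_gttr {g r t : Fin q} (h : r ≠ g) (ht : t ≠ g) (htr : t ≠ r) :
    499 / 1000 / x ^ 2 ≤ K0 x g t t r := by
  unfold K0
  rw [e_ne x h.symm, e_ne x htr, Z4_grrg x ht, mul_one, mul_one, mul_one]
  have hx := H.x0
  refine le_trans ?_ H.i2B
  have : 999 / 1000 / (2 * x ^ 2) = 999 / 2000 / x ^ 2 := by field_simp; norm_num
  rw [this]
  exact div_le_div_of_nonneg_right (by norm_num) (by positivity)

theorem K1_gggg (g : Fin q) : 999 / 1000 ≤ K1 x g g g g := by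
  unfold K1
  rw [e_self, Z3_self]
  have hx := H.x0
  calc (999 / 1000 : ℝ) = x * x * x * (999 / 1000 / x ^ 3) := by field_simp
    _ ≤ x * x * x * (1 / (x ^ 3 + ((q : ℝ) - 1))) := by have := H.i3A; gcongr
    _ = _ := by ring

theorem K1_gggr {g r : Fin q} (h : r ≠ g) : 999 / 1000 / x ^ 3 ≤ K1 x g g g r := by
  unfold K1
  rw [e_ne x h.symm, Z3_self, mul_one, mul_one]
  exact H.i3A

theorem K1_ggrr {g r : Fin q} (h : r ≠ g) : 999 / 1000 / x ≤ K1 x g g r r := by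
  unfold K1
  rw [e_ne x h.symm, e_self, Z3_aba x h]
  have hx := H.x0
  calc 999 / 1000 / x = 1 * x * 1 * (999 / 1000 / x ^ 2) := by field_simp
    _ ≤ 1 * x * 1 * (1 / (x ^ 2 + x + ((q : ℝ) - 2))) := by have := H.i21B; gcongr
    _ = _ := by ring

theorem K1_grgg {g r : Fin q} (h : r ≠ g) : 999 / 1000 ≤ K1 x g r g g := by
  unfold K1
  rw [e_ne x h, e_self, Z3_abb x h.symm]
  have hx := H.x0
  calc 999 / 1000 = 1 * x * x * (999 / 1000 / x ^ 2) := by field_simp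
    _ ≤ 1 * x * x * (1 / (x ^ 2 + x + ((q : ℝ) - 2))) := by have := H.i21B; gcongr
    _ = _ := by ring

theorem K1_grtg {g r t : Fin q} (h : r ≠ g) (ht : t ≠ g) (htr : t ≠ r) :
    333 / 1000 - 1 / 1000 ≤ K1 x g r t g := by
  unfold K1
  rw [e_ne x h, e_ne x ht, e_self, Z3_three x htr h.symm ht.symm]
  have hx := H.x0
  calc (333 / 1000 - 1 / 1000 : ℝ) ≤ 1 * 1 * x * (999 / 1000 / (3 * x)) := by
        have : 1 * 1 * x * (999 / 1000 / (3 * x)) = 333 / 1000 := by field_simp; norm_num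
        rw [this]; norm_num
    _ ≤ 1 * 1 * x * (1 / (3 * x + ((q : ℝ) - 3))) := by have := H.i1C; gcongr
    _ = _ := by ring

theorem nu_lb {g a b c m : Fin q} {p k3 k0 k1 : ℝ} (hp : p ≤ P x g m) (h3 : k3 ≤ K3 x g m c)
    (h0 : k0 ≤ K0 x g m c a) (h1 : k1 ≤ K1 x g a m b) (p0 : 0 ≤ p) (k30 : 0 ≤ k3) (k00 : 0 ≤ k0)
    (k10 : 0 ≤ k1) : p * k3 * k0 * k1 ≤ nu x g a b c m := by
  unfold nu
  have := H.P_nonneg g m
  have := H.K3_pos g m c
  have := H.K0_pos g m c a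
  gcongr

theorem nu_le_S (g a b c m : Fin q) : nu x g a b c m ≤ S x g a b c :=
  Finset.single_le_sum (f := fun m => nu x g a b c m) (fun u _ => H.nu_nonneg g a b c u)
    (Finset.mem_univ m)

theorem nu_two_le_S (g a b c : Fin q) {m n : Fin q} (h : m ≠ n) :
    nu x g a b c m + nu x g a b c n ≤ S x g a b c := by
  rw [← Finset.sum_pair h]
  exact Finset.sum_le_sum_of_subset_of_nonneg (Finset.subset_univ _)
    fun u _ _ => H.nu_nonneg g a b c u

/-! lower bounds for `S` -/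

theorem S_ggg (g : Fin q) : 99 / 100 ≤ S x g g g g := by
  refine le_trans ?_ (H.nu_le_S g g g g g)
  refine le_trans ?_ (H.nu_lb (H.P_g_lb g) (H.K3_ggg g) (H.K0_gggg g) (H.K1_gggg g)
    (by norm_num) (by norm_num) (by norm_num) (by norm_num))
  norm_num

theorem S_ggr {g r : Fin q} (h : r ≠ g) : 99 / 100 / x ^ 2 ≤ S x g g g r := by
  have hx := H.x0
  refine le_trans ?_ (H.nu_le_S g g g r g)
  refine le_trans ?_ (H.nu_lb (H.P_g_lb g) (H.K3_ggr h) (H.K0_ggrg h) (H.K1_gggg g)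
    (by norm_num) (by positivity) (by norm_num) (by norm_num))
  rw [show (998 / 1000 * (999 / 1000 / x ^ 2) * (999 / 1000) * (999 / 1000) : ℝ) =
    (998 / 1000 * (999 / 1000) * (999 / 1000) * (999 / 1000)) / x ^ 2 by ring]
  exact div_le_div_of_nonneg_right (by norm_num) (by positivity)

theorem S_grg {g r : Fin q} (h : r ≠ g) : 99 / 100 / x ^ 3 ≤ S x g g r g := by
  have hx := H.x0
  refine le_trans ?_ (H.nu_le_S g g r g g)
  refine le_trans ?_ (H.nu_lb (H.P_g_lb g) (H.K3_ggg g) (H.K0_gggg g) (H.K1_gggr h)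
    (by norm_num) (by positivity) (by norm_num) (by positivity))
  rw [show (998 / 1000 * (999 / 1000) * (999 / 1000) * (999 / 1000 / x ^ 3) : ℝ) =
    (998 / 1000 * (999 / 1000) * (999 / 1000) * (999 / 1000)) / x ^ 3 by ring]
  exact div_le_div_of_nonneg_right (by norm_num) (by positivity)

theorem S_grr {g r : Fin q} (h : r ≠ g) : 49 / 100 / x ^ 4 ≤ S x g g r r := by
  have hx := H.x0
  refine le_trans ?_ (H.nu_le_S g g r r r)
  refine le_trans ?_ (H.nu_lb (H.P_ne_lb h) (le_of_le_of_eq H.half_lb (H.K3_grr h).symm)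
    (H.K0_grrg h) (H.K1_ggrr h) (by positivity) (by positivity) (by norm_num) (by positivity))
  rw [show (199 / 100 / x ^ 3 * (499 / 1000) * (499 / 1000) * (999 / 1000 / x) : ℝ) =
    (199 / 100 * (499 / 1000) * (499 / 1000) * (999 / 1000)) / x ^ 4 by ring]
  exact div_le_div_of_nonneg_right (by norm_num) (by positivity)

theorem S_grt {g r t : Fin q} (h : r ≠ g) (ht : t ≠ g) (htr : t ≠ r) :
    197 / 100 / x ^ 5 ≤ S x g g r t := by
  have hx := H.x0
  refine le_trans ?_ (H.nu_two_le_S g g r t (m := g) (n := r) h.symm)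
  have h1 := H.nu_lb (c := t) (H.P_g_lb g) (H.K3_ggr ht) (H.K0_ggrg ht) (H.K1_gggr h)
    (by norm_num) (by positivity) (by norm_num) (by positivity)
  have h2 := H.nu_lb (c := t) (H.P_ne_lb h) (le_of_le_of_eq H.half_lb' (H.K3_grt h ht htr).symm)
    (H.K0_grtg h ht htr) (H.K1_ggrr h) (by positivity) (by positivity) (by norm_num)
    (by positivity)
  rw [show (998 / 1000 * (999 / 1000 / x ^ 2) * (999 / 1000) * (999 / 1000 / x ^ 3) : ℝ) =
    (998 / 1000 * (999 / 1000) * (999 / 1000) * (999 / 1000)) / x ^ 5 by ring] at h1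
  rw [show (199 / 100 / x ^ 3 * (499 / 1000 / x) * (999 / 1000) * (999 / 1000 / x) : ℝ) =
    (199 / 100 * (499 / 1000) * (999 / 1000) * (999 / 1000)) / x ^ 5 by ring] at h2
  refine le_trans ?_ (add_le_add h1 h2)
  rw [← add_div]
  exact div_le_div_of_nonneg_right (by norm_num) (by positivity)

theorem S_rgg {g r : Fin q} (h : r ≠ g) : 99 / 100 / x ^ 4 ≤ S x g r g g := by
  have hx := H.x0
  refine le_trans ?_ (H.nu_le_S g r g g g)
  refine le_trans ?_ (H.nu_lb (H.P_g_lb g) (H.K3_ggg g) (H.K0_gggr h) (H.K1_grgg h)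
    (by norm_num) (by positivity) (by positivity) (by positivity))
  rw [show (998 / 1000 * (999 / 1000) * (999 / 1000 / x ^ 4) * (999 / 1000) : ℝ) =
    (998 / 1000 * (999 / 1000) * (999 / 1000) * (999 / 1000)) / x ^ 4 by ring]
  exact div_le_div_of_nonneg_right (by norm_num) (by positivity)

theorem S_rgt {g r t : Fin q} (h : r ≠ g) (ht : t ≠ g) (htr : t ≠ r) :
    115 / 100 / x ^ 5 ≤ S x g r g t := by
  have hx := H.x0
  refine le_trans ?_ (H.nu_two_le_S g r g t (m := g) (n := t) ht.symm)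
  have h1 := H.nu_lb (c := t) (H.P_g_lb g) (H.K3_ggr ht) (H.K0_ggtr h ht htr) (H.K1_grgg h)
    (by norm_num) (by positivity) (by positivity) (by positivity)
  have h2 := H.nu_lb (c := t) (H.P_ne_lb ht) (le_of_le_of_eq H.half_lb (H.K3_grr ht).symm)
    (H.K0_gttr h ht htr) (H.K1_grtg h ht htr) (by positivity) (by positivity) (by positivity)
    (by norm_num)
  rw [show (998 / 1000 * (999 / 1000 / x ^ 2) * (999 / 1000 / x ^ 3) * (999 / 1000) : ℝ) =
    (998 / 1000 * (999 / 1000) * (999 / 1000) * (999 / 1000)) / x ^ 5 by ring] at h1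
  rw [show (199 / 100 / x ^ 3 * (499 / 1000) * (499 / 1000 / x ^ 2) * (333 / 1000 - 1 / 1000) : ℝ) =
    (199 / 100 * (499 / 1000) * (499 / 1000) * (332 / 1000)) / x ^ 5 by ring] at h2
  refine le_trans ?_ (add_le_add h1 h2)
  rw [← add_div]
  exact div_le_div_of_nonneg_right (by norm_num) (by positivity)

end Hyp

end Pool.Agent.H984R2.Potts
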