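import Mathlib
import Pool.Agent.H984R2.PottsC

set_option autoImplicit false

namespace Pool.Agent.H984R2.Potts

open Finset

variable {q : ℕ}

namespace Hyp

variable {x : ℝ} (H : Hyp q x)
include H

/-! ### upper bounds for `nu` -/

theorem nu_le_g {g a b c : Fin q} (ha : a ≠ g) :
    nu x g a b c g ≤ e x g c * e x c a * e x a b * e x g b ^ 2 / x ^ 7 := by
  have hx := H.x0
  have h3 := H.K3_le g g c
  have h0 := H.K0_le g g c a
  have h1 := H.K1_le_g g a g b
  rw [e_self] at h3 h0 h1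
  rw [e_ne x ha.symm] at h0 h1
  have k3 := H.K3_pos g g c
  have k0 := H.K0_pos g g c a
  have k1 := H.K1_pos g a g b
  have e1 := H.e0 g c
  have e2 := H.e0 c a
  have e3 := H.e0 a b
  have e4 := H.e0 g b
  unfold nu
  calc P x g g * K3 x g g c * K0 x g g c a * K1 x g a g b
      ≤ 1 * (e x g c * e x g c / (x * x)) * (1 * 1 * e x c a * 1 / (x ^ 2 * (x * e x g c))) *
        (e x a b * e x g b * e x g b / (x * (1 * x))) := by
        have := H.P_le_one g g
        have := H.P_nonneg g g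
        gcongr
    _ = _ := by field_simp

theorem nu_le_a {g a b c : Fin q} (ha : a ≠ g) :
    nu x g a b c a ≤ 3 * e x a c ^ 2 * e x a b ^ 2 * e x g b / x ^ 7 := by
  have hx := H.x0
  have h3 := H.K3_le g a c
  have h0 := H.K0_le g a c a
  have h1 := H.K1_le_a g a a b
  rw [e_ne x ha.symm] at h3 h0 h1
  rw [e_self] at h0 h1
  rw [e_comm x c a] at h0
  have k3 := H.K3_pos g a c
  have k0 := H.K0_pos g a c a
  have k1 := H.K1_pos g a a b
  have e1 := H.e0 g c
  have e2 := H.e0 a c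
  have e3 := H.e0 a b
  have e4 := H.e0 g b
  unfold nu
  calc P x g a * K3 x g a c * K0 x g a c a * K1 x g a a b
      ≤ (3 / x ^ 3) * (e x g c * e x a c / (x * 1)) *
        (1 * x * e x a c * 1 / (x ^ 2 * (1 * e x g c))) *
        (e x a b * e x a b * e x g b / (x * (1 * x))) := by
        have := H.P_ne_le ha
        have := H.P_nonneg g a
        gcongr
    _ = _ := by field_simp

theorem nu_le_o {g a b c m : Fin q} (ha : a ≠ g) (hm : m ≠ g) (hma : m ≠ a) :
    nu x g a b c m ≤ 3 * e x m c * e x c a * e x a b * e x m b * e x g b / x ^ 7 := by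
  have hx := H.x0
  have h3 := H.K3_le g m c
  have h0 := H.K0_le g m c a
  have h1 := H.K1_le_g g a m b
  rw [e_ne x hm.symm] at h3 h0 h1
  rw [e_ne x ha.symm] at h0 h1
  rw [e_ne x hma] at h0
  have k3 := H.K3_pos g m c
  have k0 := H.K0_pos g m c a
  have k1 := H.K1_pos g a m b
  have e1 := H.e0 g c
  have e2 := H.e0 m c
  have e3 := H.e0 a b
  have e4 := H.e0 g b
  have e5 := H.e0 c a
  have e6 := H.e0 m b
  unfold nu
  calc P x g m * K3 x g m c * K0 x g m c a * K1 x g a m b
      ≤ (3 / x ^ 3) * (e x g c * e x m c / (x * 1)) *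
        (1 * 1 * e x c a * 1 / (x ^ 2 * (1 * e x g c))) *
        (e x a b * e x m b * e x g b / (x * (1 * 1))) := by
        have := H.P_ne_le hm
        have := H.P_nonneg g m
        gcongr
    _ = _ := by field_simp

theorem S_le_of {g a b c : Fin q} {k : ℝ} (h : ∀ m, nu x g a b c m ≤ k) :
    S x g a b c ≤ q * k := by
  unfold S
  calc ∑ m, nu x g a b c m ≤ ∑ _m : Fin q, k := Finset.sum_le_sum fun m _ => h m
    _ = q * k := by rw [Finset.sum_const, Finset.card_univ, Fintype.card_fin, nsmul_eq_mul]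

theorem div_le_aux {n : ℝ} {k : ℕ} {c : ℝ} (h : n ≤ c * x ^ k) (hk : k ≤ 7) :
    n / x ^ 7 ≤ c / x ^ (7 - k) := by
  have hx := H.x0
  rw [div_le_div_iff₀ (by positivity) (by positivity)]
  calc n * x ^ (7 - k) ≤ c * x ^ k * x ^ (7 - k) := by gcongr
    _ = c * x ^ 7 := by rw [mul_assoc, ← pow_add, Nat.add_sub_cancel' hk]

theorem S_rrr {g r : Fin q} (h : r ≠ g) : S x g r r r ≤ q * (3 / x ^ 3) := by
  have hx := H.x0
  have hx1 := H.x1
  refine H.S_le_of fun m => ?_
  by_cases hg : m = g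
  · subst hg
    refine (H.nu_le_g h).trans ?_
    rw [e_ne x h.symm, e_self]
    refine H.div_le_aux (k := 4) (c := 3) ?_ (by norm_num)
    nlinarith [pow_le_pow_right₀ hx1 (show 2 ≤ 4 by norm_num), pow_pos hx 2, pow_pos hx 4]
  by_cases hr : m = r
  · subst hr
    refine (H.nu_le_a h).trans ?_
    rw [e_ne x h.symm, e_self]
    refine H.div_le_aux (k := 4) (c := 3) ?_ (by norm_num)
    nlinarith
  · refine (H.nu_le_o h hg hr).trans ?_
    rw [e_ne x h.symm, e_self, e_ne x hr]
    refine H.div_le_aux (k := 4) (c := 3) ?_ (by norm_num)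
    nlinarith [pow_le_pow_right₀ hx1 (show 2 ≤ 4 by norm_num), pow_pos hx 2, pow_pos hx 4]

theorem S_rrc {g r c : Fin q} (h : r ≠ g) (hc : c ≠ r) : S x g r r c ≤ q * (3 / x ^ 5) := by
  have hx := H.x0
  have hx1 := H.x1
  refine H.S_le_of fun m => ?_
  by_cases hg : m = g
  · subst hg
    refine (H.nu_le_g h).trans ?_
    rw [e_ne x h.symm, e_self, e_ne x hc]
    refine H.div_le_aux (k := 2) (c := 3) ?_ (by norm_num)
    have := e_le hx1 m c
    nlinarith [H.e0 m c]
  by_cases hr : m = r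
  · subst hr
    refine (H.nu_le_a h).trans ?_
    rw [e_ne x h.symm, e_self, e_ne x hc.symm]
    refine H.div_le_aux (k := 2) (c := 3) ?_ (by norm_num)
    nlinarith
  · refine (H.nu_le_o h hg hr).trans ?_
    rw [e_ne x h.symm, e_self, e_ne x hr, e_ne x hc]
    refine H.div_le_aux (k := 2) (c := 3) ?_ (by norm_num)
    have := e_le hx1 m c
    nlinarith [H.e0 m c]

theorem S_rgr {g r : Fin q} (h : r ≠ g) : S x g r g r ≤ q * (3 / x ^ 4) := by
  have hx := H.x0
  have hx1 := H.x1
  refine H.S_le_of fun m => ?_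
  by_cases hg : m = g
  · subst hg
    refine (H.nu_le_g h).trans ?_
    rw [e_ne x h.symm, e_self, e_self, e_ne x h]
    refine H.div_le_aux (k := 3) (c := 3) ?_ (by norm_num)
    nlinarith [pow_pos hx 3]
  by_cases hr : m = r
  · subst hr
    refine (H.nu_le_a h).trans ?_
    rw [e_ne x h, e_self, e_self]
    refine H.div_le_aux (k := 3) (c := 3) ?_ (by norm_num)
    nlinarith
  · refine (H.nu_le_o h hg hr).trans ?_
    rw [e_ne x h, e_self, e_self, e_ne x hr, e_ne x hg]
    refine H.div_le_aux (k := 3) (c := 3) ?_ (by norm_num)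
    nlinarith [pow_le_pow_right₀ hx1 (show 2 ≤ 3 by norm_num)]

theorem S_rtr {g r t : Fin q} (h : r ≠ g) (ht : t ≠ g) (htr : t ≠ r) :
    S x g r t r ≤ q * (3 / x ^ 5) := by
  have hx := H.x0
  have hx1 := H.x1
  refine H.S_le_of fun m => ?_
  by_cases hg : m = g
  · subst hg
    refine (H.nu_le_g h).trans ?_
    rw [e_ne x h.symm, e_self, e_ne x htr.symm, e_ne x ht.symm]
    refine H.div_le_aux (k := 2) (c := 3) ?_ (by norm_num)
    nlinarith
  by_cases hr : m = r
  · subst hr
    refine (H.nu_le_a h).trans ?_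
    rw [e_ne x ht.symm, e_self, e_ne x htr.symm]
    refine H.div_le_aux (k := 2) (c := 3) ?_ (by norm_num)
    nlinarith
  · refine (H.nu_le_o h hg hr).trans ?_
    rw [e_ne x ht.symm, e_self, e_ne x hr, e_ne x htr.symm]
    refine H.div_le_aux (k := 2) (c := 3) ?_ (by norm_num)
    have := e_le hx1 m t
    nlinarith [H.e0 m t]

theorem S_rtc {g r t c : Fin q} (h : r ≠ g) (ht : t ≠ g) (htr : t ≠ r) (hcr : c ≠ r)
    (hct : c ≠ t) : S x g r t c ≤ q * (3 / x ^ 6) := by
  have hx := H.x0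
  have hx1 := H.x1
  refine H.S_le_of fun m => ?_
  by_cases hg : m = g
  · subst hg
    refine (H.nu_le_g h).trans ?_
    rw [e_ne x hcr, e_ne x htr.symm, e_ne x ht.symm]
    refine H.div_le_aux (k := 1) (c := 3) ?_ (by norm_num)
    have := e_le hx1 m c
    nlinarith [H.e0 m c]
  by_cases hr : m = r
  · subst hr
    refine (H.nu_le_a h).trans ?_
    rw [e_ne x ht.symm, e_ne x hcr.symm, e_ne x htr.symm]
    refine H.div_le_aux (k := 1) (c := 3) ?_ (by norm_num)
    nlinarith
  · refine (H.nu_le_o h hg hr).trans ?_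
    rw [e_ne x ht.symm, e_ne x hcr, e_ne x htr.symm]
    refine H.div_le_aux (k := 1) (c := 3) ?_ (by norm_num)
    by_cases hmc : m = c
    · subst hmc
      rw [e_ne x hct, e_self]; nlinarith
    · rw [e_ne x hmc]
      have := e_le hx1 m t
      nlinarith [H.e0 m t]

theorem nu_rttm {g r t m : Fin q} (h : r ≠ g) (ht : t ≠ g) (htr : t ≠ r) (hmt : m ≠ t) :
    nu x g r t t m ≤ 3 / x ^ 7 := by
  have hx := H.x0
  have hx1 := H.x1
  by_cases hg : m = g
  · subst hg
    refine (H.nu_le_g h).trans ?_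
    rw [e_ne x ht.symm, e_ne x htr, e_ne x htr.symm]
    refine H.div_le_aux (k := 0) (c := 3) ?_ (by norm_num)
    norm_num
  by_cases hr : m = r
  · subst hr
    refine (H.nu_le_a h).trans ?_
    rw [e_ne x ht.symm, e_ne x htr.symm]
    refine H.div_le_aux (k := 0) (c := 3) ?_ (by norm_num)
    norm_num
  · refine (H.nu_le_o h hg hr).trans ?_
    rw [e_ne x ht.symm, e_ne x htr, e_ne x htr.symm, e_ne x hmt]
    refine H.div_le_aux (k := 0) (c := 3) ?_ (by norm_num)
    norm_num

theorem nu_rgcr {g r c : Fin q} (h : r ≠ g) (hc : c ≠ r) :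
    nu x g r g c r ≤ 3 / x ^ 6 := by
  have hx := H.x0
  refine (H.nu_le_a h).trans ?_
  rw [e_ne x hc.symm, e_ne x h, e_self]
  refine H.div_le_aux (k := 1) (c := 3) ?_ (by norm_num)
  nlinarith

/-! ### bounds for `W` -/

theorem W_le {Z : ℝ} (hZ : (q : ℝ) * x ^ 7 ≤ Z) {g a b c : Fin q} {n : ℝ} {k : ℕ} (hk : k ≤ 7)
    (h : e x a b * e x a c * e x a g * e x b g * Z3 x a b c ≤ n * x ^ k) (hn : 0 ≤ n) :
    W x Z g a b c ≤ (n / 3) / x ^ (7 - k) := by
  have hx := H.x0
  have hq := H.Q3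
  have hq0 : (0 : ℝ) < q := by linarith
  unfold W
  have hZ0 : 0 < Z := lt_of_lt_of_le (by positivity) hZ
  calc _ ≤ n * x ^ k / Z := by gcongr
    _ ≤ n * x ^ k / (q * x ^ 7) := by gcongr
    _ ≤ n * x ^ k / (3 * x ^ 7) := by gcongr
    _ = (n / 3) / x ^ (7 - k) := by
        rw [div_div, div_eq_div_iff (by positivity) (by positivity)]
        calc n * x ^ k * (3 * x ^ (7 - k)) = n * (3 * (x ^ k * x ^ (7 - k))) := by ring
          _ = n * (3 * x ^ 7) := by rw [← pow_add, Nat.add_sub_cancel' hk]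

theorem W_ge {Z : ℝ} (hZ0 : 0 < Z) (hZ : Z ≤ 36 * (q : ℝ) * x ^ 7) {g a b c : Fin q} {k : ℕ}
    (hk : k ≤ 7) (h : x ^ k ≤ e x a b * e x a c * e x a g * e x b g * Z3 x a b c) :
    (q : ℝ) * (3 / x ^ (7 - k + 1)) ≤ W x Z g a b c := by
  have hx := H.x0
  have hq := H.Q3
  have hq0 : (0 : ℝ) < q := by linarith
  have hq2 := H.q2x
  unfold W
  calc (q : ℝ) * (3 / x ^ (7 - k + 1)) ≤ 1 / (36 * q * x ^ (7 - k)) := by
        rw [mul_div_assoc', div_le_div_iff₀ (by positivity) (by positivity), pow_succ]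
        have h1 : (q : ℝ) * 3 * (36 * q) ≤ x := by nlinarith
        calc (q : ℝ) * 3 * (36 * q * x ^ (7 - k)) = ((q : ℝ) * 3 * (36 * q)) * x ^ (7 - k) := by
              ring
          _ ≤ x * x ^ (7 - k) := by gcongr
          _ = _ := by ring
    _ = x ^ k / (36 * q * x ^ 7) := by
        rw [div_eq_div_iff (by positivity) (by positivity)]
        calc 1 * (36 * (q : ℝ) * x ^ 7) = 36 * q * (x ^ k * x ^ (7 - k)) := by
              rw [← pow_add, Nat.add_sub_cancel' hk]; ring
          _ = _ := by ring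
    _ ≤ x ^ k / Z := by gcongr
    _ ≤ _ := by gcongr

theorem Z3_ge1 (a b c : Fin q) (hab : a = b ∨ a = c) : x ^ 2 ≤ Z3 x a b c := by
  have h : e x a a * e x b a * e x c a ≤ Z3 x a b c :=
    Finset.single_le_sum (f := fun u => e x a u * e x b u * e x c u)
      (fun u _ => (mul_pos (mul_pos (H.e0 _ _) (H.e0 _ _)) (H.e0 _ _)).le) (Finset.mem_univ a)
  refine le_trans ?_ h
  have hx := H.x1
  have hx0 := H.x0
  rcases hab with hab | hab
  · subst hab
    rw [e_self]
    have := one_le_e hx c a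
    nlinarith
  · subst hab
    rw [e_self]
    have := one_le_e hx b a
    nlinarith

end Hyp

end Pool.Agent.H984R2.Potts
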