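import Mathlib
import Pool.Agent.H984R2.PottsD

set_option autoImplicit false

namespace Pool.Agent.H984R2.Potts

open Finset

variable {q : ℕ}

namespace Hyp

variable {x : ℝ} (H : Hyp q x)
include H

/-! ### surplus classes -/

theorem sur_ggg {Z : ℝ} (hZ : (q : ℝ) * x ^ 7 ≤ Z) (g : Fin q) :
    W x Z g g g g ≤ S x g g g g := by
  refine le_trans (H.W_le hZ (k := 7) (n := 1.1) (by norm_num) ?_ (by norm_num)) ?_
  · rw [e_self, Z3_self]
    have := H.x0
    calc x * x * x * x * (x ^ 3 + ((q : ℝ) - 1)) ≤ x * x * x * x * (1.1 * x ^ 3) := by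
          gcongr
          linarith [H.xk2, H.xk3, H.qx, H.x27]
      _ = _ := by ring
  · refine le_trans ?_ (H.S_ggg g)
    norm_num

theorem sur_ggr {Z : ℝ} (hZ : (q : ℝ) * x ^ 7 ≤ Z) {g r : Fin q} (h : r ≠ g) :
    W x Z g g g r ≤ S x g g g r := by
  have hx := H.x0
  refine le_trans (H.W_le hZ (k := 5) (n := 1.1) (by norm_num) ?_ (by norm_num)) ?_
  · rw [e_self, e_ne x h.symm, Z3_two x h]
    calc x * 1 * x * x * (x ^ 2 + x + ((q : ℝ) - 2)) ≤ x * 1 * x * x * (1.1 * x ^ 2) := by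
          gcongr
          linarith [H.xk2, H.xk3, H.qx, H.x27]
      _ = _ := by ring
  · refine le_trans ?_ (H.S_ggr h)
    exact div_le_div_of_nonneg_right (by norm_num) (by positivity)

theorem sur_grg {Z : ℝ} (hZ : (q : ℝ) * x ^ 7 ≤ Z) {g r : Fin q} (h : r ≠ g) :
    W x Z g g r g ≤ S x g g r g := by
  have hx := H.x0
  refine le_trans (H.W_le hZ (k := 4) (n := 1.1) (by norm_num) ?_ (by norm_num)) ?_
  · rw [e_self, e_ne x h.symm, e_ne x h, Z3_aba x h]
    calc 1 * x * x * 1 * (x ^ 2 + x + ((q : ℝ) - 2)) ≤ 1 * x * x * 1 * (1.1 * x ^ 2) := by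
          gcongr
          linarith [H.xk2, H.xk3, H.qx, H.x27]
      _ = _ := by ring
  · refine le_trans ?_ (H.S_grg h)
    exact div_le_div_of_nonneg_right (by norm_num) (by positivity)

theorem sur_grr {Z : ℝ} (hZ : (q : ℝ) * x ^ 7 ≤ Z) {g r : Fin q} (h : r ≠ g) :
    W x Z g g r r ≤ S x g g r r := by
  have hx := H.x0
  refine le_trans (H.W_le hZ (k := 3) (n := 1.1) (by norm_num) ?_ (by norm_num)) ?_
  · rw [e_self, e_ne x h.symm, e_ne x h, Z3_abb x h]
    calc 1 * 1 * x * 1 * (x ^ 2 + x + ((q : ℝ) - 2)) ≤ 1 * 1 * x * 1 * (1.1 * x ^ 2) := by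
          gcongr
          linarith [H.xk2, H.xk3, H.qx, H.x27]
      _ = _ := by ring
  · refine le_trans ?_ (H.S_grr h)
    exact div_le_div_of_nonneg_right (by norm_num) (by positivity)

theorem sur_grt {Z : ℝ} (hZ : (q : ℝ) * x ^ 7 ≤ Z) {g r t : Fin q} (h : r ≠ g) (ht : t ≠ g)
    (htr : t ≠ r) : W x Z g g r t ≤ S x g g r t := by
  have hx := H.x0
  refine le_trans (H.W_le hZ (k := 2) (n := 3.3) (by norm_num) ?_ (by norm_num)) ?_
  · rw [e_self, e_ne x h.symm, e_ne x h, e_ne x ht.symm, Z3_three x h ht htr]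
    calc 1 * 1 * x * 1 * (3 * x + ((q : ℝ) - 3)) ≤ 1 * 1 * x * 1 * (3.3 * x) := by
          gcongr
          linarith [H.xk2, H.xk3, H.qx, H.x27]
      _ = _ := by ring
  · refine le_trans ?_ (H.S_grt h ht htr)
    exact div_le_div_of_nonneg_right (by norm_num) (by positivity)

theorem sur_rgg {Z : ℝ} (hZ : (q : ℝ) * x ^ 7 ≤ Z) {g r : Fin q} (h : r ≠ g) :
    W x Z g r g g ≤ S x g r g g := by
  have hx := H.x0
  refine le_trans (H.W_le hZ (k := 3) (n := 1.1) (by norm_num) ?_ (by norm_num)) ?_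
  · rw [e_self, e_ne x h, Z3_abb x h.symm]
    calc 1 * 1 * 1 * x * (x ^ 2 + x + ((q : ℝ) - 2)) ≤ 1 * 1 * 1 * x * (1.1 * x ^ 2) := by
          gcongr
          linarith [H.xk2, H.xk3, H.qx, H.x27]
      _ = _ := by ring
  · refine le_trans ?_ (H.S_rgg h)
    exact div_le_div_of_nonneg_right (by norm_num) (by positivity)

theorem sur_rgt {Z : ℝ} (hZ : (q : ℝ) * x ^ 7 ≤ Z) {g r t : Fin q} (h : r ≠ g) (ht : t ≠ g)
    (htr : t ≠ r) : W x Z g r g t ≤ S x g r g t := by
  have hx := H.x0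
  refine le_trans (H.W_le hZ (k := 2) (n := 3.3) (by norm_num) ?_ (by norm_num)) ?_
  · rw [e_self, e_ne x h, e_ne x htr.symm, Z3_three x h.symm htr ht]
    calc 1 * 1 * 1 * x * (3 * x + ((q : ℝ) - 3)) ≤ 1 * 1 * 1 * x * (3.3 * x) := by
          gcongr
          linarith [H.xk2, H.xk3, H.qx, H.x27]
      _ = _ := by ring
  · refine le_trans ?_ (H.S_rgt h ht htr)
    exact div_le_div_of_nonneg_right (by norm_num) (by positivity)

/-! ### deficit classes -/

theorem def_rrr {Z : ℝ} (hZ0 : 0 < Z) (hZ : Z ≤ 36 * (q : ℝ) * x ^ 7) {g r : Fin q}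
    (h : r ≠ g) : S x g r r r ≤ W x Z g r r r := by
  refine le_trans (H.S_rrr h) ?_
  have := H.x0
  refine le_trans (le_of_eq ?_) (H.W_ge hZ0 hZ (k := 5) (by norm_num) ?_)
  · norm_num
  · rw [e_self, e_ne x h, Z3_self]
    have := H.A0
    calc x ^ 5 = x * x * 1 * 1 * (x ^ 3) := by ring
      _ ≤ _ := by gcongr; linarith

theorem def_rrc {Z : ℝ} (hZ0 : 0 < Z) (hZ : Z ≤ 36 * (q : ℝ) * x ^ 7) {g r c : Fin q}
    (h : r ≠ g) (hc : c ≠ r) : S x g r r c ≤ W x Z g r r c := by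
  refine le_trans (H.S_rrc h hc) ?_
  have := H.x0
  refine le_trans (le_of_eq ?_) (H.W_ge hZ0 hZ (k := 3) (by norm_num) ?_)
  · norm_num
  · rw [e_self, e_ne x h, e_ne x hc.symm]
    have := H.Z3_ge1 r r c (Or.inl rfl)
    calc x ^ 3 = x * 1 * 1 * 1 * (x ^ 2) := by ring
      _ ≤ _ := by gcongr

theorem def_rgr {Z : ℝ} (hZ0 : 0 < Z) (hZ : Z ≤ 36 * (q : ℝ) * x ^ 7) {g r : Fin q}
    (h : r ≠ g) : S x g r g r ≤ W x Z g r g r := by
  refine le_trans (H.S_rgr h) ?_
  have := H.x0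
  refine le_trans (le_of_eq ?_) (H.W_ge hZ0 hZ (k := 4) (by norm_num) ?_)
  · norm_num
  · rw [e_self, e_self, e_ne x h]
    have := H.Z3_ge1 r g r (Or.inr rfl)
    calc x ^ 4 = 1 * x * 1 * x * (x ^ 2) := by ring
      _ ≤ _ := by gcongr

theorem def_rtr {Z : ℝ} (hZ0 : 0 < Z) (hZ : Z ≤ 36 * (q : ℝ) * x ^ 7) {g r t : Fin q}
    (h : r ≠ g) (ht : t ≠ g) (htr : t ≠ r) : S x g r t r ≤ W x Z g r t r := by
  refine le_trans (H.S_rtr h ht htr) ?_
  have := H.x0
  refine le_trans (le_of_eq ?_) (H.W_ge hZ0 hZ (k := 3) (by norm_num) ?_)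
  · norm_num
  · rw [e_self, e_ne x h, e_ne x htr.symm, e_ne x ht]
    have := H.Z3_ge1 r t r (Or.inr rfl)
    calc x ^ 3 = 1 * x * 1 * 1 * (x ^ 2) := by ring
      _ ≤ _ := by gcongr

/-! ### the gain in class `(r, g, r)` -/

theorem D1_eq (g r : Fin q) : S x g r g r - F x g r g r =
    ∑ m, (nu x g r g r m - N x g r g m * (e x r r * e x m r / Z2 x r m)) := by
  unfold S F
  rw [Finset.sum_sub_distrib]

/-- Term `m = s`, a colour different from `g` and `r`. -/
theorem T_s {g r s : Fin q} (h : r ≠ g) (hs : s ≠ g) (hsr : s ≠ r) :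
    7 / 100 / x ^ 5 ≤ nu x g r g r s - N x g r g s * (e x r r * e x s r / Z2 x r s) := by
  have hx := H.x0
  have hA := H.A0
  have hB := H.B0
  have hC := H.C0
  set p := P x g s with hp
  set k := K1 x g r s g with hk
  set u := 1 / (2 * x + ((q : ℝ) - 2)) with hu
  set w := 1 / (x ^ 2 + 2 * x + ((q : ℝ) - 3)) with hw
  set v := 1 / (x ^ 3 + x + ((q : ℝ) - 2)) with hv
  set d := 1 / (2 * x ^ 2 + ((q : ℝ) - 2)) with hd
  have n1 : nu x g r g r s = p * u * (x * w) * k := by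
    unfold nu K3 K0
    rw [e_ne x h.symm, e_ne x hsr, e_self, Z2_ne x hs, Z4_grtg x hs h hsr.symm]
    simp only [← hp, ← hk, hu, hw]
    ring
  have n2 : nu x g r g g s = p * (x * u) * v * k := by
    unfold nu K3 K0
    rw [e_self, e_ne x h.symm, e_ne x hsr, e_ne x hs, Z2_ne x hs, Z4_grgg x hs]
    simp only [← hp, ← hk, hu, hv]
    ring
  have n3 : nu x g r g s s = p * (x * u) * d * k := by
    unfold nu K3 K0
    rw [e_self, e_ne x h.symm, e_ne x hsr, e_ne x hs.symm, Z2_ne x hs, Z4_grrg x hs]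
    simp only [← hp, ← hk, hu, hd]
    ring
  have n4 : ∀ c, c ≠ g → c ≠ r → c ≠ s → nu x g r g c s = p * u * w * k := by
    intro c hg hr hcs
    unfold nu K3 K0
    rw [e_ne x h.symm, e_ne x hsr, e_ne x hr, e_ne x hg.symm, e_ne x hcs.symm, Z2_ne x hs,
      Z4_grtg x hs hg hcs]
    simp only [← hp, ← hk, hu, hw]
    ring
  have nN : N x g r g s = p * (x * u) * v * k + p * u * (x * w) * k + p * (x * u) * d * k +
      ((q : ℝ) - 3) * (p * u * w * k) := by
    unfold N
    rw [split3 _ g r s h hs hsr (p * u * w * k) n4, n1, n2, n3]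
  have hκ : e x r r * e x s r / Z2 x r s = x * u := by
    rw [e_self, e_ne x hsr, Z2_ne x hsr, hu]; ring
  rw [nN, n1, hκ]
  have hu1 : u * (2 * x + ((q : ℝ) - 2)) = 1 := by
    rw [hu]; field_simp
  have key : p * u * (x * w) * k - (p * (x * u) * v * k + p * u * (x * w) * k +
      p * (x * u) * d * k + ((q : ℝ) - 3) * (p * u * w * k)) * (x * u) =
      p * k * (u * u * x) * ((x + 1) * w - x * v - x * d) := by
    linear_combination (-1) * (p * k * x * u * w) * hu1
  rw [key]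
  have hpl : 199 / 100 / x ^ 3 ≤ p := H.P_ne_lb hs
  have hkl : 333 / 1000 - 1 / 1000 ≤ k := H.K1_grtg h hs hsr
  have hul : 499 / 1000 / x ≤ u := H.half_lb'
  have hwl : 999 / 1000 / x ^ 2 ≤ w := H.i22C
  have hvu : v ≤ 1 / x ^ 3 := by
    rw [hv]; apply one_div_le_one_div_of_le (by positivity); linarith
  have hdu : d ≤ 1 / (2 * x ^ 2) := by
    rw [hd]; apply one_div_le_one_div_of_le (by positivity); linarith
  have hbr : 497 / 1000 / x ≤ (x + 1) * w - x * v - x * d := by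
    have a1 : 999 / 1000 / x ≤ (x + 1) * w := by
      calc 999 / 1000 / x = x * (999 / 1000 / x ^ 2) := by field_simp
        _ ≤ (x + 1) * w := by gcongr; linarith
    have a2 : x * v ≤ 1 / 1000 / x := by
      calc x * v ≤ x * (1 / x ^ 3) := by gcongr
        _ = 1 / x / x := by field_simp
        _ ≤ 1 / 1000 / x := by
            gcongr
            linarith [H.x27]
    have a3 : x * d ≤ 1 / 2 / x := by
      calc x * d ≤ x * (1 / (2 * x ^ 2)) := by gcongr
        _ = 1 / 2 / x := by field_simp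
    have a4 : 497 / 1000 / x ≤ 999 / 1000 / x - 1 / 1000 / x - 1 / 2 / x := by
      rw [← sub_div, ← sub_div]
      exact div_le_div_of_nonneg_right (by norm_num) hx.le
    linarith
  have hu0 : 0 ≤ u := by rw [hu]; positivity
  have hk0 : 0 ≤ k := le_trans (by norm_num) hkl
  have hp0 : 0 ≤ p := le_trans (by positivity) hpl
  calc 7 / 100 / x ^ 5 ≤ (199 / 100 / x ^ 3) * (333 / 1000 - 1 / 1000) *
        ((499 / 1000 / x) * (499 / 1000 / x) * x) * (497 / 1000 / x) := by
        have : (199 / 100 / x ^ 3) * (333 / 1000 - 1 / 1000) *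
            ((499 / 1000 / x) * (499 / 1000 / x) * x) * (497 / 1000 / x) =
            (199 / 100 * (333 / 1000 - 1 / 1000) * (499 / 1000) * (499 / 1000) * (497 / 1000)) /
              x ^ 5 := by field_simp
        rw [this]
        exact div_le_div_of_nonneg_right (by norm_num) (by positivity)
    _ ≤ p * k * (u * u * x) * ((x + 1) * w - x * v - x * d) := by
        have : 0 ≤ p * k * (u * u * x) := by positivity
        gcongr

/-- Term `m = g`. -/
theorem T_g {g r : Fin q} (h : r ≠ g) :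
    -(1 / x ^ 6) ≤ nu x g r g r g - N x g r g g * (e x r r * e x g r / Z2 x r g) := by
  have hx := H.x0
  have hA := H.A0
  have hB := H.B0
  set p := P x g g with hp
  set k := K1 x g r g g with hk
  set u := 1 / (2 * x + ((q : ℝ) - 2)) with hu
  set z := 1 / (x ^ 2 + ((q : ℝ) - 1)) with hz
  set v := 1 / (x ^ 3 + x + ((q : ℝ) - 2)) with hv
  set y := 1 / (x ^ 4 + ((q : ℝ) - 1)) with hy
  have n1 : nu x g r g r g = p * z * (x * v) * k := by
    unfold nu K3 K0
    rw [e_ne x h.symm, e_self, Z2_self, Z4_ggrg x h]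
    simp only [← hp, ← hk, hz, hv]
    ring
  have n2 : nu x g r g g g = p * (x ^ 2 * z) * y * k := by
    unfold nu K3 K0
    rw [e_self, e_ne x h.symm, Z2_self, Z4_gggg]
    simp only [← hp, ← hk, hz, hy]
    ring
  have n3 : ∀ c, c ≠ g → c ≠ r → nu x g r g c g = p * z * v * k := by
    intro c hg hr
    unfold nu K3 K0
    rw [e_ne x h.symm, e_ne x hr, e_ne x hg.symm, Z2_self, Z4_ggrg x hg]
    simp only [← hp, ← hk, hz, hv]
    ring
  have nN : N x g r g g = p * (x ^ 2 * z) * y * k + p * z * (x * v) * k +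
      ((q : ℝ) - 2) * (p * z * v * k) := by
    unfold N
    rw [split2 _ g r h (p * z * v * k) n3, n1, n2]
  have hκ : e x r r * e x g r / Z2 x r g = x * u := by
    rw [e_self, e_ne x h.symm, Z2_ne x h.symm, hu]; ring
  rw [nN, n1, hκ]
  have hu1 : u * (2 * x + ((q : ℝ) - 2)) = 1 := by
    rw [hu]; field_simp
  have hv1 : v * (x ^ 3 + x + ((q : ℝ) - 2)) = 1 := by
    rw [hv]; field_simp
  have hy1 : y * (x ^ 4 + ((q : ℝ) - 1)) = 1 := by
    rw [hy]; field_simp
  have key : p * z * (x * v) * k - (p * (x ^ 2 * z) * y * k + p * z * (x * v) * k +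
      ((q : ℝ) - 2) * (p * z * v * k)) * (x * u) =
      p * k * z * u * x ^ 2 * (v * y * (((q : ℝ) - 1) - x ^ 2 - x * ((q : ℝ) - 2))) := by
    have e1 : v - x * y = v * y * (((q : ℝ) - 1) - x ^ 2 - x * ((q : ℝ) - 2)) := by
      linear_combination (-v) * hy1 + (x * y) * hv1
    rw [← e1]
    linear_combination (-1) * (p * k * z * x * v) * hu1
  rw [key]
  have hp1 : p ≤ 1 := H.P_le_one g g
  have hk1 : k ≤ 1 := by
    rw [hk]
    refine le_trans (H.K1_le_g g r g g) ?_
    rw [e_self, e_ne x h, e_ne x h.symm]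
    rw [div_le_one (by positivity)]
    linarith
  have hp0 : 0 ≤ p := H.P_nonneg g g
  have hk0 : 0 ≤ k := (H.K1_pos g r g g).le
  have hu0 : 0 ≤ u := by rw [hu]; positivity
  have hz0 : 0 ≤ z := by rw [hz]; positivity
  have hv0 : 0 ≤ v := by rw [hv]; positivity
  have hy0 : 0 ≤ y := by rw [hy]; positivity
  have huu : u ≤ 1 / (2 * x) := by
    rw [hu]; apply one_div_le_one_div_of_le (by positivity); linarith
  have hzu : z ≤ 1 / x ^ 2 := by
    rw [hz]; apply one_div_le_one_div_of_le (by positivity); linarith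
  have hvu : v ≤ 1 / x ^ 3 := by
    rw [hv]; apply one_div_le_one_div_of_le (by positivity); linarith
  have hyu : y ≤ 1 / x ^ 4 := by
    rw [hy]; apply one_div_le_one_div_of_le (by positivity); linarith
  have hbr : -(((q : ℝ) - 1) - x ^ 2 - x * ((q : ℝ) - 2)) ≤ 2 * x ^ 2 := by
    have := H.qx
    nlinarith
  have hmain : p * k * z * u * x ^ 2 * (v * y * (-(((q : ℝ) - 1) - x ^ 2 - x * ((q : ℝ) - 2)))) ≤
      1 / x ^ 6 := by
    calc _ ≤ p * k * z * u * x ^ 2 * (v * y * (2 * x ^ 2)) := by gcongr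
      _ ≤ 1 * 1 * (1 / x ^ 2) * (1 / (2 * x)) * x ^ 2 * ((1 / x ^ 3) * (1 / x ^ 4) * (2 * x ^ 2)) := by
          gcongr
      _ = 1 / x ^ 6 := by field_simp
  linarith

/-- Term `m = r`. -/
theorem T_r {g r : Fin q} (h : r ≠ g) :
    -((q : ℝ) * (3 / x ^ 6)) ≤ nu x g r g r r - N x g r g r * (e x r r * e x r r / Z2 x r r) := by
  have hx := H.x0
  have hk1 : e x r r * e x r r / Z2 x r r ≤ 1 := by
    rw [div_le_one (H.Z2_pos r r)]
    exact Finset.single_le_sum (f := fun u => e x r u * e x r u)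
      (fun u _ => (mul_pos (H.e0 _ _) (H.e0 _ _)).le) (Finset.mem_univ r)
  have hN : N x g r g r ≤ nu x g r g r r + q * (3 / x ^ 6) := by
    unfold N
    rw [← Finset.add_sum_erase _ _ (Finset.mem_univ r)]
    gcongr
    calc ∑ c ∈ univ.erase r, nu x g r g c r ≤ ∑ c ∈ univ.erase r, 3 / x ^ 6 :=
          Finset.sum_le_sum fun c hc => H.nu_rgcr h (Finset.ne_of_mem_erase hc)
      _ ≤ ∑ _c : Fin q, 3 / x ^ 6 :=
          Finset.sum_le_sum_of_subset_of_nonneg (Finset.erase_subset _ _)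
            fun _ _ _ => by positivity
      _ = q * (3 / x ^ 6) := by
          rw [Finset.sum_const, Finset.card_univ, Fintype.card_fin, nsmul_eq_mul]
  have h1 : N x g r g r * (e x r r * e x r r / Z2 x r r) ≤ N x g r g r :=
    mul_le_of_le_one_right (H.N_nonneg g r g r) hk1
  linarith

theorem D1_lb {g r : Fin q} (h : r ≠ g) :
    ((q : ℝ) - 2) * (7 / 100 / x ^ 5) - 1 / x ^ 6 - q * (3 / x ^ 6) ≤
      S x g r g r - F x g r g r := by
  rw [H.D1_eq g r]
  set f := fun m => nu x g r g r m - N x g r g m * (e x r r * e x m r / Z2 x r m) with hf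
  have h1 := split2 (fun m => if m = g then f g else if m = r then f r else 7 / 100 / x ^ 5)
    g r h (7 / 100 / x ^ 5) (fun u hu hr => by simp [hu, hr])
  have h2 : ∑ m, (if m = g then f g else if m = r then f r else 7 / 100 / x ^ 5) ≤ ∑ m, f m := by
    refine Finset.sum_le_sum fun m _ => ?_
    by_cases hg : m = g
    · rw [if_pos hg, hg]
    · rw [if_neg hg]
      by_cases hr : m = r
      · rw [if_pos hr, hr]
      · rw [if_neg hr]; exact H.T_s h hg hr
  rw [h1] at h2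
  simp only [if_true, h, if_false] at h2
  have h3 := H.T_g h
  have h4 := H.T_r h
  simp only [hf] at h2 ⊢
  linarith

end Hyp

end Pool.Agent.H984R2.Potts
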