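import Mathlib
import Pool.Agent.H984R2.PottsE

set_option autoImplicit false

namespace Pool.Agent.H984R2.Potts

open Finset

variable {q : ℕ}

noncomputable def G (x Z : ℝ) (g a b : Fin q) : ℝ :=
  ∑ c, (|F x g a b c - W x Z g a b c| - |S x g a b c - W x Z g a b c|)

theorem sum_abs_sur {f s w : Fin q → ℝ} (hfs : ∑ c, f c = ∑ c, s c) (h : ∀ c, w c ≤ s c) :
    0 ≤ ∑ c, (|f c - w c| - |s c - w c|) := by
  rw [Finset.sum_sub_distrib, sub_nonneg]
  calc ∑ c, |s c - w c| = ∑ c, (s c - w c) :=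
        Finset.sum_congr rfl fun c _ => abs_of_nonneg (sub_nonneg.mpr (h c))
    _ = ∑ c, (f c - w c) := by rw [Finset.sum_sub_distrib, Finset.sum_sub_distrib, hfs]
    _ ≤ ∑ c, |f c - w c| := Finset.sum_le_sum fun c _ => le_abs_self _

theorem sum_abs_def {f s w : Fin q → ℝ} (hfs : ∑ c, f c = ∑ c, s c) (h : ∀ c, s c ≤ w c) :
    0 ≤ ∑ c, (|f c - w c| - |s c - w c|) := by
  rw [Finset.sum_sub_distrib, sub_nonneg]
  calc ∑ c, |s c - w c| = ∑ c, (w c - s c) :=
        Finset.sum_congr rfl fun c _ => by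
          rw [abs_of_nonpos (sub_nonpos.mpr (h c))]; ring
    _ = ∑ c, (w c - f c) := by rw [Finset.sum_sub_distrib, Finset.sum_sub_distrib, hfs]
    _ ≤ ∑ c, |f c - w c| := Finset.sum_le_sum fun c _ => by
          rw [abs_sub_comm]; exact le_abs_self _

theorem sum_abs_one {f s w : Fin q → ℝ} (r : Fin q) (hfs : ∑ c, f c = ∑ c, s c)
    (h : ∀ c, c ≠ r → w c ≤ s c) (hr : s r ≤ w r) :
    2 * (s r - f r) ≤ ∑ c, (|f c - w c| - |s c - w c|) := by
  have h1 : ∀ c, (if c = r then 2 * (s r - f r) else 0) + (f c - s c) ≤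
      |f c - w c| - |s c - w c| := by
    intro c
    by_cases hc : c = r
    · subst hc
      rw [if_pos rfl, abs_of_nonpos (sub_nonpos.mpr hr)]
      have := neg_abs_le (f c - w c)
      linarith
    · rw [if_neg hc, abs_of_nonneg (sub_nonneg.mpr (h c hc))]
      have := le_abs_self (f c - w c)
      linarith
  have h2 := Finset.sum_le_sum fun c (_ : c ∈ (Finset.univ : Finset (Fin q))) => h1 c
  rw [Finset.sum_add_distrib, Finset.sum_sub_distrib, hfs, sub_self, add_zero,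
    Finset.sum_ite_eq' Finset.univ r, if_pos (Finset.mem_univ r)] at h2
  exact h2

theorem sum_abs_gen {f s w b : Fin q → ℝ} (r : Fin q) (hfs : ∑ c, f c = ∑ c, s c)
    (hb : ∀ c, 0 ≤ b c) (h : ∀ c, c ≠ r → s c - f c ≤ b c) (hr : s r ≤ w r) :
    -(2 * ∑ c, b c) ≤ ∑ c, (|f c - w c| - |s c - w c|) := by
  have h1 : ∀ c, (s c - f c) - 2 * b c ≤ |f c - w c| - |s c - w c| := by
    intro c
    by_cases hc : c = r
    · subst hc
      rw [abs_of_nonpos (sub_nonpos.mpr hr)]
      have := neg_abs_le (f c - w c)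
      linarith [hb c]
    · have h3 := h c hc
      have h4 : |s c - w c| ≤ |f c - w c| + |s c - f c| := by
        calc |s c - w c| = |(f c - w c) + (s c - f c)| := by ring_nf
          _ ≤ _ := abs_add_le _ _
      rcases le_total 0 (s c - f c) with h5 | h5
      · rw [abs_of_nonneg h5] at h4; linarith
      · rw [abs_of_nonpos h5] at h4
        linarith [hb c]
  have h2 := Finset.sum_le_sum fun c (_ : c ∈ (Finset.univ : Finset (Fin q))) => h1 c
  rw [Finset.sum_sub_distrib, Finset.sum_sub_distrib, hfs, sub_self, ← Finset.mul_sum] at h2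
  linarith

namespace Hyp

variable {x : ℝ} (H : Hyp q x)
include H

theorem D_rtt {g r t : Fin q} (h : r ≠ g) (ht : t ≠ g) (htr : t ≠ r) :
    S x g r t t - F x g r t t ≤ q * (3 / x ^ 7) := by
  have hx := H.x0
  have hA := H.A0
  have hB := H.B0
  have hC := H.C0
  set p := P x g t with hp
  set k := K1 x g r t t with hk
  set u := 1 / (2 * x + ((q : ℝ) - 2)) with hu
  set w := 1 / (x ^ 2 + 2 * x + ((q : ℝ) - 3)) with hw
  set d := 1 / (2 * x ^ 2 + ((q : ℝ) - 2)) with hd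
  have n1 : nu x g r t t t = p * (x * u) * d * k := by
    unfold nu K3 K0
    rw [e_ne x h.symm, e_ne x ht.symm, e_self, e_ne x htr, Z2_ne x ht, Z4_grrg x ht]
    simp only [← hp, ← hk, hu, hd]
    ring
  have n2 : nu x g r t r t = p * u * (x * w) * k := by
    unfold nu K3 K0
    rw [e_ne x h.symm, e_ne x htr, e_self, Z2_ne x ht, Z4_grtg x ht h htr.symm]
    simp only [← hp, ← hk, hu, hw]
    ring
  have hN : nu x g r t t t + nu x g r t r t ≤ N x g r t t := by
    unfold N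
    rw [← Finset.add_sum_erase _ _ (Finset.mem_univ t)]
    have : nu x g r t r t ≤ ∑ c ∈ univ.erase t, nu x g r t c t :=
      Finset.single_le_sum (f := fun c => nu x g r t c t) (fun c _ => H.nu_nonneg g r t c t)
        (Finset.mem_erase.mpr ⟨htr.symm, Finset.mem_univ r⟩)
    linarith
  have hF : N x g r t t * (x * u) ≤ F x g r t t := by
    have hκ : e x r t * e x t t / Z2 x r t = x * u := by
      rw [e_self, e_ne x htr.symm, Z2_ne x htr, hu]; ring
    rw [← hκ]
    unfold F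
    refine Finset.single_le_sum (f := fun m => N x g r t m * (e x r t * e x m t / Z2 x r m))
      (fun m _ => ?_) (Finset.mem_univ t)
    have := H.N_nonneg g r t m
    have := H.Z2_pos r m
    have := H.e0 r t
    have := H.e0 m t
    positivity
  have hS : S x g r t t ≤ nu x g r t t t + q * (3 / x ^ 7) := by
    unfold S
    rw [← Finset.add_sum_erase _ _ (Finset.mem_univ t)]
    gcongr
    calc ∑ m ∈ univ.erase t, nu x g r t t m ≤ ∑ m ∈ univ.erase t, 3 / x ^ 7 :=
          Finset.sum_le_sum fun m hm => H.nu_rttm h ht htr (Finset.ne_of_mem_erase hm)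
      _ ≤ ∑ _m : Fin q, 3 / x ^ 7 :=
          Finset.sum_le_sum_of_subset_of_nonneg (Finset.erase_subset _ _)
            fun _ _ _ => by positivity
      _ = q * (3 / x ^ 7) := by
          rw [Finset.sum_const, Finset.card_univ, Fintype.card_fin, nsmul_eq_mul]
  have hu0 : 0 ≤ u := by rw [hu]; positivity
  have hp0 : 0 ≤ p := H.P_nonneg g t
  have hk0 : 0 ≤ k := (H.K1_pos g r t t).le
  have key : nu x g r t t t ≤ (nu x g r t t t + nu x g r t r t) * (x * u) := by
    rw [n1, n2]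
    have h1 : d ≤ (d + w) * (x * u) := by
      have : (d + w) * (x * u) = (d + w) * x / (2 * x + ((q : ℝ) - 2)) := by rw [hu]; ring
      rw [this, le_div_iff₀ (by positivity)]
      have h2 : d * (x + ((q : ℝ) - 2)) ≤ w * x := by
        rw [hd, hw, one_div_mul_eq_div, one_div_mul_eq_div, div_le_div_iff₀ (by positivity) (by positivity)]
        have hqx := H.qx
        have h27 := H.x27
        have hc2 : (q : ℝ) - 2 ≤ x / 9000 := by linarith
        have e1 : (x + ((q : ℝ) - 2)) * (x ^ 2 + 2 * x + ((q : ℝ) - 3)) ≤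
            (x + x / 9000) * (x ^ 2 + 3 * x) :=
          mul_le_mul (by linarith) (by linarith) (by positivity) (by positivity)
        have e2 : (x + x / 9000) * (x ^ 2 + 3 * x) ≤ x * (2 * x ^ 2) := by
          have := H.xk2
          nlinarith
        have e3 : x * (2 * x ^ 2) ≤ x * (2 * x ^ 2 + ((q : ℝ) - 2)) := by
          gcongr; linarith
        linarith
      linarith
    calc p * (x * u) * d * k = p * (x * u) * k * d := by ring
      _ ≤ p * (x * u) * k * ((d + w) * (x * u)) := by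
          gcongr
      _ = _ := by ring
  have h3 : (nu x g r t t t + nu x g r t r t) * (x * u) ≤ N x g r t t * (x * u) := by
    gcongr
  linarith

theorem G_g {Z : ℝ} (hZ : (q : ℝ) * x ^ 7 ≤ Z) (g b : Fin q) : 0 ≤ G x Z g g b := by
  refine sum_abs_sur (H.F_sum g g b) fun c => ?_
  by_cases hb : b = g
  · subst hb
    by_cases hc : c = b
    · subst hc; exact H.sur_ggg hZ c
    · exact H.sur_ggr hZ hc
  · by_cases hc : c = g
    · subst hc; exact H.sur_grg hZ hb
    · by_cases hcb : c = b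
      · subst hcb; exact H.sur_grr hZ hb
      · exact H.sur_grt hZ hb hc hcb

theorem G_rr {Z : ℝ} (hZ0 : 0 < Z) (hZ : Z ≤ 36 * (q : ℝ) * x ^ 7) {g r : Fin q}
    (h : r ≠ g) : 0 ≤ G x Z g r r := by
  refine sum_abs_def (H.F_sum g r r) fun c => ?_
  by_cases hc : c = r
  · subst hc; exact H.def_rrr hZ0 hZ h
  · exact H.def_rrc hZ0 hZ h hc

theorem G_rg {Z : ℝ} (hZ1 : (q : ℝ) * x ^ 7 ≤ Z) (hZ0 : 0 < Z) (hZ : Z ≤ 36 * (q : ℝ) * x ^ 7)
    {g r : Fin q} (h : r ≠ g) : 2 * (S x g r g r - F x g r g r) ≤ G x Z g r g := by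
  refine sum_abs_one r (H.F_sum g r g) (fun c hc => ?_) (H.def_rgr hZ0 hZ h)
  by_cases hg : c = g
  · subst hg; exact H.sur_rgg hZ1 h
  · exact H.sur_rgt hZ1 h hg hc

theorem G_rt {Z : ℝ} (hZ0 : 0 < Z) (hZ : Z ≤ 36 * (q : ℝ) * x ^ 7)
    {g r t : Fin q} (h : r ≠ g) (ht : t ≠ g) (htr : t ≠ r) :
    -(2 * ((q : ℝ) * (q * (3 / x ^ 6)))) ≤ G x Z g r t := by
  have hx := H.x0
  have hx1 := H.x1
  have h1 := sum_abs_gen (f := F x g r t) (s := S x g r t) (w := W x Z g r t)
    (b := fun _ => (q : ℝ) * (3 / x ^ 6)) r (H.F_sum g r t)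
    (fun c => by positivity) (fun c hc => ?_) (H.def_rtr hZ0 hZ h ht htr)
  · rw [Finset.sum_const, Finset.card_univ, Fintype.card_fin, nsmul_eq_mul] at h1
    exact h1
  · by_cases hct : c = t
    · subst hct
      refine (H.D_rtt h ht htr).trans ?_
      gcongr
      norm_num
    · have h2 := H.S_rtc h ht htr hc hct
      have h3 : 0 ≤ F x g r t c := by
        unfold F
        refine Finset.sum_nonneg fun m _ => ?_
        have := H.N_nonneg g r t m
        have := H.Z2_pos r m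
        have := H.e0 r c
        have := H.e0 m c
        positivity
      linarith

theorem G_r {Z : ℝ} (hZ1 : (q : ℝ) * x ^ 7 ≤ Z) (hZ0 : 0 < Z) (hZ : Z ≤ 36 * (q : ℝ) * x ^ 7)
    {g r : Fin q} (h : r ≠ g) : 0 < ∑ b, G x Z g r b := by
  have hx := H.x0
  have hx1 := H.x1
  have hB := H.B0
  have h3 := H.Q3
  have h1 := split2 (fun b => if b = g then 2 * (S x g r g r - F x g r g r) else if b = r then 0
    else -(2 * ((q : ℝ) * (q * (3 / x ^ 6))))) g r h (-(2 * ((q : ℝ) * (q * (3 / x ^ 6)))))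
    (fun u hu hr => by simp [hu, hr])
  have h2 : ∑ b, (if b = g then 2 * (S x g r g r - F x g r g r) else if b = r then 0
      else -(2 * ((q : ℝ) * (q * (3 / x ^ 6))))) ≤ ∑ b, G x Z g r b := by
    refine Finset.sum_le_sum fun b _ => ?_
    by_cases hg : b = g
    · rw [if_pos hg, hg]; exact H.G_rg hZ1 hZ0 hZ h
    · rw [if_neg hg]
      by_cases hr : b = r
      · rw [if_pos hr, hr]; exact H.G_rr hZ0 hZ h
      · rw [if_neg hr]; exact H.G_rt hZ0 hZ h hg hr
  rw [h1] at h2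
  simp only [if_true, h, if_false] at h2
  refine lt_of_lt_of_le ?_ h2
  have h4 := H.D1_lb h
  have h5 : 0 < 2 * (((q : ℝ) - 2) * (7 / 100 / x ^ 5) - 1 / x ^ 6 - q * (3 / x ^ 6)) + 0 +
      ((q : ℝ) - 2) * -(2 * ((q : ℝ) * (q * (3 / x ^ 6)))) := by
    have : 2 * (((q : ℝ) - 2) * (7 / 100 / x ^ 5) - 1 / x ^ 6 - q * (3 / x ^ 6)) + 0 +
        ((q : ℝ) - 2) * -(2 * ((q : ℝ) * (q * (3 / x ^ 6)))) =
        (2 / x ^ 6) * (((q : ℝ) - 2) * (7 / 100 * x) - 1 - 3 * q -
          3 * ((q : ℝ) - 2) * q ^ 2) := by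
      field_simp
      ring
    rw [this]
    apply mul_pos (by positivity)
    have h6 := H.hx
    have h7 : ((q : ℝ) - 2) * (70 * q ^ 3) ≤ ((q : ℝ) - 2) * (7 / 100 * x) :=
      mul_le_mul_of_nonneg_left (by linarith) hB
    have h8 : (1 : ℝ) ≤ (q : ℝ) - 2 := by linarith
    have h9 : (27 : ℝ) ≤ (q : ℝ) ^ 3 := by
      calc (27 : ℝ) = 3 ^ 3 := by norm_num
        _ ≤ (q : ℝ) ^ 3 := by gcongr
    have h10 : 9 * (q : ℝ) ≤ (q : ℝ) ^ 3 := by nlinarith [mul_self_nonneg ((q : ℝ)), h3]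
    have h11 : ((q : ℝ) - 2) * (3 * (q : ℝ) ^ 2) ≤ ((q : ℝ) - 2) * (q : ℝ) ^ 3 := by
      gcongr
      nlinarith [sq_nonneg (q : ℝ)]
    have h12 : 1 * (q : ℝ) ^ 3 ≤ ((q : ℝ) - 2) * (q : ℝ) ^ 3 := by gcongr
    nlinarith
  linarith

theorem G_total {Z : ℝ} (hZ1 : (q : ℝ) * x ^ 7 ≤ Z) (hZ : Z ≤ 36 * (q : ℝ) * x ^ 7)
    (g : Fin q) : 0 < ∑ a, ∑ b, G x Z g a b := by
  have hx := H.x0
  have h3 := H.Q3
  have hZ0 : 0 < Z := lt_of_lt_of_le (by positivity) hZ1
  have : ∃ r : Fin q, r ≠ g := by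
    have : Nontrivial (Fin q) := Fin.nontrivial_iff_two_le.mpr (by have := H.hq; omega)
    exact exists_ne g
  obtain ⟨r, hr⟩ := this
  refine Finset.sum_pos' (fun a _ => ?_) ⟨r, Finset.mem_univ r, H.G_r hZ1 hZ0 hZ hr⟩
  by_cases ha : a = g
  · subst ha; exact Finset.sum_nonneg fun b _ => H.G_g hZ1 a b
  · exact (H.G_r hZ1 hZ0 hZ ha).le

end Hyp

end Pool.Agent.H984R2.Potts
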