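import Mathlib

set_option autoImplicit false

namespace Pool.Agent.H984R2

open Finset

/-- Total variation distance of two mass functions on a finite set:
the largest value of `|μ(A) - ν(A)|` over all events `A`. -/
noncomputable def tv {Ω : Type*} [Fintype Ω] (μ ν : Ω → ℝ) : ℝ :=
  ⨆ A : Finset Ω, |∑ a ∈ A, μ a - ∑ a ∈ A, ν a|

theorem tv_eq {Ω : Type*} [Fintype Ω] (μ ν : Ω → ℝ) (h : ∑ a, μ a = ∑ a, ν a) :
    tv μ ν = (∑ a, |μ a - ν a|) / 2 := by
  classical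
  have hzero : ∑ a, (μ a - ν a) = 0 := by rw [Finset.sum_sub_distrib, h, sub_self]
  -- positive and negative parts
  have key : ∀ A : Finset Ω, |∑ a ∈ A, μ a - ∑ a ∈ A, ν a| ≤ (∑ a, |μ a - ν a|) / 2 := by
    intro A
    rw [← Finset.sum_sub_distrib]
    have h1 : ∑ a ∈ A, (μ a - ν a) + ∑ a ∈ Aᶜ, (μ a - ν a) = 0 := by
      rw [Finset.sum_add_sum_compl, hzero]
    have h2 : ∑ a ∈ A, |μ a - ν a| + ∑ a ∈ Aᶜ, |μ a - ν a| = ∑ a, |μ a - ν a| :=
      Finset.sum_add_sum_compl A _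
    have h3 := Finset.abs_sum_le_sum_abs (fun a => μ a - ν a) A
    have h4 := Finset.abs_sum_le_sum_abs (fun a => μ a - ν a) Aᶜ
    have h5 : |∑ a ∈ A, (μ a - ν a)| = |∑ a ∈ Aᶜ, (μ a - ν a)| := by
      rw [eq_neg_of_add_eq_zero_left h1, abs_neg]
    linarith
  apply le_antisymm
  · exact ciSup_le key
  · have hbdd : BddAbove (Set.range fun A : Finset Ω => |∑ a ∈ A, μ a - ∑ a ∈ A, ν a|) :=
      ⟨_, by rintro _ ⟨A, rfl⟩; exact key A⟩
    refine le_trans ?_ (le_ciSup hbdd (Finset.univ.filter fun a => 0 ≤ μ a - ν a))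
    rw [← Finset.sum_sub_distrib]
    set B := Finset.univ.filter fun a => 0 ≤ μ a - ν a with hB
    have h1 : ∑ a ∈ B, (μ a - ν a) + ∑ a ∈ Bᶜ, (μ a - ν a) = 0 := by
      rw [Finset.sum_add_sum_compl, hzero]
    have h2 : ∑ a ∈ B, |μ a - ν a| + ∑ a ∈ Bᶜ, |μ a - ν a| = ∑ a, |μ a - ν a| :=
      Finset.sum_add_sum_compl B _
    have h3 : ∑ a ∈ B, |μ a - ν a| = ∑ a ∈ B, (μ a - ν a) := by
      refine Finset.sum_congr rfl fun a ha => abs_of_nonneg ?_
      exact (Finset.mem_filter.mp ha).2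
    have h4 : ∑ a ∈ Bᶜ, |μ a - ν a| = - ∑ a ∈ Bᶜ, (μ a - ν a) := by
      rw [← Finset.sum_neg_distrib]
      refine Finset.sum_congr rfl fun a ha => abs_of_nonpos ?_
      rw [Finset.mem_compl, hB, Finset.mem_filter] at ha
      push Not at ha
      exact (ha (Finset.mem_univ a)).le
    refine le_trans ?_ (le_abs_self _)
    linarith

theorem le_tv {Ω : Type*} [Fintype Ω] (μ ν : Ω → ℝ) (A : Finset Ω) :
    |∑ a ∈ A, μ a - ∑ a ∈ A, ν a| ≤ tv μ ν := by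
  classical
  refine le_ciSup (f := fun A : Finset Ω => |∑ a ∈ A, μ a - ∑ a ∈ A, ν a|) ?_ A
  exact Set.Finite.bddAbove (Set.finite_range _)

end Pool.Agent.H984R2
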